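import Pool.Agent.Lib.MP_6babc4_nt.Cy3.EKMain
import Pool.Agent.Lib.MP_6babc4_nt.Cyc.KFld

/-!
# Module EAll: all the number fields of degree `d` at once

PROOF. `κ₀, c₀` from `mainE` for `ε / 2`, `C₁, C` from `height_le n N 1` (Cyc/Arc; `mem_famE`), `A₂, C₂` from
`subF_count d` (Cyc/KFld). `κ = max κ₀ (2 (A₂ + 1) C₁ / ε)`, `c = max c₀ C + C₂ * max c₀ 1`... : large
enough. Let `H ≥ 1`, `Y = H^(C₁ / κ)`. `𝒦` is the finite set `SubF ℚ d Y` and `T K` is the set of `mainE` for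
`ε / 2` (for `K` with `NumberField K` and degree `d`, otherwise empty; `Classical.choice`). If `K` has a
violator `f` for `κ, c` then (as `KMain_vio` in Cyc/KMain) `|D_K| ≤ |D_K| condE ≤ Y`, so `K` is in `SubF ℚ d Y` (`E = K`,
`ι = K.val`); and `f` is a violator for `κ₀, c₀` because `log (|D_K| condE) ≥ 0`, `κ ≥ κ₀`, `c ≥ c₀`. The sum is at most
`C₂ Y^A₂ c₀ H^(ε/2) ≤ C₂ c₀ H^ε` as `A₂ C₁ / κ ≤ ε / 2`. (`c₀ ≥ 0`: `T.card ≥ 0` for `H = 1`, or replace `c₀` by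
`max c₀ 1`.)
-/

set_option autoImplicit false

open Polynomial NumberField IsDedekindDomain Module

namespace FreyCyc

open FreySparse

private lemma EAll_one {N : ℕ} {K : Type} [Field K] [NumberField K] (f : ℕ → (𝓞 K)[X]) :
    1 ≤ |(NumberField.discr K : ℝ)| * condE N f ∧
      |(NumberField.discr K : ℝ)| ≤ |(NumberField.discr K : ℝ)| * condE N f := by
  have hD : 1 ≤ |(NumberField.discr K : ℝ)| := by
    have h := Int.one_le_abs (NumberField.discr_ne_zero K)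
    rw [← Int.cast_abs]
    exact_mod_cast h
  have hcd : (1 : ℝ) ≤ condE N f := by exact_mod_cast condE_pos N f
  exact ⟨one_le_mul_of_one_le_of_one_le hD hcd, le_mul_of_one_le_right (by linarith) hcd⟩

private lemma EAll_vio {N : ℕ} {κ c C C₁ : ℝ} (hκ : 0 < κ) (hc : C ≤ c) {K : Type} [Field K]
    [NumberField K] {H : ℝ} (hH : 1 ≤ H) {f : ℕ → (𝓞 K)[X]}
    (hh : height N f ≤ C₁ * Real.log H + C) (hF : ¬ FreyE N κ c f) :
    |(NumberField.discr K : ℝ)| * condE N f ≤ H ^ (C₁ / κ) := by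
  unfold FreyE at hF
  push Not at hF
  have h1 : κ * Real.log (|(NumberField.discr K : ℝ)| * condE N f) < C₁ * Real.log H := by
    linarith
  have hpos : 0 < |(NumberField.discr K : ℝ)| * condE N f :=
    lt_of_lt_of_le one_pos (EAll_one f).1
  have hH0 : 0 < H := by linarith
  have h2 : Real.log (|(NumberField.discr K : ℝ)| * condE N f) < C₁ / κ * Real.log H := by
    have h3 : C₁ / κ * Real.log H = (C₁ * Real.log H) / κ := by ring
    rw [h3, lt_div_iff₀ hκ]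
    linarith
  rw [← Real.log_rpow hH0] at h2
  exact ((Real.log_lt_log_iff hpos (Real.rpow_pos_of_pos hH0 _)).1 h2).le

private lemma EAll_mono {N : ℕ} {κ κ₀ c c₀ : ℝ} (hκ : κ₀ ≤ κ) (hc : c₀ ≤ c) {K : Type} [Field K]
    [NumberField K] {f : ℕ → (𝓞 K)[X]} (hF : ¬ FreyE N κ c f) : ¬ FreyE N κ₀ c₀ f := by
  intro h
  apply hF
  unfold FreyE at h ⊢
  have h1 : 0 ≤ Real.log (|(NumberField.discr K : ℝ)| * condE N f) :=
    Real.log_nonneg (EAll_one f).1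
  have h2 := mul_le_mul_of_nonneg_right hκ h1
  linarith

private lemma EAll_sub (inst : Algebra ℚ (AlgebraicClosure ℚ)) {d A₂ : ℕ} {C₂ Y : ℝ}
    (hfin : (SubF ℚ d Y).Finite) (hcard : ((SubF ℚ d Y).ncard : ℝ) ≤ C₂ * Y ^ A₂) :
    ∃ 𝒦 : Finset (@IntermediateField ℚ (AlgebraicClosure ℚ) _ _ inst),
      (𝒦.card : ℝ) ≤ C₂ * Y ^ A₂ ∧
      ∀ (K : @IntermediateField ℚ (AlgebraicClosure ℚ) _ _ inst) [NumberField K],
        finrank ℚ K = d → |(discr K : ℝ)| ≤ Y → K ∈ 𝒦 := by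
  obtain rfl : inst = AlgebraicClosure.instAlgebra ℚ := Subsingleton.elim _ _
  refine ⟨hfin.toFinset, ?_, ?_⟩
  · rw [← Set.ncard_eq_toFinset_card _ hfin]
    exact hcard
  · intro K _ hd hD
    rw [Set.Finite.mem_toFinset]
    exact ⟨K, inferInstance, inferInstance, inferInstance, K.val, hd.le, hD,
      (IntermediateField.fieldRange_val K).symm⟩

theorem allE (d n N : ℕ) (hN : 3 ≤ N) (hn : 3 ≤ n) {ε : ℝ} (hε : 0 < ε) :
    ∃ κ c : ℝ, ∀ H : ℝ, 1 ≤ H →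
      ∃ (𝒦 : Finset (IntermediateField ℚ (AlgebraicClosure ℚ)))
        (T : ∀ K : IntermediateField ℚ (AlgebraicClosure ℚ), Finset (ℕ → (𝓞 K)[X])),
        (∑ K ∈ 𝒦, ((T K).card : ℝ)) ≤ c * H ^ ε ∧
        ∀ (K : IntermediateField ℚ (AlgebraicClosure ℚ)) [NumberField K], finrank ℚ K = d →
          ∀ f ∈ FamE K N n H, ¬ FreyE N κ c f → K ∈ 𝒦 ∧ ∃ g ∈ T K, IsoK N f g := by
  classical
  obtain ⟨κ₀, c₀, h0⟩ := mainE d n N hN hn (ε := ε / 2) (by positivity)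
  obtain ⟨C₁, C, hC₁, hC, hh⟩ := height_le n N 1 hn (by omega)
  obtain ⟨A₂, C₂, hC₂, hsub⟩ := subF_count d
  obtain ⟨κ, hκ⟩ : ∃ κ : ℝ, κ = max κ₀ (2 * ((A₂ : ℝ) + 1) * C₁ / ε) := ⟨_, rfl⟩
  obtain ⟨c, hc⟩ : ∃ c : ℝ, c = max (max c₀ C) (C₂ * max c₀ 1) := ⟨_, rfl⟩
  have hκ1 : 2 * ((A₂ : ℝ) + 1) * C₁ / ε ≤ κ := by
    rw [hκ]
    exact le_max_right _ _
  have hκ2 : κ₀ ≤ κ := by
    rw [hκ]
    exact le_max_left _ _
  have hκ0 : 0 < κ := lt_of_lt_of_le (by positivity) hκ1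
  have hc1 : c₀ ≤ c := by
    rw [hc]
    exact (le_max_left _ _).trans (le_max_left _ _)
  have hc2 : C ≤ c := by
    rw [hc]
    exact (le_max_right _ _).trans (le_max_left _ _)
  have hc3 : C₂ * max c₀ 1 ≤ c := by
    rw [hc]
    exact le_max_right _ _
  refine ⟨κ, c, fun H hH => ?_⟩
  have hH0 : 0 < H := by linarith
  obtain ⟨Y, hY⟩ : ∃ Y : ℝ, Y = H ^ (C₁ / κ) := ⟨_, rfl⟩
  have hY1 : 1 ≤ Y := by
    rw [hY]
    exact Real.one_le_rpow hH (by positivity)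
  obtain ⟨hfin, hcard⟩ := hsub ℚ Y hY1
  have hm0 : (0 : ℝ) ≤ max c₀ 1 := le_trans zero_le_one (le_max_right _ _)
  have hHe : (0 : ℝ) ≤ H ^ (ε / 2) := (Real.rpow_pos_of_pos hH0 _).le
  have hT : ∀ K : IntermediateField ℚ (AlgebraicClosure ℚ), ∃ T : Finset (ℕ → (𝓞 K)[X]),
      (T.card : ℝ) ≤ max c₀ 1 * H ^ (ε / 2) ∧ ∀ [NumberField K], finrank ℚ K = d →
        ∀ f ∈ FamE K N n H, ¬ FreyE N κ₀ c₀ f → ∃ g ∈ T, IsoK N f g := by
    intro K
    by_cases hK : NumberField K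
    · by_cases hd : finrank ℚ K = d
      · obtain ⟨T, hT1, hT2⟩ := h0 K hd H hH
        refine ⟨T, hT1.trans (mul_le_mul_of_nonneg_right (le_max_left _ _) hHe), ?_⟩
        intro _ _
        exact hT2
      · refine ⟨∅, ?_, ?_⟩
        · rw [Finset.card_empty, Nat.cast_zero]
          exact mul_nonneg hm0 hHe
        · intro _ hd'
          exact absurd hd' hd
    · refine ⟨∅, ?_, ?_⟩
      · rw [Finset.card_empty, Nat.cast_zero]
        exact mul_nonneg hm0 hHe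
      · intro h _
        exact absurd h hK
  choose T hT1 hT2 using hT
  obtain ⟨𝒦, h𝒦1, h𝒦2⟩ := EAll_sub _ hfin hcard
  refine ⟨𝒦, T, ?_, ?_⟩
  · have h1 : (∑ K ∈ 𝒦, ((T K).card : ℝ)) ≤ (𝒦.card : ℝ) * (max c₀ 1 * H ^ (ε / 2)) := by
      rw [← nsmul_eq_mul]
      exact Finset.sum_le_card_nsmul _ _ _ (fun K _ => hT1 K)
    have h3 : Y ^ A₂ ≤ H ^ (ε / 2) := by
      rw [hY, ← Real.rpow_natCast, ← Real.rpow_mul hH0.le]
      refine Real.rpow_le_rpow_of_exponent_le hH ?_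
      rw [div_mul_eq_mul_div, div_le_iff₀ hκ0]
      rw [div_le_iff₀ hε] at hκ1
      nlinarith
    have h4 : H ^ (ε / 2) * H ^ (ε / 2) = H ^ ε := by
      rw [← Real.rpow_add hH0]
      congr 1
      ring
    calc (∑ K ∈ 𝒦, ((T K).card : ℝ))
        ≤ (𝒦.card : ℝ) * (max c₀ 1 * H ^ (ε / 2)) := h1
      _ ≤ (C₂ * H ^ (ε / 2)) * (max c₀ 1 * H ^ (ε / 2)) := by
          refine mul_le_mul_of_nonneg_right (h𝒦1.trans ?_) (mul_nonneg hm0 hHe)
          exact mul_le_mul_of_nonneg_left h3 (by linarith)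
      _ = C₂ * max c₀ 1 * (H ^ (ε / 2) * H ^ (ε / 2)) := by ring
      _ = C₂ * max c₀ 1 * H ^ ε := by rw [h4]
      _ ≤ c * H ^ ε := mul_le_mul_of_nonneg_right hc3 (Real.rpow_pos_of_pos hH0 _).le
  · intro K _ hd f hf hF
    have hv := EAll_vio hκ0 hc2 hH (hh K H hH f (mem_famE hf)) hF
    rw [← hY] at hv
    exact ⟨h𝒦2 K hd ((EAll_one f).2.trans hv), hT2 K hd f hf (EAll_mono hκ2 hc1 hF)⟩

end FreyCyc
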