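import Pool.Agent.Lib.MP_6babc4_nt.Cy3.ECnd

/-!
# Module EBase: the splitting field with the `N`-th roots of unity

PROOF. `spl_disc` (Cyc/KSpl, with `q = 1`) and `cond_one_le` (ECnd) for `L = Spl (tot N f)`; then `kspl_cyc` of
Cyc/KSpl (private: copy) for `q = N`, `[E : ℚ] ≤ N [L : ℚ]`,
`|discr E| ≤ (|discr L| N^(2 [L : ℚ]))^N`; constants as in `root_field` of Cyc/KSpl.
-/

set_option autoImplicit false

open Polynomial NumberField IsDedekindDomain Module

namespace FreyCyc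

open FreySparse

private lemma ebase_cyc (L : Type) [Field L] [NumberField L] (q : ℕ) (hq : 0 < q) :
    ∃ (E : Type) (_ : Field E) (_ : NumberField E) (_ : Algebra L E) (ζ : E),
      IsPrimitiveRoot ζ q ∧ finrank L E ≤ q ∧
      |(discr E : ℝ)| ≤ (|(discr L : ℝ)| * ((q : ℝ) * q) ^ finrank ℚ L) ^ q := by
  have : NeZero q := ⟨hq.ne'⟩
  obtain ⟨ζ, hζ⟩ := (CyclotomicField.isCyclotomicExtension q L).exists_isPrimitiveRoot rfl hq.ne'
  have hgal : IsGalois L (CyclotomicField q L) :=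
    IsCyclotomicExtension.isGalois {q} L (CyclotomicField q L)
  have htop : IntermediateField.adjoin L {ζ} = ⊤ := by
    have h1 := IsCyclotomicExtension.adjoin_primitive_root_eq_top (A := L) hζ
    rw [← IntermediateField.toSubalgebra_injective.eq_iff, IntermediateField.top_toSubalgebra,
      eq_top_iff, ← h1]
    exact IntermediateField.algebra_adjoin_le_adjoin L {ζ}
  have hfin : finrank L (CyclotomicField q L) ≤ q := by
    have h1 : finrank L (IntermediateField.adjoin L {ζ}) ≤ q := by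
      rw [IntermediateField.adjoin.finrank (hζ.isIntegral hq).tower_top]
      have h2 : (X ^ q - 1 : L[X]) ≠ 0 := X_pow_sub_C_ne_zero hq 1
      have h3 : minpoly L ζ ∣ X ^ q - 1 := minpoly.dvd L ζ (by
        rw [map_sub, map_pow, aeval_X, map_one, hζ.pow_eq_one, sub_self])
      refine (natDegree_le_of_dvd h3 h2).trans ?_
      exact (natDegree_X_pow_sub_C (n := q) (r := (1 : L))).le
    rw [htop, IntermediateField.finrank_top'] at h1
    exact h1
  refine ⟨CyclotomicField q L, inferInstance, inferInstance, inferInstance, ζ, hζ, hfin, ?_⟩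
  refine discr_galois hq.ne' hfin fun P P' hPP' => ?_
  by_contra hP
  refine kummer_unram hq htop one_ne_zero (by rw [hζ.pow_eq_one, map_one]) P hP ?_ P' hPP'
  rw [ord_one]
  exact dvd_zero _

theorem baseE (d n N : ℕ) (hN : N ≠ 0) : ∃ A : ℕ, 1 ≤ A ∧
    ∀ (K : Type) [Field K] [NumberField K], finrank ℚ K = d → ∀ f : ℕ → (𝓞 K)[X],
      (tot N f).natDegree = n → ((tot N f).map (algebraMap (𝓞 K) K)).Separable →
        ∃ (E : Type) (_ : Field E) (_ : NumberField E) (_ : Algebra (Spl (tot N f)) E) (ζ : E),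
          IsPrimitiveRoot ζ N ∧ finrank ℚ E ≤ A ∧
          |(discr E : ℝ)| ≤ (A * (|(discr K : ℝ)| * condE N f)) ^ A := by
  obtain ⟨A₀, hA₀, hspl⟩ := spl_disc d n N 1 hN
  have hN1 : 1 ≤ N := Nat.one_le_iff_ne_zero.mpr hN
  refine ⟨A₀ * (N * N) + 2 * A₀ * N, ?_, ?_⟩
  · have h1 : 1 ≤ A₀ * (N * N) := Nat.mul_pos hA₀ (Nat.mul_pos hN1 hN1)
    omega
  intro K _ _ hK f hn hf
  obtain ⟨hL, hLd⟩ := hspl K hK f hn hf
  obtain ⟨E, iF, iN, iA, ζ, hζ, hfin, hdisc⟩ := ebase_cyc (Spl (tot N f)) N hN1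
  refine ⟨E, iF, iN, iA, ζ, hζ, ?_, ?_⟩
  · rw [← finrank_mul_finrank ℚ (Spl (tot N f)) E]
    calc finrank ℚ (Spl (tot N f)) * finrank (Spl (tot N f)) E ≤ A₀ * N :=
          Nat.mul_le_mul hL hfin
      _ ≤ A₀ * (N * N) + 2 * A₀ * N := by nlinarith
  · have hD : (1 : ℝ) ≤ |(discr K : ℝ)| := by
      have h : (1 : ℤ) ≤ |discr K| := Int.one_le_abs (discr_ne_zero K)
      exact_mod_cast h
    have hc : (1 : ℝ) ≤ (condE N f : ℝ) := by exact_mod_cast condE_pos N f
    have hcc : (cond N 1 f : ℝ) ≤ (condE N f : ℝ) := by exact_mod_cast cond_one_le N hf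
    have hN' : (1 : ℝ) ≤ N := by exact_mod_cast hN1
    have hA' : (1 : ℝ) ≤ A₀ := by exact_mod_cast hA₀
    set D : ℝ := |(discr K : ℝ)| with hDdef
    set c : ℝ := (condE N f : ℝ) with hcdef
    have hNN : (1 : ℝ) ≤ N * N := one_le_mul_of_one_le_of_one_le hN' hN'
    have hDc : 1 ≤ D * c := one_le_mul_of_one_le_of_one_le hD hc
    set Y : ℝ := A₀ * (N * N) * (D * c) with hY
    have hY1 : 1 ≤ Y := one_le_mul_of_one_le_of_one_le
      (one_le_mul_of_one_le_of_one_le hA' hNN) hDc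
    have hYL : (A₀ : ℝ) * (D * (cond N 1 f : ℝ)) ≤ Y := by
      calc (A₀ : ℝ) * (D * (cond N 1 f : ℝ)) ≤ A₀ * (D * c) :=
            mul_le_mul_of_nonneg_left (mul_le_mul_of_nonneg_left hcc (by positivity))
              (by positivity)
        _ = (A₀ * (D * c)) * 1 := by ring
        _ ≤ (A₀ * (D * c)) * (N * N) := mul_le_mul_of_nonneg_left hNN (by positivity)
        _ = Y := by rw [hY]; ring
    have hYN : (N : ℝ) * N ≤ Y := by
      calc (N : ℝ) * N = (N * N) * 1 := by ring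
        _ ≤ (N * N) * (A₀ * (D * c)) := mul_le_mul_of_nonneg_left
            (one_le_mul_of_one_le_of_one_le hA' hDc) (by positivity)
        _ = Y := by rw [hY]; ring
    have h1 : |(discr (Spl (tot N f)) : ℝ)| ≤ Y ^ A₀ :=
      hLd.trans (pow_le_pow_left₀ (by positivity) hYL _)
    have h2 : ((N : ℝ) * N) ^ finrank ℚ (Spl (tot N f)) ≤ Y ^ A₀ := by
      calc ((N : ℝ) * N) ^ finrank ℚ (Spl (tot N f)) ≤ Y ^ finrank ℚ (Spl (tot N f)) :=
            pow_le_pow_left₀ (by positivity) hYN _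
        _ ≤ Y ^ A₀ := pow_le_pow_right₀ hY1 hL
    have h3 : |(discr E : ℝ)| ≤ Y ^ (2 * A₀ * N) := by
      refine hdisc.trans ?_
      rw [pow_mul]
      refine pow_le_pow_left₀ (by positivity) ?_ _
      rw [two_mul, pow_add]
      exact mul_le_mul h1 h2 (by positivity) (by positivity)
    refine h3.trans ?_
    have h4 : Y ≤ ((A₀ * (N * N) + 2 * A₀ * N : ℕ) : ℝ) * (D * c) := by
      rw [hY]
      refine mul_le_mul_of_nonneg_right ?_ (by positivity)
      have : A₀ * (N * N) ≤ A₀ * (N * N) + 2 * A₀ * N := by omega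
      exact_mod_cast this
    calc Y ^ (2 * A₀ * N) ≤ Y ^ (A₀ * (N * N) + 2 * A₀ * N) :=
          pow_le_pow_right₀ hY1 (by omega)
      _ ≤ _ := pow_le_pow_left₀ (by positivity) h4 _

end FreyCyc
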