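import Pool.Agent.Lib.MP_6babc4_nt.Cyc.KDef

/-!
# All cyclic covers of the projective line of degree `N ≥ 3`: definitions

From `Cyc/Defs.lean` and `Cyc/KDef.lean`: the curves `y ^ N = ∏ (f i)(x)^i`, their height, the branch points
`bp` with the weights `wt`, the cross ratio `cr`, the isomorphisms `IsoK` over `K`, the number `gauss`.
Here: no condition on the weights, only that the curve is geometrically irreducible, and the exact
condition on the reduction.
-/

set_option autoImplicit false

open Polynomial NumberField IsDedekindDomain Module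

namespace FreyCyc

open FreySparse

/-- `S` and `B \ S` are the two sides of a split of thickness `t > 0` of the set `B` of points of the
projective line at the prime `P`: the order at `P` of the cross ratio `cr a b c d` of any `a ≠ b` in
`S` and `c ≠ d` in `B \ S` is at least `t`, and it is `t` for some of them. (In other words: the edges of
thickness `t` of the stable tree of `B` at `P`.) -/
def Split {F : Type*} [Field F] [NumberField F] (P : HeightOneSpectrum (𝓞 F))
    (B S : Set (OnePoint F)) (t : ℤ) : Prop :=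
  S ⊆ B ∧ 0 < t ∧
    (∀ a ∈ S, ∀ b ∈ S, ∀ c ∈ B \ S, ∀ d ∈ B \ S, a ≠ b → c ≠ d → t ≤ ord P (cr a b c d)) ∧
    ∃ a ∈ S, ∃ b ∈ S, ∃ c ∈ B \ S, ∃ d ∈ B \ S, a ≠ b ∧ c ≠ d ∧ ord P (cr a b c d) = t

/-- The condition on the split: if `s` is the sum of the weights of `S` then the order of `s` in the
integers modulo `N` divides the thickness `t`, and the weights on one of the two sides are
multiples of `s` modulo `N`. -/
def Fits {α : Type*} (N : ℕ) (w : α → ℕ) (B S : Set α) (t : ℤ) : Prop :=
  ((N / N.gcd (∑ᶠ z ∈ S, w z) : ℕ) : ℤ) ∣ t ∧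
    ((∀ z ∈ S, N.gcd (∑ᶠ z ∈ S, w z) ∣ w z) ∨ ∀ z ∈ B \ S, N.gcd (∑ᶠ z ∈ S, w z) ∣ w z)

variable {K : Type*} [Field K] [NumberField K]

/-- The bad primes: not above `N`, and ramified in the splitting field, or such that for some prime
above it some split does not fit, or `gauss` is not divisible by `N` for some three roots. -/
def BadE (N : ℕ) (f : ℕ → (𝓞 K)[X]) (v : HeightOneSpectrum (𝓞 K)) : Prop :=
  (N : 𝓞 K) ∉ v.asIdeal ∧
    (Ramified (tot N f) v ∨ ∃ P : HeightOneSpectrum (𝓞 (Spl (tot N f))), Above v P ∧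
      ((∃ (S : Set (OnePoint (Spl (tot N f)))) (t : ℤ),
        Split P (bp N f) S t ∧ ¬ Fits N (wt N f) (bp N f) S t) ∨
      ∃ a ∈ rts (tot N f), ∃ b ∈ rts (tot N f), ∃ c ∈ rts (tot N f),
        a ≠ b ∧ a ≠ c ∧ b ≠ c ∧ ¬ (N : ℤ) ∣ gauss N f P a b c))

/-- The product of the norms of the bad primes. -/
noncomputable def condE (N : ℕ) (f : ℕ → (𝓞 K)[X]) : ℕ :=
  ∏ᶠ (v : HeightOneSpectrum (𝓞 K)) (_ : BadE N f v), Ideal.absNorm v.asIdeal

/-- Frey's inequality for `f` with the constants `κ` and `c`. -/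
def FreyE (N : ℕ) (κ c : ℝ) (f : ℕ → (𝓞 K)[X]) : Prop :=
  height N f ≤ κ * Real.log (|(NumberField.discr K : ℝ)| * condE N f) + c

/-- The families `f 1, ..., f (N - 1)` with coefficients in `Box K H` whose product has degree `n`
and no multiple root, such that no integer `m > 1` divides `N` and all the `i` for which `f i` is not
constant (the curve is geometrically irreducible). -/
def FamE (K : Type*) [Field K] [NumberField K] (N n : ℕ) (H : ℝ) : Set (ℕ → (𝓞 K)[X]) :=
  {f | (∀ i ∈ Finset.Ico 1 N, ∀ k, (f i).coeff k ∈ FreyAvg.Box K H) ∧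
    (tot N f).natDegree = n ∧ ((tot N f).map (algebraMap (𝓞 K) K)).Separable ∧
    ∀ m : ℕ, m ∣ N → (∀ i ∈ Finset.Ico 1 N, (f i).natDegree ≠ 0 → m ∣ i) → m = 1}

end FreyCyc
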