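import Pool.Agent.Lib.MP_6babc4_nt.Cy3.EWgtA
import Pool.Agent.Lib.MP_6babc4_nt.Cy3.EDef
import Pool.Agent.Lib.MP_6babc4_nt.Cyc.KNum
import Pool.Agent.Lib.MP_6babc4_nt.Cyc.KSpl

/-!
# Module ECnd: the conductor; the branch points are a system of weights

PROOFS. `badE_finite`, `condE_pos`, `condE_mem`: as `badT_finite`, `condT_pos`, `condT_mem` in Cyc/KCnd (copy
the private lemmas): if all the cross ratios of branch points and the numbers `tw` have order `0` at `P`
then there is no split at `P` (the last part of `Split` gives a cross ratio of order `t > 0`) and `gauss`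
is `0`; there are finitely many cross ratios and the set of the `P` with `ord P x ≠ 0` is finite.
`cond_one_le`: `Bad N 1 f v → BadE N f v` (`1` divides everything, so `Bad N 1 f v` says `N ∉ v` and `v`
ramified), then as `cond_le` in KCnd. `mem_famE`: `Fam` with `q = 1`.
`wsys`: the numbering `numbering` of Cyc/KNum (`hn`): `z '' Iio m = bp N f` with `z` injective on `Iio m`,
`w j = wt N f (z j)`, `1 ≤ w j < N`, `N ∣ ∑ w j`: the finsum over `bp` is the sum over `j < m`
(`finsum_mem_image`, `finsum_mem_...`). Irreducible: if `m' ∣ N` divides all the weights, then for `i` with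
`f i` not constant there is a root `x` of `f i` in the splitting field (it splits, degree `≥ 1`; the leading
coefficient stays nonzero in `K`), `x ∈ rts (tot N f)` and `wt N f x = i` (separable: `f i'` with `i' ≠ i` does not
vanish at `x`; in `wt` the sum over `i` reduces to one term), so `m' ∣ i`; so `m' = 1` by the last condition
of `FamE`. `three_le`: `bp` has at least `n ≥ 3` elements (`numbering`, `n ≤ m`).
-/

set_option autoImplicit false

open Polynomial NumberField IsDedekindDomain Module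

namespace FreyCyc

open FreySparse

variable {K : Type} [Field K] [NumberField K]

private lemma ecnd_ord {L : Type} [Field L] [NumberField L] (x : L) :
    {P : HeightOneSpectrum (𝓞 L) | ord P x ≠ 0}.Finite := by
  by_cases hx : x = 0
  · refine Set.finite_empty.subset fun P hP => ?_
    apply hP
    rw [hx]
    unfold ord
    rw [map_zero, WithZero.log_zero, neg_zero]
  obtain ⟨r, s, hs, rfl⟩ := IsFractionRing.div_surjective (A := 𝓞 L) x
  have hs0 : s ≠ 0 := nonZeroDivisors.ne_zero hs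
  have hinj : Function.Injective (algebraMap (𝓞 L) L) := FaithfulSMul.algebraMap_injective _ _
  have hs' : algebraMap (𝓞 L) L s ≠ 0 := (map_ne_zero_iff _ hinj).mpr hs0
  have hr' : algebraMap (𝓞 L) L r ≠ 0 := fun h => hx (by rw [h, zero_div])
  have hr0 : r ≠ 0 := (map_ne_zero_iff _ hinj).mp hr'
  have h0 : Ideal.span {r * s} ≠ (0 : Ideal (𝓞 L)) := by
    rw [Ne, Ideal.zero_eq_bot, Ideal.span_singleton_eq_bot]
    exact mul_ne_zero hr0 hs0
  refine (Ideal.finite_factors h0).subset fun P hP => ?_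
  rw [Set.mem_ofPred_eq] at hP ⊢
  rw [Ideal.dvd_span_singleton]
  by_contra hn
  have hr1 : r ∉ P.asIdeal := fun h => hn (P.asIdeal.mul_mem_right s h)
  have hs1 : s ∉ P.asIdeal := fun h => hn (P.asIdeal.mul_mem_left r h)
  apply hP
  have h1 : ord P (algebraMap (𝓞 L) L r) = 0 := by
    have h2 := ord_nonneg P r
    have h3 := (ord_pos_iff P hr0).not.mpr hr1
    omega
  have h2 : ord P (algebraMap (𝓞 L) L s) = 0 := by
    have h2 := ord_nonneg P s
    have h3 := (ord_pos_iff P hs0).not.mpr hs1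
    omega
  have h3 := ord_mul P (x := algebraMap (𝓞 L) L r / algebraMap (𝓞 L) L s) (div_ne_zero hr' hs') hs'
  rw [div_mul_cancel₀ _ hs', h1, h2] at h3
  omega

private lemma ecnd_above {L : Type} [Field L] [NumberField L] [Algebra K L]
    {S : Set (HeightOneSpectrum (𝓞 K))} {T : Set (HeightOneSpectrum (𝓞 L))} (hT : T.Finite)
    (h : ∀ v ∈ S, ∃ P ∈ T, Above v P) : S.Finite := by
  classical
  choose b hb using fun P : HeightOneSpectrum (𝓞 L) => exists_below (K := K) P
  refine (hT.image b).subset fun v hv => ?_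
  obtain ⟨P, hP, hvP⟩ := h v hv
  exact ⟨P, hP, (below_unique hvP (hb P)).symm⟩

private lemma ecnd_bp (N : ℕ) {f : ℕ → (𝓞 K)[X]}
    (hf : ((tot N f).map (algebraMap (𝓞 K) K)).Separable) : (bp N f).Finite := by
  have h0 : tot N f ≠ 0 := by
    intro h
    rw [h, Polynomial.map_zero] at hf
    exact not_separable_zero hf
  refine (((rts_finite (tot N f) h0).image
    (fun x : Spl (tot N f) => (x : OnePoint (Spl (tot N f))))).union
    (Set.finite_singleton OnePoint.infty)).subset fun z hz => ?_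
  rcases hz with ⟨x, hx, rfl⟩ | ⟨rfl, -⟩
  · exact Or.inl ⟨x, hx, rfl⟩
  · exact Or.inr rfl

theorem badE_finite (N : ℕ) {f : ℕ → (𝓞 K)[X]}
    (hf : ((tot N f).map (algebraMap (𝓞 K) K)).Separable) :
    {v : HeightOneSpectrum (𝓞 K) | BadE N f v}.Finite := by
  have hbp := ecnd_bp N hf
  have hfin : (⋃ a ∈ bp N f, ⋃ b ∈ bp N f, ⋃ c ∈ bp N f, ⋃ d ∈ bp N f,
      {P : HeightOneSpectrum (𝓞 (Spl (tot N f))) | ord P (cr a b c d) ≠ 0}).Finite :=
    hbp.biUnion fun a _ => hbp.biUnion fun b _ => hbp.biUnion fun c _ =>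
      hbp.biUnion fun d _ => ecnd_ord _
  have h2 : {v : HeightOneSpectrum (𝓞 K) | ∃ P : HeightOneSpectrum (𝓞 (Spl (tot N f))),
      Above v P ∧ ∃ (S : Set (OnePoint (Spl (tot N f)))) (t : ℤ),
        Split P (bp N f) S t}.Finite := by
    refine ecnd_above hfin fun v hv => ?_
    obtain ⟨P, hP, S, t, hSB, ht, -, a, ha, b, hb, c, hc, d, hd, -, -, ho⟩ := hv
    refine ⟨P, ?_, hP⟩
    simp only [Set.mem_iUnion]
    refine ⟨a, hSB ha, b, hSB hb, c, hc.1, d, hd.1, ?_⟩
    show ord P (cr a b c d) ≠ 0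
    rw [ho]
    exact ht.ne'
  refine ((badT_finite N 1 hf).union h2).subset fun v hv => ?_
  obtain ⟨hN, hr | ⟨P, hP, ⟨S, t, hs, -⟩ | hg⟩⟩ := hv
  · exact Or.inl (Or.inl ⟨hN, Or.inl hr⟩)
  · exact Or.inr ⟨P, hP, S, t, hs⟩
  · exact Or.inl (Or.inr ⟨hN, P, hP, hg⟩)

private lemma ecnd_norm_pos (v : HeightOneSpectrum (𝓞 K)) : 1 ≤ Ideal.absNorm v.asIdeal := by
  rw [Nat.one_le_iff_ne_zero, Ne, Ideal.absNorm_eq_zero_iff]
  exact v.ne_bot

theorem condE_pos (N : ℕ) (f : ℕ → (𝓞 K)[X]) : 1 ≤ condE N f := by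
  refine finprod_induction (fun n : ℕ => 1 ≤ n) le_rfl
    (fun a b ha hb => Nat.one_le_iff_ne_zero.mpr (Nat.mul_ne_zero (by omega) (by omega)))
    fun v => finprod_induction (fun n : ℕ => 1 ≤ n) le_rfl
    (fun a b ha hb => Nat.one_le_iff_ne_zero.mpr (Nat.mul_ne_zero (by omega) (by omega)))
    fun _ => ecnd_norm_pos v

theorem condE_mem (N : ℕ) {f : ℕ → (𝓞 K)[X]}
    (hf : ((tot N f).map (algebraMap (𝓞 K) K)).Separable) {v : HeightOneSpectrum (𝓞 K)}
    (hv : BadE N f v) : (condE N f : 𝓞 K) ∈ v.asIdeal := by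
  have h1 : condE N f = ∏ v ∈ (badE_finite N hf).toFinset, Ideal.absNorm v.asIdeal :=
    finprod_mem_eq_finite_toFinset_prod (fun v : HeightOneSpectrum (𝓞 K) =>
      Ideal.absNorm v.asIdeal) (badE_finite N hf)
  have h2 : Ideal.absNorm v.asIdeal ∣ condE N f := by
    rw [h1]
    exact Finset.dvd_prod_of_mem (fun v : HeightOneSpectrum (𝓞 K) => Ideal.absNorm v.asIdeal)
      ((badE_finite N hf).mem_toFinset.mpr hv)
  obtain ⟨t, ht⟩ := h2
  rw [ht, Nat.cast_mul]
  exact v.asIdeal.mul_mem_right _ (Ideal.absNorm_mem v.asIdeal)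

theorem cond_one_le (N : ℕ) {f : ℕ → (𝓞 K)[X]}
    (hf : ((tot N f).map (algebraMap (𝓞 K) K)).Separable) : cond N 1 f ≤ condE N f := by
  have h1 : condE N f = ∏ v ∈ (badE_finite N hf).toFinset, Ideal.absNorm v.asIdeal :=
    finprod_mem_eq_finite_toFinset_prod (fun v : HeightOneSpectrum (𝓞 K) =>
      Ideal.absNorm v.asIdeal) (badE_finite N hf)
  have h2 : cond N 1 f = ∏ v ∈ (bad_finite N 1 hf).toFinset, Ideal.absNorm v.asIdeal :=
    finprod_mem_eq_finite_toFinset_prod (fun v : HeightOneSpectrum (𝓞 K) =>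
      Ideal.absNorm v.asIdeal) (bad_finite N 1 hf)
  rw [h1, h2]
  refine Finset.prod_le_prod_of_subset_of_one_le' ?_ fun v _ _ => ecnd_norm_pos v
  intro v hv
  rw [Set.Finite.mem_toFinset] at hv ⊢
  obtain ⟨hN, hr | ⟨P, hP, a, ha, b, hb, c, hc, d, hd, -, -, -, -, -, -, ho⟩⟩ := hv
  · exact ⟨hN, Or.inl hr⟩
  · exact absurd (by rw [Nat.cast_one]; exact one_dvd _) ho

theorem mem_famE {N n : ℕ} {H : ℝ} {f : ℕ → (𝓞 K)[X]} (hf : f ∈ FamE K N n H) :
    f ∈ Fam K N 1 n H :=
  ⟨hf.1, fun _ _ _ => one_dvd _, hf.2.1, hf.2.2.1⟩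

theorem wsys {N n : ℕ} (hn : 3 ≤ n) {H : ℝ} {f : ℕ → (𝓞 K)[X]} (hf : f ∈ FamE K N n H) :
    WSys N (bp N f) (wt N f) := by
  classical
  obtain ⟨hbox, hd, hsep, hirr⟩ := hf
  obtain ⟨m, w, z, hnm, hm1, hinj, hw, hz, hwz, hsum, -, -⟩ := numbering hn hd hsep
  refine ⟨ecnd_bp N hsep, ?_, ?_, ?_⟩
  · intro p hp
    rw [← hz] at hp
    obtain ⟨j, hj, rfl⟩ := hp
    rw [← hwz j hj]
    exact hw j hj
  · have h1 : ∑ᶠ p ∈ bp N f, wt N f p = ∑ j ∈ Finset.range m, w j := by
      rw [← hz, finsum_mem_image hinj, ← Finset.coe_range, finsum_mem_coe_finset]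
      exact Finset.sum_congr rfl fun j hj => (hwz j (Finset.mem_range.mp hj)).symm
    rw [h1]
    exact hsum
  · intro k hk hdiv
    refine hirr k hk fun i hi hdeg => ?_
    obtain ⟨R, hRc, hRm, hRi, hex, huniq⟩ := knum_roots hd hsep
    obtain ⟨-, Ri, hRiR, -, hcard, hmem⟩ := hRi i hi
    have hne : Ri.Nonempty := by
      rw [← Finset.card_pos, hcard]
      omega
    obtain ⟨x, hx⟩ := hne
    have hx0 := (hmem x).mp hx
    have hxr : x ∈ rts (tot N f) := (hRm x).mp (hRiR hx)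
    have h1 : wt N f (x : OnePoint (Spl (tot N f))) = i := by
      show (∑ k ∈ Finset.Ico 1 N, _) = i
      rw [Finset.sum_eq_single i]
      · exact if_pos hx0
      · intro k hk hki
        exact if_neg fun h => hki (huniq x k hk i hi h hx0)
      · intro h
        exact absurd hi h
    have h2 := hdiv (x : OnePoint (Spl (tot N f))) (Or.inl ⟨x, hxr, rfl⟩)
    rwa [h1] at h2

theorem three_le {N n : ℕ} (hn : 3 ≤ n) {H : ℝ} {f : ℕ → (𝓞 K)[X]} (hf : f ∈ FamE K N n H) :
    3 ≤ (bp N f).ncard := by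
  obtain ⟨m, w, z, hnm, hm1, hinj, hw, hz, hwz, hsum, -, -⟩ := numbering hn hf.2.1 hf.2.2.1
  rw [← hz, Set.ncard_image_of_injOn hinj, ← Finset.coe_range, Set.ncard_coe_finset,
    Finset.card_range]
  omega

end FreyCyc
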