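import Pool.Agent.Lib.MP_6babc4_nt.Cyc.Base

/-!
# Module EInv: all the cross ratios from those with three fixed points

PROOF. `vec (crd a b c z) = μ • (dt a b * dt c z, dt a c * dt b z)` with `μ ≠ 0` (`μ = (dt a c * dt b z)⁻¹` for
`z ≠ b`, `μ = (dt a b * dt c b)⁻¹` for `z = b`; `dt_ne`). So `dt (crd x) (crd y) = μ_x μ_y dt a b dt a c
(dt c x * dt b y - dt b x * dt c y)` and the bracket is `dt c b * dt x y` (`unfold dt; ring`). In `cr` all the factors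
`μ` and `dt a b * dt a c * dt c b ≠ 0` cancel (if `dt x z = 0` or `dt y u = 0` both sides are `0`:
`x / 0 = 0`).
-/

set_option autoImplicit false

namespace FreyCyc

open Classical in
/-- The point `z` in the coordinate with the values `1, ∞, 0` at `a, b, c`, mapped to `ℂ` by `τ`. -/
noncomputable def crC {F : Type} [Field F] (τ : F →+* ℂ) (a b c z : OnePoint F) : OnePoint ℂ :=
  if z = b then OnePoint.infty else ((τ (cr a b c z) : ℂ) : OnePoint ℂ)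

/-- the coordinates of `crC` up to a factor -/
private theorem einv_vec {F : Type} [Field F] (τ : F →+* ℂ) {a b c : OnePoint F} (hab : a ≠ b)
    (hac : a ≠ c) (hbc : b ≠ c) (z : OnePoint F) :
    ∃ μ : ℂ, μ ≠ 0 ∧ (vec (crC τ a b c z)).1 = μ * τ (dt a b * dt c z) ∧
      (vec (crC τ a b c z)).2 = μ * τ (dt a c * dt b z) := by
  by_cases hz : z = b
  · subst hz
    have h1 : dt a z * dt c z ≠ 0 := mul_ne_zero (dt_ne hab) (dt_ne (Ne.symm hbc))
    have h2 : dt z z = 0 := by unfold dt; ring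
    refine ⟨(τ (dt a z * dt c z))⁻¹, inv_ne_zero ((map_ne_zero τ).mpr h1), ?_, ?_⟩
    · rw [inv_mul_cancel₀ ((map_ne_zero τ).mpr h1), crC, if_pos rfl]
      rfl
    · rw [h2, mul_zero, map_zero, mul_zero, crC, if_pos rfl]
      rfl
  · have h1 : dt a c * dt b z ≠ 0 := mul_ne_zero (dt_ne hac) (dt_ne (Ne.symm hz))
    refine ⟨(τ (dt a c * dt b z))⁻¹, inv_ne_zero ((map_ne_zero τ).mpr h1), ?_, ?_⟩
    · rw [crC, if_neg hz]
      change τ (cr a b c z) = _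
      rw [cr, map_div₀, div_eq_inv_mul]
    · rw [inv_mul_cancel₀ ((map_ne_zero τ).mpr h1), crC, if_neg hz]
      rfl

private theorem einv_dt {F : Type} [Field F] (τ : F →+* ℂ) {a b c : OnePoint F} {x y : OnePoint F}
    {μ ν : ℂ} (hx1 : (vec (crC τ a b c x)).1 = μ * τ (dt a b * dt c x))
    (hx2 : (vec (crC τ a b c x)).2 = μ * τ (dt a c * dt b x))
    (hy1 : (vec (crC τ a b c y)).1 = ν * τ (dt a b * dt c y))
    (hy2 : (vec (crC τ a b c y)).2 = ν * τ (dt a c * dt b y)) :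
    dt (crC τ a b c x) (crC τ a b c y) = μ * ν * τ (dt a b * dt a c * dt c b) * τ (dt x y) := by
  rw [dt, hx1, hx2, hy1, hy2]
  have h : dt a b * dt c x * (dt a c * dt b y) - dt a c * dt b x * (dt a b * dt c y) =
      dt a b * dt a c * dt c b * dt x y := by
    unfold dt; ring
  have h' := congrArg τ h
  rw [map_mul τ (dt a b * dt a c * dt c b) (dt x y), map_sub, map_mul τ (dt a b * dt c x), map_mul τ (dt a c * dt b x)]
    at h'
  rw [mul_assoc (μ * ν), ← h']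
  ring

theorem crC_eq {F : Type} [Field F] (τ : F →+* ℂ) {a b c : OnePoint F} (hab : a ≠ b)
    (hac : a ≠ c) (hbc : b ≠ c) (x y z u : OnePoint F) :
    cr (crC τ a b c x) (crC τ a b c y) (crC τ a b c z) (crC τ a b c u) = τ (cr x y z u) := by
  obtain ⟨μx, hx0, hx1, hx2⟩ := einv_vec τ hab hac hbc x
  obtain ⟨μy, hy0, hy1, hy2⟩ := einv_vec τ hab hac hbc y
  obtain ⟨μz, hz0, hz1, hz2⟩ := einv_vec τ hab hac hbc z
  obtain ⟨μu, hu0, hu1, hu2⟩ := einv_vec τ hab hac hbc u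
  have hk : τ (dt a b * dt a c * dt c b) ≠ 0 :=
    (map_ne_zero τ).mpr (mul_ne_zero (mul_ne_zero (dt_ne hab) (dt_ne hac)) (dt_ne (Ne.symm hbc)))
  rw [cr, einv_dt τ hx1 hx2 hy1 hy2, einv_dt τ hz1 hz2 hu1 hu2, einv_dt τ hx1 hx2 hz1 hz2,
    einv_dt τ hy1 hy2 hu1 hu2, cr, map_div₀, map_mul τ (dt x y), map_mul τ (dt x z)]
  have h1 : μx * μy * τ (dt a b * dt a c * dt c b) * τ (dt x y) *
      (μz * μu * τ (dt a b * dt a c * dt c b) * τ (dt z u)) =
      (μx * μy * μz * μu * τ (dt a b * dt a c * dt c b) ^ 2) * (τ (dt x y) * τ (dt z u)) := by ring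
  have h2 : μx * μz * τ (dt a b * dt a c * dt c b) * τ (dt x z) *
      (μy * μu * τ (dt a b * dt a c * dt c b) * τ (dt y u)) =
      (μx * μy * μz * μu * τ (dt a b * dt a c * dt c b) ^ 2) * (τ (dt x z) * τ (dt y u)) := by ring
  rw [h1, h2]
  exact mul_div_mul_left _ _ (mul_ne_zero (mul_ne_zero (mul_ne_zero (mul_ne_zero hx0 hy0) hz0) hu0)
    (pow_ne_zero 2 hk))

theorem cr_inv {F : Type} [Field F] (a b c d : OnePoint F) : (cr a c b d)⁻¹ = cr a b c d := by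
  unfold cr
  rw [inv_div]

theorem cr_inv' {F : Type} [Field F] {a b c d : OnePoint F} (hac : a ≠ c) (hbd : b ≠ d) :
    1 - (cr a c d b)⁻¹ = cr a b c d := by
  have h1 := dt_ne hac
  have h2 := dt_ne hbd
  have h3 : dt d b = -dt b d := by unfold dt; ring
  have h4 : dt a c * dt b d + dt a d * dt c b = dt a b * dt c d := by unfold dt; ring
  unfold cr
  rw [inv_div, h3, mul_neg, div_neg, sub_neg_eq_add, ← h4, add_div, div_self (mul_ne_zero h1 h2)]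

theorem crset_card {S : Set ℂ} (hS : S.Finite) :
    {z : ℂ | ∃ x y u v : OnePoint ℂ, z = cr x y u v ∧
      ∀ p ∈ ({x, y, u, v} : Set (OnePoint ℂ)), p = OnePoint.infty ∨ p = ((0 : ℂ) : OnePoint ℂ) ∨
        p = ((1 : ℂ) : OnePoint ℂ) ∨ ∃ s ∈ S, p = ((s⁻¹ : ℂ) : OnePoint ℂ) ∨
          p = ((1 - s⁻¹ : ℂ) : OnePoint ℂ)}.Finite ∧
    {z : ℂ | ∃ x y u v : OnePoint ℂ, z = cr x y u v ∧
      ∀ p ∈ ({x, y, u, v} : Set (OnePoint ℂ)), p = OnePoint.infty ∨ p = ((0 : ℂ) : OnePoint ℂ) ∨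
        p = ((1 : ℂ) : OnePoint ℂ) ∨ ∃ s ∈ S, p = ((s⁻¹ : ℂ) : OnePoint ℂ) ∨
          p = ((1 - s⁻¹ : ℂ) : OnePoint ℂ)}.ncard ≤ (2 * S.ncard + 3) ^ 4 := by
  classical
  set Q : Finset (OnePoint ℂ) := ({OnePoint.infty, ((0 : ℂ) : OnePoint ℂ), ((1 : ℂ) : OnePoint ℂ)} : Finset (OnePoint ℂ)) ∪
    (hS.toFinset.image (fun s => ((s⁻¹ : ℂ) : OnePoint ℂ)) ∪ hS.toFinset.image (fun s => ((1 - s⁻¹ : ℂ) : OnePoint ℂ)))
    with hQ
  have hcard : Q.card ≤ 2 * S.ncard + 3 := by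
    have e1 : ({OnePoint.infty, ((0 : ℂ) : OnePoint ℂ), ((1 : ℂ) : OnePoint ℂ)} : Finset (OnePoint ℂ)).card ≤ 3 :=
      Finset.card_le_three
    have e2 : (hS.toFinset.image (fun s => ((s⁻¹ : ℂ) : OnePoint ℂ))).card ≤ S.ncard := by
      refine Finset.card_image_le.trans (le_of_eq ?_)
      rw [Set.ncard_eq_toFinset_card S hS]
    have e3 : (hS.toFinset.image (fun s => ((1 - s⁻¹ : ℂ) : OnePoint ℂ))).card ≤ S.ncard := by
      refine Finset.card_image_le.trans (le_of_eq ?_)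
      rw [Set.ncard_eq_toFinset_card S hS]
    have e4 := Finset.card_union_le ({OnePoint.infty, ((0 : ℂ) : OnePoint ℂ), ((1 : ℂ) : OnePoint ℂ)} : Finset (OnePoint ℂ))
      (hS.toFinset.image (fun s => ((s⁻¹ : ℂ) : OnePoint ℂ)) ∪ hS.toFinset.image (fun s => ((1 - s⁻¹ : ℂ) : OnePoint ℂ)))
    have e5 := Finset.card_union_le (hS.toFinset.image (fun s => ((s⁻¹ : ℂ) : OnePoint ℂ)))
      (hS.toFinset.image (fun s => ((1 - s⁻¹ : ℂ) : OnePoint ℂ)))
    refine e4.trans ?_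
    omega
  have hmem : ∀ p : OnePoint ℂ, (p = OnePoint.infty ∨ p = ((0 : ℂ) : OnePoint ℂ) ∨
        p = ((1 : ℂ) : OnePoint ℂ) ∨ ∃ s ∈ S, p = ((s⁻¹ : ℂ) : OnePoint ℂ) ∨
          p = ((1 - s⁻¹ : ℂ) : OnePoint ℂ)) → p ∈ Q := by
    intro p hp
    rw [hQ, Finset.mem_union, Finset.mem_union, Finset.mem_image, Finset.mem_image]
    rcases hp with h | h | h | ⟨s, hs, h | h⟩
    · exact Or.inl (by rw [h]; simp)
    · exact Or.inl (by rw [h]; simp)
    · exact Or.inl (by rw [h]; simp)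
    · exact Or.inr (Or.inl ⟨s, (Set.Finite.mem_toFinset hS).mpr hs, h.symm⟩)
    · exact Or.inr (Or.inr ⟨s, (Set.Finite.mem_toFinset hS).mpr hs, h.symm⟩)
  set T : Finset ℂ := (Q ×ˢ (Q ×ˢ (Q ×ˢ Q))).image (fun t => cr t.1 t.2.1 t.2.2.1 t.2.2.2) with hT
  have hsub : {z : ℂ | ∃ x y u v : OnePoint ℂ, z = cr x y u v ∧
      ∀ p ∈ ({x, y, u, v} : Set (OnePoint ℂ)), p = OnePoint.infty ∨ p = ((0 : ℂ) : OnePoint ℂ) ∨
        p = ((1 : ℂ) : OnePoint ℂ) ∨ ∃ s ∈ S, p = ((s⁻¹ : ℂ) : OnePoint ℂ) ∨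
          p = ((1 - s⁻¹ : ℂ) : OnePoint ℂ)} ⊆ (T : Set ℂ) := by
    rintro z ⟨x, y, u, v, rfl, h⟩
    rw [Finset.mem_coe, hT, Finset.mem_image]
    refine ⟨(x, y, u, v), ?_, rfl⟩
    rw [Finset.mem_product, Finset.mem_product, Finset.mem_product]
    exact ⟨hmem x (h x (by simp)), hmem y (h y (by simp)), hmem u (h u (by simp)), hmem v (h v (by simp))⟩
  refine ⟨(Finset.finite_toSet T).subset hsub, ?_⟩
  refine (Set.ncard_le_ncard hsub (Finset.finite_toSet T)).trans ?_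
  rw [Set.ncard_coe_finset]
  refine Finset.card_image_le.trans ?_
  rw [Finset.card_product, Finset.card_product, Finset.card_product]
  calc Q.card * (Q.card * (Q.card * Q.card)) = Q.card ^ 4 := by ring
    _ ≤ (2 * S.ncard + 3) ^ 4 := Nat.pow_le_pow_left hcard 4

end FreyCyc
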