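import Pool.Agent.Lib.MP_6babc4_nt.Cy3.ECrA
import Pool.Agent.Lib.MP_6babc4_nt.Cy3.EInv
import Pool.Agent.Lib.MP_6babc4_nt.Cy3.EBase
import Pool.Agent.Lib.MP_6babc4_nt.Cyc.CrC

/-!
# Module ECr: the number of the cross ratios

`CRsetE K σ N n H Y`: as `CRset` in Cyc/CrC, for the `f ∈ FamE K N n H` with `|D_K| condE ≤ Y`.

PROOF (compare `cr_count` in Cyc/CrC). Let `A₀` be the constant of `baseE`, `C₁` that of `cr_quot` (Cyc/Crq, with
`q = 1`; `mem_famE`), `ε'' = ε / (8 N)`, `A, C` from `uset_count hN A₀ hε''`. Let `z = τ(cr x y u v)` with `f ∈ FamE`,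
`|D_K| condE ≤ Y`. `E ⊇ L = Spl (tot N f)`, `ζ` from `baseE`; `a, b, c` from `types`; `w = N condE` (`≤ N Y` because
`|D_K| ≥ 1`), `D = N Y (A₀ Y)^A₀`, `R = (C₁ H)^(2 N)`: `|discr E| ≤ (A₀ Y)^A₀ ≤ D`, `w ≤ D`. For `d ∈ bp`, `d ≠ a, b, c`, the
number `τ(cr a c b d)` or `τ(cr a c d b)` is in `USet N A₀ D R`: `ι : E → ℂ` extends `τ` (`CrC_ext`, private in CrC:
copy it), the numerator and denominator of `cr_quot` mapped to `E` (`CrC_int`: copy it). By `cr_inv`, `cr_inv'`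
the point `crC τ a b c d` is `s⁻¹` or `1 - s⁻¹` for an `s` in `USet`; `crC τ a b c a = 1`, `crC τ a b c b = ∞`,
`crC τ a b c c = 0` (`cr a b c a = 1`, `cr a b c c = 0`: `dt`). So `z` is in the set of `crset_card` (with `crC_eq`) and
the number is at most `(2 |USet| + 3)^4 ≤ (5 C D^A R^ε'')^4`, `R^(4 ε'') = (C₁ H)^ε`,
`D^(4A) = (N A₀^A₀)^(4A) Y^(4 A (A₀ + 1))`.
-/

set_option autoImplicit false

open Polynomial NumberField IsDedekindDomain Module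

namespace FreyCyc

open FreySparse

def CRsetE (K : Type) [Field K] [NumberField K] (σ : K →+* ℂ) (N n : ℕ) (H Y : ℝ) : Set ℂ :=
  {z | ∃ f ∈ FamE K N n H, |(discr K : ℝ)| * condE N f ≤ Y ∧
    ∃ τ : Spl (tot N f) →+* ℂ, (∀ x : K, τ (algebraMap K (Spl (tot N f)) x) = σ x) ∧
      ∃ a ∈ bp N f, ∃ b ∈ bp N f, ∃ c ∈ bp N f, ∃ e ∈ bp N f,
        a ≠ b ∧ a ≠ c ∧ a ≠ e ∧ b ≠ c ∧ b ≠ e ∧ c ≠ e ∧ z = τ (cr a b c e)}

private lemma ECr_ext {L F : Type} [Field L] [NumberField L] [Field F] [NumberField F]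
    (g : L →+* F) (τ : L →+* ℂ) : ∃ ι : F →+* ℂ, ∀ x, ι (g x) = τ x := by
  let _ : Algebra L F := g.toAlgebra
  let _ : Algebra L ℂ := τ.toAlgebra
  have hA : Algebra.IsAlgebraic L F := Algebra.IsAlgebraic.tower_top (K := ℚ) L
  let ι : F →ₐ[L] ℂ := IsAlgClosed.lift
  exact ⟨ι.toRingHom, fun x => ι.commutes x⟩

/-- The image of an integer in a larger field. -/
private lemma ECr_int {L E : Type} [Field L] [NumberField L] [Field E] [NumberField E]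
    (g : L →+* E) (ν : 𝓞 L) {R : ℝ} (hν : ∀ τ : L →+* ℂ, ‖τ ν‖ ≤ R) :
    ∃ ν' : 𝓞 E, (ν' : E) = g (ν : L) ∧ ∀ τ : E →+* ℂ, ‖τ ν'‖ ≤ R := by
  have hi : IsIntegral ℤ (g (ν : L)) := map_isIntegral_int g (RingOfIntegers.isIntegral_coe ν)
  obtain ⟨ν', h⟩ : ∃ ν' : 𝓞 E, (ν' : E) = g (ν : L) := ⟨⟨g (ν : L), hi⟩, rfl⟩
  refine ⟨ν', h, fun τ => ?_⟩
  rw [h]
  exact hν (τ.comp g)

private lemma ECr_discr (K : Type) [Field K] [NumberField K] : 1 ≤ |(discr K : ℝ)| := by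
  have h := Int.one_le_abs (discr_ne_zero K)
  exact_mod_cast h

/-- The quotient of two integers in a larger field. -/
private lemma ECr_quo {L E : Type} [Field L] [NumberField L] [Field E] [NumberField E]
    (g : L →+* E) {x : L} {R : ℝ} (h : ∃ ν δ : 𝓞 L, δ ≠ 0 ∧ x = (ν : L) / δ ∧
      (∀ τ : L →+* ℂ, ‖τ ν‖ ≤ R) ∧ ∀ τ : L →+* ℂ, ‖τ δ‖ ≤ R) :
    ∃ ν δ : 𝓞 E, δ ≠ 0 ∧ g x = (ν : E) / δ ∧ (∀ τ : E →+* ℂ, ‖τ ν‖ ≤ R) ∧
      ∀ τ : E →+* ℂ, ‖τ δ‖ ≤ R := by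
  obtain ⟨ν, δ, hδ0, hx, hν, hδ⟩ := h
  obtain ⟨ν', hν', hνb⟩ := ECr_int g ν hν
  obtain ⟨δ', hδ', hδb⟩ := ECr_int g δ hδ
  refine ⟨ν', δ', ?_, ?_, hνb, hδb⟩
  · rintro rfl
    have h1 : g (δ : L) = 0 := by
      rw [← hδ']
      exact map_zero _
    have h2 : (δ : L) = 0 := (map_eq_zero _).1 h1
    exact hδ0 (RingOfIntegers.coe_eq_zero_iff.1 h2)
  · rw [hx, map_div₀, hν', hδ']

private lemma ECr_dt_self {F : Type} [Field F] (a : OnePoint F) : dt a a = 0 := by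
  unfold dt
  ring

private lemma ECr_dt_neg {F : Type} [Field F] (a b : OnePoint F) : dt a b = - dt b a := by
  unfold dt
  ring

private lemma ECr_dt_ne {F : Type} [Field F] {a b : OnePoint F} (h : a ≠ b) : dt a b ≠ 0 := by
  induction a using OnePoint.rec with
  | infty =>
    induction b using OnePoint.rec with
    | infty => exact absurd rfl h
    | coe y => simp [dt, vec]
  | coe x =>
    induction b using OnePoint.rec with
    | infty => simp [dt, vec]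
    | coe y =>
      have hxy : x ≠ y := fun e => h (by rw [e])
      simpa [dt, vec, sub_eq_zero] using hxy

/-- The bound of the discriminants. -/
private noncomputable def ECr_D (N A₀ : ℕ) (Y : ℝ) : ℝ := (N * Y) * (A₀ * Y) ^ A₀

private lemma ECr_D_eq (N A₀ : ℕ) (Y : ℝ) :
    ECr_D N A₀ Y = (N * (A₀ : ℝ) ^ A₀) * Y ^ (A₀ + 1) := by
  unfold ECr_D
  rw [mul_pow, pow_succ]
  ring

/-- The points in the special coordinate. -/
private lemma ECr_pt {N A₀ : ℕ} (hN : 3 ≤ N) (hA₀ : 1 ≤ A₀) {C₁ : ℝ}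
    {K : Type} [Field K] [NumberField K] {H Y : ℝ} (hY : 1 ≤ Y)
    {f : ℕ → (𝓞 K)[X]} (hfY : |(discr K : ℝ)| * condE N f ≤ Y)
    {E : Type} [Field E] [NumberField E] [Algebra (Spl (tot N f)) E] {ζ : E}
    (hζ : IsPrimitiveRoot ζ N) (hME : finrank ℚ E ≤ A₀)
    (hDE : |(discr E : ℝ)| ≤ (A₀ * (|(discr K : ℝ)| * condE N f)) ^ A₀)
    {x : Spl (tot N f)}
    (hx : ∃ ν δ : 𝓞 (Spl (tot N f)), δ ≠ 0 ∧ x = (ν : Spl (tot N f)) / δ ∧
          (∀ τ : Spl (tot N f) →+* ℂ, ‖τ ν‖ ≤ (C₁ * H) ^ (2 * N)) ∧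
          ∀ τ : Spl (tot N f) →+* ℂ, ‖τ δ‖ ≤ (C₁ * H) ^ (2 * N))
    {e₀ e₁ e₂ : ℕ} (hT : Ty (N * condE N f) e₀ e₁ e₂ (algebraMap (Spl (tot N f)) E x))
    (ι : E →+* ℂ) :
    ι (algebraMap (Spl (tot N f)) E x) ∈
      TSet N A₀ (ECr_D N A₀ Y) ((C₁ * H) ^ (2 * N)) e₀ e₁ e₂ := by
  have h0 : (1 : ℝ) ≤ A₀ := by exact_mod_cast hA₀
  have h2 : (1 : ℝ) ≤ N := by exact_mod_cast (by omega : 1 ≤ N)
  have hcond : (condE N f : ℝ) ≤ Y := by
    refine le_trans ?_ hfY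
    exact le_mul_of_one_le_left (Nat.cast_nonneg _) (ECr_discr K)
  have h5 : 1 ≤ (A₀ * Y) ^ A₀ := one_le_pow₀ (one_le_mul_of_one_le_of_one_le h0 hY)
  have hNY : 1 ≤ (N : ℝ) * Y := one_le_mul_of_one_le_of_one_le h2 hY
  have hDE' : |(discr E : ℝ)| ≤ (A₀ * Y) ^ A₀ := by
    refine hDE.trans (pow_le_pow_left₀ (by positivity) ?_ _)
    exact mul_le_mul_of_nonneg_left hfY (by positivity)
  have hc1 : 1 ≤ condE N f := condE_pos N f
  refine ⟨E, inferInstance, inferInstance, ι, ζ, algebraMap (Spl (tot N f)) E x, N * condE N f,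
    hζ, hME, ?_, mul_ne_zero (by omega) (by omega), dvd_mul_right _ _, ?_, hT, rfl,
    ECr_quo (algebraMap (Spl (tot N f)) E) hx⟩
  · exact hDE'.trans (le_mul_of_one_le_left (by linarith) hNY)
  · unfold ECr_D
    have h6 : ((N * condE N f : ℕ) : ℝ) ≤ N * Y := by
      push_cast
      exact mul_le_mul_of_nonneg_left hcond (by linarith)
    exact h6.trans (le_mul_of_one_le_right (by linarith) h5)

/-- The cross ratios are functions of the special ones. -/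
private lemma ECr_sub {d n N A₀ : ℕ} (hN : 3 ≤ N) (hn : 3 ≤ n) (hA₀ : 1 ≤ A₀) {C₁ : ℝ}
    {K : Type} [Field K] [NumberField K] (hd : finrank ℚ K = d) {H Y : ℝ} (hY : 1 ≤ Y)
    (hbase : ∀ (K : Type) [Field K] [NumberField K], finrank ℚ K = d → ∀ f : ℕ → (𝓞 K)[X],
      (tot N f).natDegree = n → ((tot N f).map (algebraMap (𝓞 K) K)).Separable →
        ∃ (E : Type) (_ : Field E) (_ : NumberField E) (_ : Algebra (Spl (tot N f)) E) (ζ : E),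
          IsPrimitiveRoot ζ N ∧ finrank ℚ E ≤ A₀ ∧
          |(discr E : ℝ)| ≤ (A₀ * (|(discr K : ℝ)| * condE N f)) ^ A₀)
    (hcr : ∀ f ∈ Fam K N 1 n H,
      ∀ a ∈ bp N f, ∀ b ∈ bp N f, ∀ c ∈ bp N f, ∀ e ∈ bp N f, a ≠ b → a ≠ c → b ≠ e → c ≠ e →
        ∃ ν δ : 𝓞 (Spl (tot N f)), δ ≠ 0 ∧ cr a b c e = (ν : Spl (tot N f)) / δ ∧
          (∀ τ : Spl (tot N f) →+* ℂ, ‖τ ν‖ ≤ (C₁ * H) ^ (2 * N)) ∧
          ∀ τ : Spl (tot N f) →+* ℂ, ‖τ δ‖ ≤ (C₁ * H) ^ (2 * N)) (σ : K →+* ℂ) :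
    CRsetE K σ N n H Y ⊆ {z : ℂ | ∃ x y u v : OnePoint ℂ, z = cr x y u v ∧
      ∀ p ∈ ({x, y, u, v} : Set (OnePoint ℂ)), p = OnePoint.infty ∨ p = ((0 : ℂ) : OnePoint ℂ) ∨
        p = ((1 : ℂ) : OnePoint ℂ) ∨
          ∃ s ∈ USet N A₀ (ECr_D N A₀ Y) ((C₁ * H) ^ (2 * N)), p = ((s⁻¹ : ℂ) : OnePoint ℂ) ∨
          p = ((1 - s⁻¹ : ℂ) : OnePoint ℂ)} := by
  rintro z ⟨f, hf, hfY, τ, hτ, x, hx, y, hy, u, hu, v, hv, -, -, -, -, -, -, rfl⟩
  obtain ⟨E, _, _, _, ζ, hζ, hME, hDE⟩ := hbase K hd f hf.2.1 hf.2.2.1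
  obtain ⟨ι, hι⟩ := ECr_ext (algebraMap (Spl (tot N f)) E) τ
  obtain ⟨a, ha, b, hb, c, hc, hab, hac, hbc, hT⟩ := types hN hn hf E
  have hf1 : f ∈ Fam K N 1 n H := mem_famE hf
  have key : ∀ e ∈ bp N f, crC τ a b c e = OnePoint.infty ∨
      crC τ a b c e = ((0 : ℂ) : OnePoint ℂ) ∨ crC τ a b c e = ((1 : ℂ) : OnePoint ℂ) ∨
        ∃ s ∈ USet N A₀ (ECr_D N A₀ Y) ((C₁ * H) ^ (2 * N)),
          crC τ a b c e = ((s⁻¹ : ℂ) : OnePoint ℂ) ∨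
            crC τ a b c e = ((1 - s⁻¹ : ℂ) : OnePoint ℂ) := by
    intro e he
    by_cases heb : e = b
    · left
      unfold crC
      rw [if_pos heb]
    have hcrC : crC τ a b c e = ((τ (cr a b c e) : ℂ) : OnePoint ℂ) := by
      unfold crC
      rw [if_neg heb]
    right
    by_cases hea : e = a
    · right
      left
      rw [hcrC, hea]
      have h1 : cr a b c a = 1 := by
        unfold cr
        rw [ECr_dt_neg a b, ECr_dt_neg c a]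
        have h3 := ECr_dt_ne hac
        have h4 := ECr_dt_ne hab.symm
        field_simp
      rw [h1, map_one]
    by_cases hec : e = c
    · left
      rw [hcrC, hec]
      have h1 : cr a b c c = 0 := by
        unfold cr
        rw [ECr_dt_self, mul_zero, zero_div]
      rw [h1, map_zero]
    right
    right
    have hae : a ≠ e := fun h => hea h.symm
    have hbe : b ≠ e := fun h => heb h.symm
    have hce : c ≠ e := fun h => hec h.symm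
    rcases hT e he hae hbe hce with ⟨e', l, h3e, h3l, heN, hlN, hTy⟩ | ⟨q, h2q, hqN, hTy⟩
    · have hq := hcr f hf1 a ha c hc b hb e he hac hab hce hbe
      have hmem := ECr_pt hN hA₀ (C₁ := C₁) (H := H) hY hfY hζ hME hDE hq hTy ι
      rw [hι] at hmem
      refine ⟨τ (cr a c b e), Or.inl ⟨e', l, h3e, h3l, heN, hlN, hmem⟩, Or.inl ?_⟩
      rw [hcrC, ← cr_inv, map_inv₀]
    · have hq := hcr f hf1 a ha c hc e he b hb hac hae hbc.symm hbe.symm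
      have hmem := ECr_pt hN hA₀ (C₁ := C₁) (H := H) hY hfY hζ hME hDE hq hTy ι
      rw [hι] at hmem
      refine ⟨τ (cr a c e b), Or.inr ⟨q, h2q, hqN, hmem⟩, Or.inr ?_⟩
      rw [hcrC, ← cr_inv' hac hbe, map_sub, map_one, map_inv₀]
  refine ⟨crC τ a b c x, crC τ a b c y, crC τ a b c u, crC τ a b c v,
    (crC_eq τ hab hac hbc x y u v).symm, ?_⟩
  rintro p hp
  simp only [Set.mem_insert_iff, Set.mem_singleton_iff] at hp
  rcases hp with rfl | rfl | rfl | rfl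
  · exact key x hx
  · exact key y hy
  · exact key u hu
  · exact key v hv

theorem cr_countE (d n N : ℕ) (hN : 3 ≤ N) (hn : 3 ≤ n) {ε : ℝ} (hε : 0 < ε) :
    ∃ A C : ℝ, 0 < A ∧ 1 ≤ C ∧ ∀ (K : Type) [Field K] [NumberField K], finrank ℚ K = d →
      ∀ σ : K →+* ℂ, ∀ H Y : ℝ, 1 ≤ H → 1 ≤ Y → (CRsetE K σ N n H Y).Finite ∧
        ((CRsetE K σ N n H Y).ncard : ℝ) ≤ C * Y ^ A * H ^ ε := by
  have hN0 : N ≠ 0 := by omega
  obtain ⟨A₀, hA₀, hbase⟩ := baseE d n N hN0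
  obtain ⟨C₁, hC₁, hcr⟩ := cr_quot n N 1 hN0
  have h0 : (1 : ℝ) ≤ A₀ := by exact_mod_cast hA₀
  have h2 : (1 : ℝ) ≤ N := by exact_mod_cast (by omega : 1 ≤ N)
  have hε2 : 0 < ε / (8 * N) := by positivity
  obtain ⟨A, C, hA, hC, hU⟩ := uset_count hN0 A₀ hε2
  obtain ⟨B, hB⟩ : ∃ B : ℝ, B = N * (A₀ : ℝ) ^ A₀ := ⟨_, rfl⟩
  have hB1 : 1 ≤ B := by
    rw [hB]
    exact one_le_mul_of_one_le_of_one_le h2 (one_le_pow₀ h0)
  refine ⟨((A₀ : ℝ) + 1) * (4 * A), 625 * C ^ 4 * B ^ (4 * A) * C₁ ^ ε, by positivity, ?_, ?_⟩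
  · refine one_le_mul_of_one_le_of_one_le (one_le_mul_of_one_le_of_one_le
      (one_le_mul_of_one_le_of_one_le (by norm_num) (one_le_pow₀ hC))
      (Real.one_le_rpow hB1 (by positivity))) (Real.one_le_rpow hC₁ hε.le)
  intro K _ _ hd σ H Y hH hY
  have hY0 : 0 < Y := by linarith
  have hCH : 1 ≤ C₁ * H := one_le_mul_of_one_le_of_one_le hC₁ hH
  have hR1 : 1 ≤ (C₁ * H) ^ (2 * N) := one_le_pow₀ hCH
  have hD1 : 1 ≤ ECr_D N A₀ Y := by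
    rw [ECr_D_eq, ← hB]
    exact one_le_mul_of_one_le_of_one_le hB1 (one_le_pow₀ hY)
  obtain ⟨hfin, hcard⟩ := hU (ECr_D N A₀ Y) ((C₁ * H) ^ (2 * N)) hD1 hR1
  have hsub := ECr_sub hN hn hA₀ (C₁ := C₁) hd (H := H) hY hbase
    (fun f hf => hcr K H hH f hf) σ
  obtain ⟨hfin2, hcard2⟩ := crset_card hfin
  refine ⟨hfin2.subset hsub, ?_⟩
  have hc1 := (Set.ncard_le_ncard hsub hfin2).trans hcard2
  have hc2 : ((CRsetE K σ N n H Y).ncard : ℝ) ≤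
      (2 * ((USet N A₀ (ECr_D N A₀ Y) ((C₁ * H) ^ (2 * N))).ncard : ℝ) + 3) ^ 4 := by
    exact_mod_cast hc1
  refine hc2.trans ?_
  obtain ⟨V, hV⟩ : ∃ V : ℝ, V = C * ECr_D N A₀ Y ^ A * ((C₁ * H) ^ (2 * N)) ^ (ε / (8 * N)) :=
    ⟨_, rfl⟩
  rw [← hV] at hcard
  have hV1 : 1 ≤ V := by
    rw [hV]
    exact one_le_mul_of_one_le_of_one_le
      (one_le_mul_of_one_le_of_one_le hC (Real.one_le_rpow hD1 hA.le))
      (Real.one_le_rpow hR1 hε2.le)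
  have h5 : (2 * ((USet N A₀ (ECr_D N A₀ Y) ((C₁ * H) ^ (2 * N))).ncard : ℝ) + 3) ^ 4 ≤
      (5 * V) ^ 4 := by
    refine pow_le_pow_left₀ (by positivity) ?_ _
    linarith
  refine h5.trans (le_of_eq ?_)
  have hDp : (ECr_D N A₀ Y ^ A) ^ 4 = B ^ (4 * A) * Y ^ (((A₀ : ℝ) + 1) * (4 * A)) := by
    rw [← Real.rpow_natCast (ECr_D N A₀ Y ^ A) 4, ← Real.rpow_mul (by linarith), ECr_D_eq, ← hB,
      Real.mul_rpow (by linarith) (by positivity), ← Real.rpow_natCast Y (A₀ + 1),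
      ← Real.rpow_mul hY0.le]
    push_cast
    rw [mul_comm A 4]
  have hRp : (((C₁ * H) ^ (2 * N)) ^ (ε / (8 * N))) ^ 4 = C₁ ^ ε * H ^ ε := by
    have hCH0 : 0 ≤ C₁ * H := by linarith
    rw [← Real.mul_rpow (by linarith) (by linarith),
      ← Real.rpow_natCast (((C₁ * H) ^ (2 * N)) ^ (ε / (8 * N))) 4,
      ← Real.rpow_mul (by linarith), ← Real.rpow_natCast (C₁ * H), ← Real.rpow_mul hCH0]
    congr 1
    push_cast
    field_simp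
    norm_num
  calc (5 * V) ^ 4 = 625 * C ^ 4 * (ECr_D N A₀ Y ^ A) ^ 4 *
        (((C₁ * H) ^ (2 * N)) ^ (ε / (8 * N))) ^ 4 := by
        rw [hV]
        ring
    _ = _ := by
        rw [hDp, hRp]
        ring

end FreyCyc
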