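import Pool.Agent.Lib.MP_6babc4_nt.Cy3.FStp
import Pool.Agent.Lib.MP_6babc4_nt.Cyc.Hgt

/-!
# Module FHgt: the heights along the quadratic chain

PROOFS. `M = [E : ℚ]`. As `height_stp`, `chain_height` in Cyc/Hgt.
* `h(a / (a - 1)) ≤ 2^M h(a)`, `h(t)^2 = h(t^2)`, `qst t = 2 / (1 + t) - 1`: `h(qst t) ≤ 2^M h(2) h(1 + t)`,
  `h(2) ≤ 2^M`, `h(1 + t) ≤ 2^M h(t)`. So `h(qst t)^2 ≤ (8^M)^2 2^M h(a) ≤ (32^M)^2 h(a)`.
* `qchain_height`: induction on `k`: `h(b)^(2^k) ≤ (32^M)^(2 + 4 + ... + 2^k) h(a)`.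
-/

set_option autoImplicit false

open Polynomial NumberField IsDedekindDomain Module Height

namespace FreyCyc

open FreySparse

theorem height_qst {E : Type} [Field E] [NumberField E] {a t : E} (h0 : a ≠ 0) (h1 : a ≠ 1)
    (ht : t ^ 2 = a / (a - 1)) :
    mulHeight₁ (qst t) ^ 2 ≤ ((32 : ℝ) ^ finrank ℚ E) ^ 2 * mulHeight₁ a := by
  have hw : totalWeight E = finrank ℚ E := NumberField.totalWeight_eq_finrank E
  have hm1 : 1 + t ≠ 0 := fun h => (qt_ne h0 h1 ht).2.2 (by linear_combination h)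
  set M := finrank ℚ E with hM
  have h2M : (1 : ℝ) ≤ 2 ^ M := one_le_pow₀ one_le_two
  have e1 : mulHeight₁ (2 : E) ≤ 2 ^ M := by
    have := mulHeight₁_add_le (1 : E) 1
    rw [mulHeight₁_one, hw, mul_one, mul_one, one_add_one_eq_two] at this
    exact this
  have e3 : mulHeight₁ (1 + t) ≤ 2 ^ M * mulHeight₁ t := by
    have := mulHeight₁_add_le 1 t
    rwa [mulHeight₁_one, hw, mul_one] at this
  have hs : qst t = 2 * (1 + t)⁻¹ - 1 := by
    unfold qst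
    field_simp
    ring
  have e5 : mulHeight₁ (2 * (1 + t)⁻¹) ≤ 2 ^ M * (2 ^ M * mulHeight₁ t) := by
    refine (mulHeight₁_mul_le _ _).trans ?_
    rw [mulHeight₁_inv]
    exact mul_le_mul e1 e3 (mulHeight₁_nonneg _) (by positivity)
  have e7 : mulHeight₁ (qst t) ≤ 8 ^ M * mulHeight₁ t := by
    rw [hs]
    refine (mulHeight₁_sub_le _ _).trans ?_
    rw [mulHeight₁_one, mul_one, hw]
    calc (2 : ℝ) ^ M * mulHeight₁ (2 * (1 + t)⁻¹)
        ≤ 2 ^ M * (2 ^ M * (2 ^ M * mulHeight₁ t)) := mul_le_mul_of_nonneg_left e5 (by positivity)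
      _ = 8 ^ M * mulHeight₁ t := by
          have : (8 : ℝ) ^ M = 2 ^ M * 2 ^ M * 2 ^ M := by
            rw [← mul_pow, ← mul_pow]
            norm_num
          rw [this]
          ring
  have e8 : mulHeight₁ (a / (a - 1)) ≤ 2 ^ M * mulHeight₁ a := by
    have h4 : a / (a - 1) = (1 - a⁻¹)⁻¹ := by
      have : a - 1 ≠ 0 := sub_ne_zero.mpr h1
      field_simp
    rw [h4, mulHeight₁_inv]
    have := mulHeight₁_sub_le 1 a⁻¹
    rwa [mulHeight₁_one, mulHeight₁_inv, hw, mul_one] at this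
  calc mulHeight₁ (qst t) ^ 2 ≤ (8 ^ M * mulHeight₁ t) ^ 2 :=
        pow_le_pow_left₀ (mulHeight₁_nonneg _) e7 2
    _ = (8 ^ M) ^ 2 * mulHeight₁ (a / (a - 1)) := by
        rw [mul_pow, ← mulHeight₁_pow, ht]
    _ ≤ (8 ^ M) ^ 2 * (2 ^ M * mulHeight₁ a) := mul_le_mul_of_nonneg_left e8 (by positivity)
    _ ≤ (8 ^ M) ^ 2 * ((4 ^ M) ^ 2 * mulHeight₁ a) := by
        refine mul_le_mul_of_nonneg_left ?_ (by positivity)
        refine mul_le_mul_of_nonneg_right ?_ (mulHeight₁_nonneg a)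
        calc (2 : ℝ) ^ M ≤ 4 ^ M := pow_le_pow_left₀ (by norm_num) (by norm_num) M
          _ ≤ (4 ^ M) ^ 2 := le_self_pow₀ (one_le_pow₀ (by norm_num)) (by norm_num)
    _ = ((32 : ℝ) ^ M) ^ 2 * mulHeight₁ a := by
        rw [← mul_assoc, ← mul_pow, ← mul_pow]
        norm_num

theorem qchain_height {E : Type} [Field E] [NumberField E] (k : ℕ) {a b : E}
    (h : QChain k a b) :
    mulHeight₁ b ^ (2 ^ k) ≤ ((32 : ℝ) ^ finrank ℚ E) ^ (2 * 2 ^ k) * mulHeight₁ a := by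
  have hB : (1 : ℝ) ≤ (32 : ℝ) ^ finrank ℚ E := one_le_pow₀ (by norm_num)
  set B : ℝ := (32 : ℝ) ^ finrank ℚ E with hBdef
  have key : ∀ k : ℕ, ∀ a : E, QChain k a b →
      mulHeight₁ b ^ (2 ^ k) ≤ B ^ (2 * 2 ^ k - 2) * mulHeight₁ a := by
    intro k
    induction k with
    | zero =>
      intro a h
      have h4 : a = b := h
      rw [h4]
      simp
    | succ k ih =>
      intro a h
      obtain ⟨t, h0, h1, ht, hc⟩ := h
      have h4 := ih (qst t) hc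
      have h5 := height_qst h0 h1 ht
      rw [← hBdef] at h5
      have hq1 : 1 ≤ 2 ^ k := Nat.one_le_pow _ _ (by omega)
      calc mulHeight₁ b ^ (2 ^ (k + 1)) = (mulHeight₁ b ^ (2 ^ k)) ^ 2 := by
            rw [← pow_mul, ← pow_succ]
        _ ≤ (B ^ (2 * 2 ^ k - 2) * mulHeight₁ (qst t)) ^ 2 :=
            pow_le_pow_left₀ (pow_nonneg (mulHeight₁_nonneg b) _) h4 2
        _ = (B ^ (2 * 2 ^ k - 2)) ^ 2 * mulHeight₁ (qst t) ^ 2 := mul_pow _ _ _
        _ ≤ (B ^ (2 * 2 ^ k - 2)) ^ 2 * (B ^ 2 * mulHeight₁ a) :=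
            mul_le_mul_of_nonneg_left h5 (by positivity)
        _ = B ^ ((2 * 2 ^ k - 2) * 2 + 2) * mulHeight₁ a := by
            rw [← pow_mul, pow_add]
            ring
        _ ≤ B ^ (2 * 2 ^ (k + 1) - 2) * mulHeight₁ a := by
            refine mul_le_mul_of_nonneg_right ?_ (mulHeight₁_nonneg a)
            refine pow_le_pow_right₀ hB ?_
            rw [pow_succ]
            omega
  refine (key k a h).trans ?_
  refine mul_le_mul_of_nonneg_right ?_ (mulHeight₁_nonneg a)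
  exact pow_le_pow_right₀ hB (Nat.sub_le _ _)

end FreyCyc
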