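import Pool.Agent.Lib.MP_6babc4_nt.Cy3.FCnt
import Pool.Agent.Lib.MP_6babc4_nt.Cy3.FHgt
import Pool.Agent.Lib.MP_6babc4_nt.Cyc.Fld

/-!
# Module FLam: the number of the starting points of quadratic chains in `ℂ`

PROOF. Copy of Cyc/Lam with `q = 2`, `stp ζ` replaced by `qst` and without the root of unity `ζ` (so pairs
`(θ₀, θ)` instead of triples): `qchain_map`, `qchain_height`, `height_quot`, `qchain_count`, `exists_prime` for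
the integer `2 discr F`, `field_in_C`, `algInt_card`.
-/

set_option autoImplicit false

open Polynomial NumberField IsDedekindDomain Module Height

namespace FreyCyc

open FreySparse

def QLamSet (k M₀ M : ℕ) (D R : ℝ) : Set ℂ :=
  {z | ∃ (E₀ E : Type) (_ : Field E₀) (_ : NumberField E₀) (_ : Field E) (_ : NumberField E)
    (_ : Algebra E₀ E) (ι : E →+* ℂ) (a : E₀) (b : E),
      finrank ℚ E₀ ≤ M₀ ∧ finrank ℚ E ≤ M ∧ |(discr E₀ : ℝ)| ≤ D ∧ |(discr E : ℝ)| ≤ D ∧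
      QChain k (algebraMap E₀ E a) b ∧ ι (algebraMap E₀ E a) = z ∧
      ∃ ν δ : 𝓞 E₀, δ ≠ 0 ∧ a = (ν : E₀) / δ ∧ (∀ τ : E₀ →+* ℂ, ‖τ ν‖ ≤ R) ∧
        ∀ τ : E₀ →+* ℂ, ‖τ δ‖ ≤ R}

/-- Two fields with the same image in `ℂ`. -/
private lemma flam_iso {E E' : Type} [Field E] [Field E'] (ι : E →+* ℂ) (ι' : E' →+* ℂ)
    (h : ∀ x : E', ∃ y : E, ι y = ι' x) : ∃ φ : E' →+* E, ∀ x, ι (φ x) = ι' x := by
  choose f hf using h
  have hinj : Function.Injective ι := ι.injective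
  refine ⟨{ toFun := f
            map_one' := ?_
            map_mul' := ?_
            map_zero' := ?_
            map_add' := ?_ }, fun x => hf x⟩
  · apply hinj
    rw [hf, map_one, map_one]
  · intro x y
    apply hinj
    rw [hf, map_mul, map_mul, hf, hf]
  · apply hinj
    rw [hf, map_zero, map_zero]
  · intro x y
    apply hinj
    rw [hf, map_add, map_add, hf, hf]

private noncomputable def flam_lamB (k m : ℕ) (R : ℝ) : ℝ :=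
  ((32 : ℝ) ^ m) ^ 2 * (R ^ m) ^ ((1 : ℝ) / (2 : ℝ) ^ k)

private lemma flam_lamB_nonneg (k m : ℕ) {R : ℝ} (hR : 1 ≤ R) : 0 ≤ flam_lamB k m R := by
  unfold flam_lamB
  positivity

private lemma flam_lamB_pow {k m : ℕ} {R : ℝ} (hR : 1 ≤ R) :
    flam_lamB k m R ^ (2 ^ k) = ((32 : ℝ) ^ m) ^ (2 * 2 ^ k) * R ^ m := by
  have h0 : (0 : ℝ) ≤ R ^ m := by positivity
  have h1 : ((2 : ℝ) ^ k) ≠ 0 := by positivity
  unfold flam_lamB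
  rw [mul_pow, ← pow_mul, ← Real.rpow_natCast ((R ^ m) ^ ((1 : ℝ) / (2 : ℝ) ^ k)),
    ← Real.rpow_mul h0]
  congr 1
  push_cast
  rw [one_div, inv_mul_cancel₀ h1, Real.rpow_one]

private lemma flam_lamB_sq {k m : ℕ} {R : ℝ} (hR : 1 ≤ R) :
    2 ^ m * flam_lamB k m R * flam_lamB k m R = (2 * 32 ^ 4 * R ^ ((2 : ℝ) / (2 : ℝ) ^ k)) ^ m := by
  have h0 : (0 : ℝ) ≤ R := by linarith
  have h1 : (R ^ m) ^ ((1 : ℝ) / (2 : ℝ) ^ k) * (R ^ m) ^ ((1 : ℝ) / (2 : ℝ) ^ k) =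
      (R ^ ((2 : ℝ) / (2 : ℝ) ^ k)) ^ m := by
    have hRm : (0 : ℝ) < R ^ m := by positivity
    rw [← Real.rpow_add hRm, ← Real.rpow_natCast R m, ← Real.rpow_mul h0,
      ← Real.rpow_natCast (R ^ ((2 : ℝ) / (2 : ℝ) ^ k)) m, ← Real.rpow_mul h0]
    congr 1
    ring
  unfold flam_lamB
  calc _ = 2 ^ m * (((32 : ℝ) ^ m) ^ 2 * ((32 : ℝ) ^ m) ^ 2) *
        ((R ^ m) ^ ((1 : ℝ) / (2 : ℝ) ^ k) * (R ^ m) ^ ((1 : ℝ) / (2 : ℝ) ^ k)) := by ring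
    _ = _ := by
        have h32 : ((32 : ℝ) ^ m) ^ 2 * ((32 : ℝ) ^ m) ^ 2 = ((32 : ℝ) ^ 4) ^ m := by
          obtain ⟨t, ht⟩ : ∃ t : ℝ, t = 32 := ⟨_, rfl⟩
          rw [← ht]
          ring
        rw [h1, h32, mul_pow, mul_pow]

/-- Transport of a starting point to the reference fields. -/
private lemma flam_move (k : ℕ) {R : ℝ} (hR : 1 ≤ R)
    {E₀ E : Type} [Field E₀] [NumberField E₀] [Field E] [NumberField E] [Algebra E₀ E]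
    (ι : E →+* ℂ)
    {E₀' E' : Type} [Field E₀'] [NumberField E₀'] [Field E'] [NumberField E'] [Algebra E₀' E']
    (ι' : E' →+* ℂ)
    (h₀ : ∀ x : E₀', ∃ y : E₀, ι (algebraMap E₀ E y) = ι' (algebraMap E₀' E' x))
    (h₁ : ∀ x : E', ∃ y : E, ι y = ι' x) {a' : E₀'} {b' : E'}
    (hch : QChain k (algebraMap E₀' E' a') b')
    {ν δ : 𝓞 E₀'} (hδ0 : δ ≠ 0) (ha : a' = (ν : E₀') / δ) (hν : ∀ τ : E₀' →+* ℂ, ‖τ ν‖ ≤ R)
    (hδ : ∀ τ : E₀' →+* ℂ, ‖τ δ‖ ≤ R) :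
    ∃ a : E₀, ι (algebraMap E₀ E a) = ι' (algebraMap E₀' E' a') ∧
      ∃ b : E, QChain k (algebraMap E₀ E a) b ∧
        mulHeight₁ b ≤ flam_lamB k (finrank ℚ E) R := by
  obtain ⟨φ, hφ⟩ := flam_iso ι ι' h₁
  obtain ⟨a, haa⟩ := h₀ a'
  have hinj : Function.Injective ι := ι.injective
  have e1 : algebraMap E₀ E a = φ (algebraMap E₀' E' a') := by
    apply hinj
    rw [haa, hφ]
  refine ⟨a, haa, φ b', ?_, ?_⟩
  · rw [e1]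
    exact qchain_map φ k hch
  have hc : QChain k (algebraMap E₀ E a) (φ b') := by
    rw [e1]
    exact qchain_map φ k hch
  have hht := qchain_height k hc
  -- the height of the starting point
  let g : E₀' →+* E := φ.comp (algebraMap E₀' E')
  have hνE : IsIntegral ℤ (g (ν : E₀')) := map_isIntegral_int g (RingOfIntegers.isIntegral_coe ν)
  have hδE : IsIntegral ℤ (g (δ : E₀')) := map_isIntegral_int g (RingOfIntegers.isIntegral_coe δ)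
  obtain ⟨ν₁, hν₁⟩ : ∃ ν₁ : 𝓞 E, (ν₁ : E) = g (ν : E₀') := ⟨⟨g (ν : E₀'), hνE⟩, rfl⟩
  obtain ⟨δ₁, hδ₁⟩ : ∃ δ₁ : 𝓞 E, (δ₁ : E) = g (δ : E₀') := ⟨⟨g (δ : E₀'), hδE⟩, rfl⟩
  have hδ₁0 : δ₁ ≠ 0 := by
    intro h
    rw [h] at hδ₁
    have h2 : g (δ : E₀') = 0 := by
      rw [← hδ₁]
      exact map_zero _
    have h3' : (δ : E₀') = 0 := (map_eq_zero g).1 h2
    exact hδ0 (RingOfIntegers.coe_eq_zero_iff.1 h3')
  have e3 : algebraMap E₀ E a = (ν₁ : E) / δ₁ := by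
    rw [e1, ha, hν₁, hδ₁, map_div₀, map_div₀]
    rfl
  have h4 : mulHeight₁ (algebraMap E₀ E a) ≤ R ^ finrank ℚ E := by
    rw [e3]
    refine height_quot hδ₁0 hR ?_ ?_
    · intro τ
      rw [hν₁]
      exact hν (τ.comp g)
    · intro τ
      rw [hδ₁]
      exact hδ (τ.comp g)
  have h5 : mulHeight₁ (φ b') ^ (2 ^ k) ≤ flam_lamB k (finrank ℚ E) R ^ (2 ^ k) := by
    rw [flam_lamB_pow hR]
    exact hht.trans (mul_le_mul_of_nonneg_left h4 (by positivity))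
  exact le_of_pow_le_pow_left₀ (pow_pos (by norm_num : 0 < 2) k).ne' (flam_lamB_nonneg k _ hR) h5

/-- The starting points with given images in `ℂ` of the two fields. -/
private def flam_LamT (k M₀ M : ℕ) (D R : ℝ) (θ₀ θ : ℂ) : Set ℂ :=
  {z | ∃ (E₀ E : Type) (_ : Field E₀) (_ : NumberField E₀) (_ : Field E) (_ : NumberField E)
    (_ : Algebra E₀ E) (ι : E →+* ℂ) (a : E₀) (b : E),
      finrank ℚ E₀ ≤ M₀ ∧ finrank ℚ E ≤ M ∧ |(discr E : ℝ)| ≤ D ∧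
      QChain k (algebraMap E₀ E a) b ∧ ι (algebraMap E₀ E a) = z ∧
      (∃ ν δ : 𝓞 E₀, δ ≠ 0 ∧ a = (ν : E₀) / δ ∧ (∀ τ : E₀ →+* ℂ, ‖τ ν‖ ≤ R) ∧
        ∀ τ : E₀ →+* ℂ, ‖τ δ‖ ≤ R) ∧
      (∀ z : ℂ, z ∈ IntermediateField.adjoin ℚ {θ₀} ↔ ∃ x : E₀, ι (algebraMap E₀ E x) = z) ∧
      (∀ z : ℂ, z ∈ IntermediateField.adjoin ℚ {θ} ↔ ∃ x : E, ι x = z)}

private lemma flam_triple (k M₀ M : ℕ) {D R : ℝ} (hD : 1 ≤ D)
    (hR : 1 ≤ R) (θ₀ θ : ℂ) : (flam_LamT k M₀ M D R θ₀ θ).Finite ∧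
      ((flam_LamT k M₀ M D R θ₀ θ).ncard : ℝ) ≤
        ((16 * 32 ^ 4 * 2) ^ M₀ * (2 ^ k) ^ M) * D ^ M₀ * R ^ (2 * (M₀ : ℝ) / (2 : ℝ) ^ k) := by
  classical
  have hq1 : (1 : ℝ) ≤ 2 := by norm_num
  have hR0 : 0 < R := by linarith
  by_cases hne : (flam_LamT k M₀ M D R θ₀ θ).Nonempty
  swap
  · rw [Set.not_nonempty_iff_eq_empty] at hne
    rw [hne]
    refine ⟨Set.finite_empty, ?_⟩
    rw [Set.ncard_empty, Nat.cast_zero]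
    positivity
  obtain ⟨z₀, E₀, E, _, _, _, _, _, ι, a₀, b₀, hM₀, hM, hDE, -, -, -, hr₀, hr₁⟩ := hne
  have hinj : Function.Injective ι := ι.injective
  -- the prime number
  have hX0 : 1 ≤ R ^ ((2 : ℝ) / (2 : ℝ) ^ k) := Real.one_le_rpow hR (by positivity)
  obtain ⟨X, hX⟩ : ∃ X : ℝ, X = 2 * 32 ^ 4 * R ^ ((2 : ℝ) / (2 : ℝ) ^ k) := ⟨_, rfl⟩
  have hX1 : 1 ≤ X := by
    rw [hX]
    linarith
  have hdE : (discr E : ℤ) ≠ 0 := discr_ne_zero E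
  have hqZ : (2 : ℤ) ≠ 0 := by norm_num
  obtain ⟨p, hp, hpd, hXp, hpX⟩ := exists_prime X hX1 ((2 : ℤ) * discr E) (mul_ne_zero hqZ hdE)
  have hpq : ¬ p ∣ 2 := by
    intro h
    have h' : (p : ℤ) ∣ (2 : ℤ) := by exact_mod_cast h
    exact hpd (h'.mul_right _)
  have hpE : ¬ (p : ℤ) ∣ discr E := fun h => hpd (h.mul_left _)
  have hm : finrank ℚ E ≠ 0 := (finrank_pos (R := ℚ) (M := E)).ne'
  have hcond : 2 ^ finrank ℚ E * flam_lamB k (finrank ℚ E) R * flam_lamB k (finrank ℚ E) R <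
      (p : ℝ) ^ finrank ℚ E := by
    rw [flam_lamB_sq hR, ← hX]
    exact pow_lt_pow_left₀ hXp (by linarith) hm
  obtain ⟨hfin, hcard⟩ := qchain_count (E₀ := E₀) k hp hpq hpE hcond
  obtain ⟨S, hS⟩ : ∃ S : Set E₀, S = {a : E₀ | ∃ b : E, QChain k
    (algebraMap E₀ E a) b ∧ mulHeight₁ b ≤ flam_lamB k (finrank ℚ E) R} := ⟨_, rfl⟩
  rw [← hS] at hfin hcard
  have hsub : flam_LamT k M₀ M D R θ₀ θ ⊆ (fun a : E₀ => ι (algebraMap E₀ E a)) '' S := by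
    rintro z ⟨E₀', E', _, _, _, _, _, ι', a', b', -, -, -, hch, hz, ⟨ν, δ, hδ0, ha, hν, hδ⟩,
      hr₀', hr₁'⟩
    obtain ⟨a, h1, b, h2, h4⟩ := flam_move k hR ι ι'
      (fun x => (hr₀ _).1 ((hr₀' _).2 ⟨x, rfl⟩)) (fun x => (hr₁ _).1 ((hr₁' _).2 ⟨x, rfl⟩)) hch
      hδ0 ha hν hδ
    refine ⟨a, ?_, ?_⟩
    · rw [hS]
      exact ⟨b, h2, h4⟩
    · show ι (algebraMap E₀ E a) = z
      rw [h1, hz]
  have hfin2 : ((fun a : E₀ => ι (algebraMap E₀ E a)) '' S).Finite := hfin.image _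
  refine ⟨hfin2.subset hsub, ?_⟩
  have hp1 : (1 : ℝ) ≤ 2 * p := by
    have : (1 : ℝ) ≤ p := by exact_mod_cast hp.one_lt.le
    linarith
  have hc1 : (flam_LamT k M₀ M D R θ₀ θ).ncard ≤ (2 * p) ^ finrank ℚ E₀ * (2 ^ k) ^ finrank ℚ E :=
    ((Set.ncard_le_ncard hsub hfin2).trans (Set.ncard_image_le hfin)).trans hcard
  have hc2 : ((flam_LamT k M₀ M D R θ₀ θ).ncard : ℝ) ≤
      (2 * p) ^ finrank ℚ E₀ * ((2 : ℝ) ^ k) ^ finrank ℚ E := by exact_mod_cast hc1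
  refine hc2.trans ?_
  have hpD : (p : ℝ) ≤ 4 * X * (2 * D) := by
    refine hpX.trans (mul_le_mul_of_nonneg_left ?_ (by linarith))
    push_cast
    rw [abs_mul, abs_of_pos (by norm_num : (0 : ℝ) < 2)]
    exact mul_le_mul_of_nonneg_left hDE (by linarith)
  have h2p : (2 * (p : ℝ)) ^ finrank ℚ E₀ ≤
      (16 * 32 ^ 4 * 2) ^ M₀ * D ^ M₀ * R ^ (2 * (M₀ : ℝ) / (2 : ℝ) ^ k) := by
    calc (2 * (p : ℝ)) ^ finrank ℚ E₀ ≤ (2 * (p : ℝ)) ^ M₀ := pow_le_pow_right₀ hp1 hM₀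
      _ ≤ (16 * 32 ^ 4 * 2 * D * R ^ ((2 : ℝ) / (2 : ℝ) ^ k)) ^ M₀ := by
          refine pow_le_pow_left₀ (by positivity) ?_ _
          rw [hX] at hpD
          linarith
      _ = _ := by
          rw [mul_pow, mul_pow, ← Real.rpow_natCast (R ^ ((2 : ℝ) / (2 : ℝ) ^ k)) M₀,
            ← Real.rpow_mul hR0.le]
          congr 2
          ring
  have hqk : ((2 : ℝ) ^ k) ^ finrank ℚ E ≤ ((2 : ℝ) ^ k) ^ M :=
    pow_le_pow_right₀ (one_le_pow₀ hq1) hM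
  calc (2 * (p : ℝ)) ^ finrank ℚ E₀ * ((2 : ℝ) ^ k) ^ finrank ℚ E ≤
      ((16 * 32 ^ 4 * 2) ^ M₀ * D ^ M₀ * R ^ (2 * (M₀ : ℝ) / (2 : ℝ) ^ k)) * ((2 : ℝ) ^ k) ^ M :=
        mul_le_mul h2p hqk (by positivity) (by positivity)
    _ = _ := by ring

private lemma flam_algInt_mono {N : ℕ} {B B' : ℝ} (h : B ≤ B') : AlgInt N B ⊆ AlgInt N B' := by
  rintro z ⟨h1, h2, h3⟩
  exact ⟨h1, h2, fun w hw => (h3 w hw).trans h⟩

theorem qlam_count (k M₀ M : ℕ) : ∃ (A : ℕ) (C : ℝ), 1 ≤ C ∧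
    ∀ D R : ℝ, 1 ≤ D → 1 ≤ R → (QLamSet k M₀ M D R).Finite ∧
      ((QLamSet k M₀ M D R).ncard : ℝ) ≤ C * D ^ A * R ^ (2 * (M₀ : ℝ) / (2 : ℝ) ^ k) := by
  classical
  obtain ⟨C₀, hC₀, hF₀⟩ := field_in_C M₀
  obtain ⟨C₁, hC₁, hF₁⟩ := field_in_C M
  obtain ⟨B₀, hB₀, hA₀⟩ := algInt_card M₀
  obtain ⟨B₁, hB₁, hA₁⟩ := algInt_card M
  have hq1 : (1 : ℝ) ≤ 2 := by norm_num
  obtain ⟨e₀, he₀⟩ : ∃ e₀ : ℕ, e₀ = M₀ * (M₀ + 1) := ⟨_, rfl⟩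
  obtain ⟨e₁, he₁⟩ : ∃ e₁ : ℕ, e₁ = M * (M + 1) := ⟨_, rfl⟩
  obtain ⟨C₃, hC₃⟩ : ∃ C₃ : ℝ, C₃ = (16 * 32 ^ 4 * 2) ^ M₀ * (2 ^ k) ^ M := ⟨_, rfl⟩
  have hC₃1 : 1 ≤ C₃ := by
    rw [hC₃]
    refine one_le_mul_of_one_le_of_one_le (one_le_pow₀ ?_) (one_le_pow₀ (one_le_pow₀ hq1))
    linarith
  refine ⟨e₀ + e₁ + M₀, (B₀ * C₀ ^ e₀) * (B₁ * C₁ ^ e₁) * C₃, ?_, fun D R hD hR => ?_⟩
  · have h1 : 1 ≤ B₀ * C₀ ^ e₀ := one_le_mul_of_one_le_of_one_le hB₀ (one_le_pow₀ hC₀)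
    have h2 : 1 ≤ B₁ * C₁ ^ e₁ := one_le_mul_of_one_le_of_one_le hB₁ (one_le_pow₀ hC₁)
    exact one_le_mul_of_one_le_of_one_le (one_le_mul_of_one_le_of_one_le h1 h2) hC₃1
  have hD0 : 0 < D := by linarith
  have hsD1 : 1 ≤ √D := by
    rw [Real.one_le_sqrt]
    exact hD
  have hsD : √D ≤ D := by
    rw [Real.sqrt_le_left (by linarith)]
    nlinarith
  obtain ⟨hfin₀, hcard₀⟩ := hA₀ (C₀ * √D) (one_le_mul_of_one_le_of_one_le hC₀ hsD1)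
  obtain ⟨hfin₁, hcard₁⟩ := hA₁ (C₁ * √D) (one_le_mul_of_one_le_of_one_le hC₁ hsD1)
  rw [← he₀] at hcard₀
  rw [← he₁] at hcard₁
  -- the pairs
  obtain ⟨T, hT⟩ : ∃ T : Finset (ℂ × ℂ), T = hfin₀.toFinset ×ˢ hfin₁.toFinset := ⟨_, rfl⟩
  have hTcard : (T.card : ℝ) ≤ (B₀ * (C₀ * √D) ^ e₀) * (B₁ * (C₁ * √D) ^ e₁) := by
    rw [hT, Finset.card_product, ← Set.ncard_eq_toFinset_card _ hfin₀,
      ← Set.ncard_eq_toFinset_card _ hfin₁]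
    push_cast
    exact mul_le_mul hcard₀ hcard₁ (by positivity) (by positivity)
  obtain ⟨W, hW⟩ : ∃ W : ℝ, W = C₃ * D ^ M₀ * R ^ (2 * (M₀ : ℝ) / (2 : ℝ) ^ k) := ⟨_, rfl⟩
  have hW0 : 0 ≤ W := by
    rw [hW]
    positivity
  have htr : ∀ t : ℂ × ℂ, (flam_LamT k M₀ M D R t.1 t.2).Finite ∧
      ((flam_LamT k M₀ M D R t.1 t.2).ncard : ℝ) ≤ W := by
    intro t
    rw [hW, hC₃]
    exact flam_triple k M₀ M hD hR t.1 t.2
  obtain ⟨V, hV⟩ : ∃ V : Finset ℂ, V = T.biUnion fun t => (htr t).1.toFinset := ⟨_, rfl⟩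
  have hsub : QLamSet k M₀ M D R ⊆ (V : Set ℂ) := by
    rintro z ⟨E₀, E, _, _, _, _, _, ι, a, b, hM₀, hM, hD₀, hDE, hch, hz, hqt⟩
    obtain ⟨θ₀, hθ₀, hr₀⟩ := hF₀ E₀ hM₀ (ι.comp (algebraMap E₀ E))
    obtain ⟨θ, hθ, hr₁⟩ := hF₁ E hM ι
    rw [hV, Finset.coe_biUnion]
    rw [Set.mem_iUnion₂]
    refine ⟨(θ₀, θ), ?_, ?_⟩
    · rw [hT, Finset.mem_coe, Finset.mem_product, Set.Finite.mem_toFinset,
        Set.Finite.mem_toFinset]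
      refine ⟨flam_algInt_mono ?_ hθ₀, flam_algInt_mono ?_ hθ⟩
      · exact mul_le_mul_of_nonneg_left (Real.sqrt_le_sqrt hD₀) (by linarith)
      · exact mul_le_mul_of_nonneg_left (Real.sqrt_le_sqrt hDE) (by linarith)
    · rw [Finset.mem_coe, Set.Finite.mem_toFinset]
      exact ⟨E₀, E, inferInstance, inferInstance, inferInstance, inferInstance, inferInstance, ι, a,
        b, hM₀, hM, hDE, hch, hz, hqt, hr₀, hr₁⟩
  refine ⟨V.finite_toSet.subset hsub, ?_⟩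
  have hVcard : (V.card : ℝ) ≤ T.card * W := by
    have h1 : V.card ≤ ∑ t ∈ T, ((htr t).1.toFinset).card := by
      rw [hV]
      exact Finset.card_biUnion_le
    have h2 : (V.card : ℝ) ≤ ∑ t ∈ T, (((htr t).1.toFinset).card : ℝ) := by exact_mod_cast h1
    refine h2.trans ?_
    rw [← nsmul_eq_mul, ← Finset.sum_const]
    refine Finset.sum_le_sum fun t _ => ?_
    rw [← Set.ncard_eq_toFinset_card _ (htr t).1]
    exact (htr t).2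
  have hnc : ((QLamSet k M₀ M D R).ncard : ℝ) ≤ V.card := by
    have h1 := Set.ncard_le_ncard hsub V.finite_toSet
    rw [Set.ncard_coe_finset] at h1
    exact_mod_cast h1
  have hsD₀ : (C₀ * √D) ^ e₀ ≤ C₀ ^ e₀ * D ^ e₀ := by
    rw [mul_pow]
    exact mul_le_mul_of_nonneg_left (pow_le_pow_left₀ (by linarith) hsD _) (by positivity)
  have hsD₁ : (C₁ * √D) ^ e₁ ≤ C₁ ^ e₁ * D ^ e₁ := by
    rw [mul_pow]
    exact mul_le_mul_of_nonneg_left (pow_le_pow_left₀ (by linarith) hsD _) (by positivity)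
  calc ((QLamSet k M₀ M D R).ncard : ℝ) ≤ T.card * W := hnc.trans hVcard
    _ ≤ ((B₀ * (C₀ * √D) ^ e₀) * (B₁ * (C₁ * √D) ^ e₁)) * W :=
        mul_le_mul_of_nonneg_right hTcard hW0
    _ ≤ ((B₀ * (C₀ ^ e₀ * D ^ e₀)) * (B₁ * (C₁ ^ e₁ * D ^ e₁))) * W := by
        gcongr
    _ = _ := by
        rw [hW, pow_add, pow_add]
        ring

end FreyCyc
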