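import Pool.Agent.Lib.MP_6babc4_nt.Cy3.FStp

/-!
# Module FTow: the quadratic tower

PROOF. Induction on `k`, for all `M` (compare `tower` in Cyc/Tow). `k = 0`: `F = E`, `b = a`. Step: `adj_qst`
(`q = 2`) gives `E' ∋ t`; `algebraMap a` has type `(4, 2, 4)` in `E'` (`ty_map`), and so has `qst t`
(`ty_qst`, `q = 2`); the induction hypothesis for `E'` (degree `≤ 2 M`) and `qst t` with the same `w`;
`qchain_map` is not needed (`t` is mapped to `F` by `E' → F`; `E → F` is the composition). Constants: `A`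
large.
-/

set_option autoImplicit false

open Polynomial NumberField IsDedekindDomain Module

namespace FreyCyc

open FreySparse

private lemma FTow_one_le (E : Type) [Field E] [NumberField E] : (1 : ℝ) ≤ |(discr E : ℝ)| := by
  have h : (1 : ℤ) ≤ |discr E| := Int.one_le_abs (discr_ne_zero E)
  exact_mod_cast h

private lemma FTow_bound {q w N M : ℕ} (hq : 1 ≤ q) (hw : 1 ≤ w) (hNM : N ≤ M) {D D' : ℝ}
    (hD : 1 ≤ D) (h : D' ≤ (D * ((q : ℝ) * w) ^ N) ^ q) :
    D' ≤ (q * D * w) ^ ((M + 1) * q) := by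
  have hq' : (1 : ℝ) ≤ q := by exact_mod_cast hq
  have hw' : (1 : ℝ) ≤ w := by exact_mod_cast hw
  have h1 : (1 : ℝ) ≤ (q : ℝ) * w := one_le_mul_of_one_le_of_one_le hq' hw'
  have h0 : (0 : ℝ) ≤ (q : ℝ) * w := by linarith
  have h2 : (q : ℝ) * w ≤ q * D * w := by
    calc (q : ℝ) * w = q * w * 1 := by ring
      _ ≤ q * w * D := mul_le_mul_of_nonneg_left hD h0
      _ = q * D * w := by ring
  have h4 : D ≤ q * D * w := by
    calc D = D * 1 := by ring
      _ ≤ D * (q * w) := mul_le_mul_of_nonneg_left h1 (by linarith)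
      _ = q * D * w := by ring
  refine h.trans ?_
  rw [pow_mul]
  refine pow_le_pow_left₀ (by positivity) ?_ q
  calc D * ((q : ℝ) * w) ^ N ≤ D * ((q : ℝ) * w) ^ M :=
        mul_le_mul_of_nonneg_left (pow_le_pow_right₀ h1 hNM) (by linarith)
    _ ≤ (q * D * w) * (q * D * w) ^ M :=
        mul_le_mul h4 (pow_le_pow_left₀ h0 h2 M) (by positivity) (by positivity)
    _ = (q * D * w) ^ (M + 1) := by ring

private lemma FTow_bound2 {w : ℕ} (hw : 1 ≤ w) {A B : ℕ} (hA : 1 ≤ A)
    {D D' D3 : ℝ} (hD : 1 ≤ D) (hD' : 0 ≤ D')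
    (h1 : D' ≤ (2 * D * w) ^ B) (h3 : D3 ≤ (A * D' * w) ^ A) :
    D3 ≤ ((2 * A * (B + 1) : ℕ) * D * w) ^ (2 * A * (B + 1)) := by
  have hw' : (1 : ℝ) ≤ w := by exact_mod_cast hw
  have hA' : (1 : ℝ) ≤ A := by exact_mod_cast hA
  have hB' : (1 : ℝ) ≤ (B : ℝ) + 1 := by
    have : (0 : ℝ) ≤ B := Nat.cast_nonneg B
    linarith
  have hY : (1 : ℝ) ≤ 2 * A * D * w :=
    one_le_mul_of_one_le_of_one_le (one_le_mul_of_one_le_of_one_le
      (one_le_mul_of_one_le_of_one_le (by norm_num) hA') hD) hw'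
  have h4 : (A : ℝ) * D' * w ≤ (2 * A * D * w) ^ (B + 1) := by
    calc (A : ℝ) * D' * w = (A * w) * D' := by ring
      _ ≤ (A * w) * (2 * D * w) ^ B := mul_le_mul_of_nonneg_left h1 (by positivity)
      _ ≤ (2 * A * D * w) * (2 * A * D * w) ^ B := by
          refine mul_le_mul ?_ (pow_le_pow_left₀ (by positivity) ?_ _) (by positivity)
            (by positivity)
          · calc (A : ℝ) * w = 1 * (A * w) := by ring
              _ ≤ (2 * D) * (A * w) := mul_le_mul_of_nonneg_right (by linarith) (by positivity)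
              _ = 2 * A * D * w := by ring
          · calc (2 : ℝ) * D * w = 1 * (2 * D * w) := by ring
              _ ≤ A * (2 * D * w) := mul_le_mul_of_nonneg_right hA' (by positivity)
              _ = 2 * A * D * w := by ring
      _ = (2 * A * D * w) ^ (B + 1) := by ring
  calc D3 ≤ (A * D' * w) ^ A := h3
    _ ≤ ((2 * A * D * w) ^ (B + 1)) ^ A := pow_le_pow_left₀ (by positivity) h4 A
    _ = (2 * A * D * w) ^ (A * (B + 1)) := by rw [← pow_mul, mul_comm (B + 1) A]
    _ ≤ (2 * A * D * w) ^ (2 * A * (B + 1)) :=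
        pow_le_pow_right₀ hY (Nat.mul_le_mul_right _ (by omega))
    _ ≤ _ := by
        refine pow_le_pow_left₀ (by positivity) ?_ _
        push_cast
        calc (2 * A * D * w : ℝ) = (2 * A * D * w) * 1 := by ring
          _ ≤ (2 * A * D * w) * ((B : ℝ) + 1) := mul_le_mul_of_nonneg_left hB' (by positivity)
          _ = 2 * A * (B + 1) * D * w := by ring

private lemma FTow_qst {E F : Type} [Field E] [Field F] (φ : E →+* F) (t : E) :
    φ (qst t) = qst (φ t) := by
  unfold qst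
  simp only [map_div₀, map_sub, map_add, map_one]

theorem qtower (k : ℕ) : ∀ M : ℕ, ∃ A : ℕ, 1 ≤ A ∧
    ∀ (E : Type) [Field E] [NumberField E], finrank ℚ E ≤ M → ∀ a : E, ∀ w : ℕ, w ≠ 0 → 2 ∣ w →
      Ty w 4 2 4 a →
        ∃ (F : Type) (_ : Field F) (_ : NumberField F) (_ : Algebra E F) (b : F),
          QChain k (algebraMap E F a) b ∧ finrank ℚ F ≤ M * 2 ^ k ∧
          |(discr F : ℝ)| ≤ (A * |(discr E : ℝ)| * w) ^ A := by
  induction k with
  | zero =>
    intro M
    refine ⟨1, le_rfl, ?_⟩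
    intro E _ _ hM a w hw h2w h
    refine ⟨E, inferInstance, inferInstance, Algebra.id E, a, rfl, by simpa using hM, ?_⟩
    have h1 : (1 : ℝ) ≤ w := by exact_mod_cast Nat.one_le_iff_ne_zero.mpr hw
    rw [pow_one, Nat.cast_one, one_mul]
    exact le_mul_of_one_le_right (abs_nonneg _) h1
  | succ k ih =>
    intro M
    obtain ⟨A, hA, hF⟩ := ih (2 * M)
    refine ⟨2 * A * ((M + 1) * 2 + 1), Nat.one_le_iff_ne_zero.mpr (by positivity), ?_⟩
    intro E _ _ hM a w hw h2w h
    have hw1 : 1 ≤ w := Nat.one_le_iff_ne_zero.mpr hw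
    obtain ⟨E', _, _, _, t, ht, hdeg', hD'⟩ := adj_qst (q := 2) hw h2w h
    have hM' : finrank ℚ E' ≤ 2 * M := hdeg'.trans (Nat.mul_le_mul_left 2 hM)
    have hD'b : |(discr E' : ℝ)| ≤ (2 * |(discr E : ℝ)| * w) ^ ((M + 1) * 2) := by
      have := FTow_bound (q := 2) (D' := |(discr E' : ℝ)|) (by norm_num) hw1 hM
        (FTow_one_le E) (by exact_mod_cast hD')
      exact_mod_cast this
    have hty : Ty w 4 2 4 (qst t) := ty_qst (q := 2) two_pos h2w (ty_map (E' := E') h) ht
    obtain ⟨F, iF, iN, iA, b, hch, hdegF, hDF⟩ := hF E' hM' (qst t) w hw h2w hty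
    refine ⟨F, iF, iN, ((algebraMap E' F).comp (algebraMap E E')).toAlgebra, b, ?_, ?_, ?_⟩
    · refine ⟨algebraMap E' F t, ?_, ?_, ?_, ?_⟩
      · exact (map_ne_zero ((algebraMap E' F).comp (algebraMap E E'))).mpr h.1
      · intro h0
        exact h.2.1 (((algebraMap E' F).comp (algebraMap E E')).injective
          (h0.trans (map_one _).symm))
      · rw [← map_pow, ht, map_div₀, map_sub, map_one]
        rfl
      · rw [FTow_qst] at hch
        exact hch
    · refine hdegF.trans (le_of_eq ?_)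
      ring
    · exact FTow_bound2 hw1 hA (FTow_one_le E) (abs_nonneg _) hD'b hDF

end FreyCyc
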