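import Pool.Agent.Lib.MP_6babc4_nt.Cy3.ECtD
import Pool.Agent.Lib.MP_6babc4_nt.Cy3.FTow
import Pool.Agent.Lib.MP_6babc4_nt.Cy3.FLam

/-!
# Module ECtQ: the number of the numbers of type `(2q, 2, 2q)`, `q ≥ 2`

PROOF. Case `q ≥ 3` (as ECtL, one quadratic step). Let `z = ι A` with data `E, ι, ζ, A, w`, `2 ∣ N ∣ w`. `adj_qst` gives
`E' ⊇ E`, `t`; `a' = qst t` has type `(2q, q, 2q)` (`ty_map`, `ty_qst`), so `(q, q, q)`. `A = ν / δ`, `x₁ = ν - δ ≠ 0`: `t x₁`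
is integral (its square is `ν x₁`) with conjugates `≤ 2R`, `a' = (x₁ - t x₁) / (x₁ + t x₁)` with numerator and
denominator integral with conjugates `≤ 4R`. `[E' : ℚ] ≤ 2 M`, `|discr E'| ≤ (D (2 D)^M)^2 =: D'`. With `ι' : E' → ℂ`
extending `ι`: `z' = ι' a' ∈ TSet N (2 M) D' (4R) q q q`, and `t' = ι' t = (1 - z') / (1 + z')`,
`z = t'^2 / (t'^2 - 1)`. So `TSet N M D R (2q) 2 (2q)` is in the image of `TSet N (2 M) D' (4R) q q q` under this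
map; `count_d`.
Case `q = 2` (as ECtD): choose `k` with `2 M / 2^k ≤ ε`, `qtower k M`, `qlam_count k M (M 2^k)`.
-/

set_option autoImplicit false

open Polynomial NumberField IsDedekindDomain Module

namespace FreyCyc

open FreySparse

private lemma ECtQ_ext {L F : Type} [Field L] [NumberField L] [Field F] [NumberField F]
    (g : L →+* F) (τ : L →+* ℂ) : ∃ ι : F →+* ℂ, ∀ x, ι (g x) = τ x := by
  let _ : Algebra L F := g.toAlgebra
  let _ : Algebra L ℂ := τ.toAlgebra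
  have hA : Algebra.IsAlgebraic L F := Algebra.IsAlgebraic.tower_top (K := ℚ) L
  let ι : F →ₐ[L] ℂ := IsAlgClosed.lift
  exact ⟨ι.toRingHom, fun x => ι.commutes x⟩

private lemma ECtQ_ty {E : Type} [Field E] [NumberField E] {w q : ℕ} {A : E}
    (h : Ty w (2 * q) q (2 * q) A) : Ty w q q q A := by
  obtain ⟨h0, h1, h2⟩ := h
  refine ⟨h0, h1, fun P hP => ?_⟩
  obtain ⟨a, b, c⟩ := h2 P hP
  have hd : (q : ℤ) ∣ ((2 * q : ℕ) : ℤ) := by
    rw [Nat.cast_mul]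
    exact dvd_mul_left _ _
  exact ⟨fun h => hd.trans (a h), b, fun h => hd.trans (c h)⟩

/-- The number `z` in terms of `z'`. -/
private noncomputable def ECtQ_fun (z : ℂ) : ℂ :=
  ((1 - z) / (1 + z)) ^ 2 / (((1 - z) / (1 + z)) ^ 2 - 1)

private lemma ECtQ_alg {t z : ℂ} (ht1 : t ≠ -1) (hz1 : z ≠ 1) (ht : t ^ 2 = z / (z - 1)) :
    ECtQ_fun (qst t) = z := by
  have h1 : 1 + t ≠ 0 := by
    intro h
    apply ht1
    linear_combination h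
  have h2 : z - 1 ≠ 0 := sub_ne_zero.mpr hz1
  have h5 : (1 - qst t) / (1 + qst t) = t := by
    have h6 : 1 - qst t = 2 * t / (1 + t) := by
      unfold qst
      field_simp
      ring
    have h7 : 1 + qst t = 2 / (1 + t) := by
      unfold qst
      field_simp
      ring
    rw [h6, h7]
    field_simp
  unfold ECtQ_fun
  rw [h5, ht]
  have h8 : z / (z - 1) - 1 = 1 / (z - 1) := by
    field_simp
    ring
  rw [h8]
  field_simp

private lemma ECtQ_int {E E' : Type} [Field E] [NumberField E] [Field E'] [NumberField E']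
    [Algebra E E'] {A : E} {t : E'} (hA0 : A ≠ 0) (hA1 : A ≠ 1)
    (ht : t ^ 2 = algebraMap E E' A / (algebraMap E E' A - 1)) {ν δ : 𝓞 E}
    (hδ0 : δ ≠ 0) (hνδ : A = (ν : E) / δ) {R : ℝ} (hR : 1 ≤ R) (hν : ∀ τ : E →+* ℂ, ‖τ ν‖ ≤ R)
    (hδ : ∀ τ : E →+* ℂ, ‖τ δ‖ ≤ R) :
    ∃ ν' δ' : 𝓞 E', δ' ≠ 0 ∧ qst t = (ν' : E') / δ' ∧
        (∀ τ : E' →+* ℂ, ‖τ ν'‖ ≤ 4 * R) ∧ ∀ τ : E' →+* ℂ, ‖τ δ'‖ ≤ 4 * R := by
  have hA0' : algebraMap E E' A ≠ 0 := by rw [ne_eq, map_eq_zero]; exact hA0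
  have hA1'' : algebraMap E E' A ≠ 1 := fun h => hA1 ((algebraMap E E').injective
    (h.trans (map_one _).symm))
  obtain ⟨-, -, htm⟩ := qt_ne hA0' hA1'' ht
  have hδ0' : (δ : E) ≠ 0 := by
    intro h
    exact hδ0 (FaithfulSMul.algebraMap_injective (𝓞 E) E (by rw [map_zero]; exact h))
  have hx0 : (ν : E) - δ ≠ 0 := by
    intro h
    apply hA1
    rw [hνδ, sub_eq_zero.1 h, div_self hδ0']
  set x : E' := algebraMap E E' ((ν : E) - δ) with hx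
  have hx0' : x ≠ 0 := by
    rw [hx, ne_eq, map_eq_zero]
    exact hx0
  have htx : (t * x) ^ 2 = algebraMap E E' ν * x := by
    have h1 : A / (A - 1) = (ν : E) / ((ν : E) - δ) := by
      rw [hνδ]
      field_simp
    have h2 : algebraMap E E' A / (algebraMap E E' A - 1) = algebraMap E E' (A / (A - 1)) := by
      rw [map_div₀, map_sub, map_one]
    rw [mul_pow, ht, h2, h1, map_div₀, ← hx, pow_two]
    field_simp
  have i1 : IsIntegral ℤ (algebraMap E E' (ν : E)) :=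
    (RingOfIntegers.isIntegral_coe ν).map (IsScalarTower.toAlgHom ℤ E E')
  have i2 : IsIntegral ℤ x := by
    have h1 : IsIntegral ℤ ((ν : E) - δ) :=
      (RingOfIntegers.isIntegral_coe ν).sub (RingOfIntegers.isIntegral_coe δ)
    exact h1.map (IsScalarTower.toAlgHom ℤ E E')
  have i3 : IsIntegral ℤ (t * x) :=
    IsIntegral.of_pow (n := 2) (by norm_num) (by rw [htx]; exact i1.mul i2)
  have i5 : IsIntegral ℤ (x - t * x) := i2.sub i3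
  have i6 : IsIntegral ℤ (x + t * x) := i2.add i3
  have hne1 : 1 + t ≠ 0 := by
    intro h
    apply htm
    linear_combination h
  have hden : x + t * x ≠ 0 := by
    have h1 : x + t * x = (1 + t) * x := by ring
    rw [h1]
    exact mul_ne_zero hne1 hx0'
  have c1 : ∀ τ : E' →+* ℂ, ‖τ x‖ ≤ 2 * R := by
    intro τ
    have g1 := hν (τ.comp (algebraMap E E'))
    have g2 := hδ (τ.comp (algebraMap E E'))
    have g3 : τ x = (τ.comp (algebraMap E E')) ν - (τ.comp (algebraMap E E')) δ := by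
      rw [← map_sub]
      rfl
    rw [g3]
    refine (norm_sub_le _ _).trans ?_
    linarith
  have c2 : ∀ τ : E' →+* ℂ, ‖τ (t * x)‖ ≤ 2 * R := by
    intro τ
    have g1 := hν (τ.comp (algebraMap E E'))
    have g2 : ‖τ (t * x)‖ ^ 2 ≤ (2 * R) ^ 2 := by
      rw [← norm_pow, ← map_pow, htx, map_mul, norm_mul]
      have g3 : ‖τ (algebraMap E E' ν)‖ ≤ 2 * R := le_trans g1 (by linarith)
      calc ‖τ (algebraMap E E' ν)‖ * ‖τ x‖ ≤ (2 * R) * (2 * R) :=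
            mul_le_mul g3 (c1 τ) (norm_nonneg _) (by linarith)
        _ = (2 * R) ^ 2 := by ring
    exact le_of_pow_le_pow_left₀ two_ne_zero (by linarith) g2
  refine ⟨⟨_, i5⟩, ⟨_, i6⟩, ?_, ?_, ?_, ?_⟩
  · intro h
    apply hden
    have h1 := congrArg (algebraMap (𝓞 E') E') h
    rw [map_zero] at h1
    exact h1
  · show qst t = (x - t * x) / (x + t * x)
    unfold qst
    rw [div_eq_div_iff hne1 hden]
    ring
  · intro τ
    show ‖τ (x - t * x)‖ ≤ 4 * R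
    rw [map_sub]
    refine (norm_sub_le _ _).trans ?_
    linarith [c1 τ, c2 τ]
  · intro τ
    show ‖τ (x + t * x)‖ ≤ 4 * R
    rw [map_add]
    refine (norm_add_le _ _).trans ?_
    linarith [c1 τ, c2 τ]

private lemma ECtQ_one_le {M : ℕ} {D : ℝ} (hD : 1 ≤ D) :
    1 ≤ (D * ((2 : ℝ) * D) ^ M) ^ 2 ∧ D ≤ (D * ((2 : ℝ) * D) ^ M) ^ 2 := by
  have h2 : 1 ≤ ((2 : ℝ) * D) ^ M := one_le_pow₀ (by linarith)
  have h3 : D ≤ D * ((2 : ℝ) * D) ^ M := le_mul_of_one_le_right (by linarith) h2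
  have h4 : D * ((2 : ℝ) * D) ^ M ≤ (D * ((2 : ℝ) * D) ^ M) ^ 2 :=
    le_self_pow₀ (by linarith) two_ne_zero
  exact ⟨by linarith, by linarith⟩

private lemma ECtQ_sub {N q M : ℕ} (h3 : 3 ≤ q) (hq : 2 * q ∣ N)
    {D R : ℝ} (hD : 1 ≤ D) (hR : 1 ≤ R) :
    TSet N M D R (2 * q) 2 (2 * q) ⊆ ECtQ_fun ''
      TSet N (2 * M) ((D * ((2 : ℝ) * D) ^ M) ^ 2) (4 * R) q q q := by
  rintro z ⟨E, _, _, ι, ζ, A, w, hζ, hM, hDE, hw0, hNw, hwD, hTy, hz, ν, δ, hδ0, hνδ, hν, hδ⟩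
  have h2w : 2 ∣ w := ((dvd_mul_right 2 q).trans hq).trans hNw
  obtain ⟨E', _, _, _, t, ht, hM', hD'⟩ := adj_qst hw0 h2w hTy
  have hTy1 : Ty w (2 * q) 2 (2 * q) (algebraMap E E' A) := ty_map hTy
  have hTy' : Ty w q q q (qst t) := ECtQ_ty (ty_qst (by omega) h2w hTy1 ht)
  obtain ⟨ν', δ', hδ0', hνδ', hν', hδ'⟩ := ECtQ_int hTy.1 hTy.2.1 ht hδ0 hνδ hR hν hδ
  obtain ⟨ι', hι'⟩ := ECtQ_ext (algebraMap E E') ι
  obtain ⟨hD1, hD2⟩ := ECtQ_one_le (M := M) hD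
  obtain ⟨-, -, htm⟩ := qt_ne hTy1.1 hTy1.2.1 ht
  refine ⟨ι' (qst t), ?_, ?_⟩
  · refine ⟨E', inferInstance, inferInstance, ι', algebraMap E E' ζ, _, w,
      hζ.map_of_injective (algebraMap E E').injective, ?_, ?_, hw0, hNw, hwD.trans hD2, hTy', rfl,
      ν', δ', hδ0', hνδ', hν', hδ'⟩
    · exact hM'.trans (Nat.mul_le_mul_left _ hM)
    · refine hD'.trans (pow_le_pow_left₀ (by positivity) ?_ _)
      refine mul_le_mul hDE ?_ (by positivity) (by linarith)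
      refine (pow_le_pow_left₀ (by positivity)
        (mul_le_mul_of_nonneg_left hwD (by norm_num)) _).trans ?_
      exact pow_le_pow_right₀ (by linarith) hM
  · have h1 : ι' (qst t) = qst (ι' t) := by
      unfold qst
      rw [map_div₀, map_sub, map_add, map_one]
    rw [h1]
    refine ECtQ_alg ?_ ?_ ?_
    · intro h
      apply htm
      apply ι'.injective
      rw [h, map_neg, map_one]
    · intro h
      rw [← hz, ← map_one ι] at h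
      exact hTy.2.1 (ι.injective h)
    · rw [← map_pow, ht, map_div₀, map_sub, map_one, hι', hz]

theorem count_q {N q : ℕ} (hN : N ≠ 0) (h3 : 3 ≤ q) (hq : 2 * q ∣ N) (M : ℕ) {ε : ℝ}
    (hε : 0 < ε) : ∃ A C : ℝ, 0 < A ∧ 1 ≤ C ∧ ∀ D R : ℝ, 1 ≤ D → 1 ≤ R →
      (TSet N M D R (2 * q) 2 (2 * q)).Finite ∧
      ((TSet N M D R (2 * q) 2 (2 * q)).ncard : ℝ) ≤ C * D ^ A * R ^ ε := by
  obtain ⟨A, C, hA, hC, hcnt⟩ := count_d hN h3 ((dvd_mul_left q 2).trans hq) (2 * M) hε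
  have h1lM : (1 : ℝ) ≤ ((2 : ℝ) ^ M) ^ 2 := one_le_pow₀ (one_le_pow₀ (by norm_num))
  have h8 : (1 : ℝ) ≤ 4 ^ ε := Real.one_le_rpow (by norm_num) hε.le
  have hBA : (1 : ℝ) ≤ (((2 : ℝ) ^ M) ^ 2) ^ A := Real.one_le_rpow h1lM hA.le
  refine ⟨((M + 1) * 2 : ℕ) * A, C * (((2 : ℝ) ^ M) ^ 2) ^ A * 4 ^ ε, ?_, ?_,
    fun D R hD hR => ?_⟩
  · have : 0 < (M + 1) * 2 := by positivity
    positivity
  · exact one_le_mul_of_one_le_of_one_le (one_le_mul_of_one_le_of_one_le hC hBA) h8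
  obtain ⟨hD1, hD2⟩ := ECtQ_one_le (M := M) hD
  obtain ⟨hfin, hcard⟩ := hcnt ((D * ((2 : ℝ) * D) ^ M) ^ 2) (4 * R) hD1 (by linarith)
  have hsub := ECtQ_sub (M := M) h3 hq hD hR
  have hfin2 := hfin.image ECtQ_fun
  refine ⟨hfin2.subset hsub, ?_⟩
  have hc1 : (TSet N M D R (2 * q) 2 (2 * q)).ncard ≤
      (TSet N (2 * M) ((D * ((2 : ℝ) * D) ^ M) ^ 2) (4 * R) q q q).ncard :=
    (Set.ncard_le_ncard hsub hfin2).trans (Set.ncard_image_le hfin)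
  have hc2 : ((TSet N M D R (2 * q) 2 (2 * q)).ncard : ℝ) ≤
      ((TSet N (2 * M) ((D * ((2 : ℝ) * D) ^ M) ^ 2) (4 * R) q q q).ncard : ℝ) := by
    exact_mod_cast hc1
  refine hc2.trans (hcard.trans (le_of_eq ?_))
  have hD0 : 0 ≤ D := by linarith
  have hR0 : 0 ≤ R := by linarith
  have e1 : (D * ((2 : ℝ) * D) ^ M) ^ 2 = ((2 : ℝ) ^ M) ^ 2 * D ^ ((M + 1) * 2) := by
    rw [mul_pow (2 : ℝ) D M]
    ring
  rw [e1, Real.mul_rpow (by positivity) (by positivity), Real.mul_rpow (by norm_num) hR0,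
    Real.rpow_mul hD0, Real.rpow_natCast]
  ring

theorem count_f {N : ℕ} (hN : N ≠ 0) (h4 : 4 ∣ N) (M : ℕ) {ε : ℝ} (hε : 0 < ε) :
    ∃ A C : ℝ, 0 < A ∧ 1 ≤ C ∧ ∀ D R : ℝ, 1 ≤ D → 1 ≤ R → (TSet N M D R 4 2 4).Finite ∧
      ((TSet N M D R 4 2 4).ncard : ℝ) ≤ C * D ^ A * R ^ ε := by
  obtain ⟨k, hk⟩ : ∃ k : ℕ, 2 * (M : ℝ) / (2 : ℝ) ^ k ≤ ε := by
    obtain ⟨k, hk⟩ := pow_unbounded_of_one_lt (2 * (M : ℝ) / ε) one_lt_two
    refine ⟨k, ?_⟩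
    have hqk : (0 : ℝ) < (2 : ℝ) ^ k := by positivity
    rw [div_le_iff₀ hqk]
    rw [div_lt_iff₀ hε] at hk
    linarith
  obtain ⟨A₁, hA₁, htow⟩ := qtower k M
  obtain ⟨A₂, C₂, hC₂, hlam⟩ := qlam_count k M (M * 2 ^ k)
  have hA₁' : (1 : ℝ) ≤ A₁ := by exact_mod_cast hA₁
  have hC3 : (1 : ℝ) ≤ ((A₁ : ℝ) ^ A₁) ^ A₂ := one_le_pow₀ (one_le_pow₀ hA₁')
  refine ⟨((2 * A₁ * A₂ : ℕ) : ℝ) + 1, C₂ * ((A₁ : ℝ) ^ A₁) ^ A₂, by positivity,
    one_le_mul_of_one_le_of_one_le hC₂ hC3, fun D R hD hR => ?_⟩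
  have hD0 : 0 < D := by linarith
  have hDD : 1 ≤ (A₁ : ℝ) * D * D :=
    one_le_mul_of_one_le_of_one_le (one_le_mul_of_one_le_of_one_le hA₁' hD) hD
  have hD1 : 1 ≤ ((A₁ : ℝ) * D * D) ^ A₁ := one_le_pow₀ hDD
  have hDle : D ≤ ((A₁ : ℝ) * D * D) ^ A₁ := by
    have h1 : D ≤ (A₁ : ℝ) * D * D := by
      have h2 : D ≤ (A₁ : ℝ) * D := le_mul_of_one_le_left hD0.le hA₁'
      exact h2.trans (le_mul_of_one_le_right (by positivity) hD)
    exact h1.trans (le_self_pow₀ hDD (by omega))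
  obtain ⟨hfin, hcard⟩ := hlam (((A₁ : ℝ) * D * D) ^ A₁) R hD1 hR
  have hsub : TSet N M D R 4 2 4 ⊆ QLamSet k M (M * 2 ^ k) (((A₁ : ℝ) * D * D) ^ A₁) R := by
    rintro z ⟨E, _, _, ι, ζ, A, w, hζ, hME, hDE, hw0, hNw, hwD, hTy, hι, ν, δ, hδ0, hA, hν, hδ⟩
    have h2w : 2 ∣ w := ((by norm_num : (2 : ℕ) ∣ 4).trans h4).trans hNw
    obtain ⟨F, _, _, _, b, hch, hMF, hDF⟩ := htow E hME A w hw0 h2w hTy
    obtain ⟨ι', hι'⟩ := ECtQ_ext (algebraMap E F) ι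
    refine ⟨E, F, inferInstance, inferInstance, inferInstance, inferInstance, inferInstance, ι',
      A, b, hME, hMF, hDE.trans hDle, hDF.trans ?_, hch, (hι' _).trans hι,
      ν, δ, hδ0, hA, hν, hδ⟩
    refine pow_le_pow_left₀ (by positivity) ?_ _
    have h1 : (A₁ : ℝ) * |(discr E : ℝ)| ≤ A₁ * D := mul_le_mul_of_nonneg_left hDE (by positivity)
    exact mul_le_mul h1 hwD (by positivity) (by positivity)
  refine ⟨hfin.subset hsub, ?_⟩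
  have hc1 : ((TSet N M D R 4 2 4).ncard : ℝ) ≤
      (QLamSet k M (M * 2 ^ k) (((A₁ : ℝ) * D * D) ^ A₁) R).ncard := by
    exact_mod_cast Set.ncard_le_ncard hsub hfin
  refine (hc1.trans hcard).trans ?_
  have hD2 : (((A₁ : ℝ) * D * D) ^ A₁) ^ A₂ ≤
      ((A₁ : ℝ) ^ A₁) ^ A₂ * D ^ (((2 * A₁ * A₂ : ℕ) : ℝ) + 1) := by
    have h1 : (((A₁ : ℝ) * D * D) ^ A₁) ^ A₂ = ((A₁ : ℝ) ^ A₁) ^ A₂ * D ^ (2 * A₁ * A₂) := by
      rw [mul_assoc, ← pow_two, mul_pow, mul_pow, ← pow_mul D, ← pow_mul D]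
    rw [h1]
    refine mul_le_mul_of_nonneg_left ?_ (by positivity)
    rw [← Real.rpow_natCast]
    exact Real.rpow_le_rpow_of_exponent_le hD (by linarith)
  have hR2 : R ^ (2 * (M : ℝ) / (2 : ℝ) ^ k) ≤ R ^ ε := Real.rpow_le_rpow_of_exponent_le hR hk
  calc C₂ * (((A₁ : ℝ) * D * D) ^ A₁) ^ A₂ * R ^ (2 * (M : ℝ) / (2 : ℝ) ^ k)
      ≤ C₂ * (((A₁ : ℝ) ^ A₁) ^ A₂ * D ^ (((2 * A₁ * A₂ : ℕ) : ℝ) + 1)) * R ^ ε := by
        refine mul_le_mul (mul_le_mul_of_nonneg_left hD2 (by linarith)) hR2 (by positivity)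
          (by positivity)
    _ = _ := by ring

end FreyCyc
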