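import Pool.Agent.Lib.MP_6babc4_nt.Cy3.ECtL
import Pool.Agent.Lib.MP_6babc4_nt.Cy3.ECtQ

/-!
# Module ECrA: the number of all the numbers of the types that occur

PROOF. The union of the sets `TSet N M D R l l e`, `e, l` divisors `≥ 3` of `N`, and `TSet N M D R (2q) 2 (2q)`,
`2 q ∣ N`, `q ≥ 2` (all `e, l, q ≤ N`: finitely many, at most `(N + 1)^2 + (N + 1)`). For each of them the
bound of `count_l`, `count_q` (`q ≥ 3`) or `count_f` (`q = 2`, `4 ∣ N`) with its own `A` and `C`; take the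
maximum of the `A` (`D ≥ 1`) and `((N + 1)^2 + (N + 1))` times the maximum of the `C`, or the sums. (Finite unions:
`Set.Finite.biUnion`, `Set.ncard_union_le`, an induction on a finset of the triples works as well: a lemma
for a finite family of sets depending on `D, R`.)
-/

set_option autoImplicit false

open Polynomial NumberField IsDedekindDomain Module

namespace FreyCyc

open FreySparse

def USet (N M : ℕ) (D R : ℝ) : Set ℂ :=
  {z | (∃ e l : ℕ, 3 ≤ e ∧ 3 ≤ l ∧ e ∣ N ∧ l ∣ N ∧ z ∈ TSet N M D R l l e) ∨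
    ∃ q : ℕ, 2 ≤ q ∧ 2 * q ∣ N ∧ z ∈ TSet N M D R (2 * q) 2 (2 * q)}

/-- A family of sets with the bound. -/
private def ECrA_G (ε : ℝ) (F : ℝ → ℝ → Set ℂ) : Prop :=
  ∃ A C : ℝ, 0 < A ∧ 1 ≤ C ∧ ∀ D R : ℝ, 1 ≤ D → 1 ≤ R → (F D R).Finite ∧
    ((F D R).ncard : ℝ) ≤ C * D ^ A * R ^ ε

private lemma ECrA_mono {ε : ℝ} {F G : ℝ → ℝ → Set ℂ} (h : ∀ D R, F D R ⊆ G D R)
    (hG : ECrA_G ε G) : ECrA_G ε F := by
  obtain ⟨A, C, hA, hC, hh⟩ := hG
  refine ⟨A, C, hA, hC, fun D R hD hR => ?_⟩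
  obtain ⟨h1, h2⟩ := hh D R hD hR
  refine ⟨h1.subset (h D R), le_trans ?_ h2⟩
  exact_mod_cast Set.ncard_le_ncard (h D R) h1

private lemma ECrA_empty (ε : ℝ) : ECrA_G ε fun _ _ => ∅ := by
  refine ⟨1, 1, one_pos, le_rfl, fun D R hD hR => ⟨Set.finite_empty, ?_⟩⟩
  rw [Set.ncard_empty, Nat.cast_zero]
  have hD0 : 0 ≤ D := by linarith
  have hR0 : 0 ≤ R := by linarith
  exact mul_nonneg (mul_nonneg zero_le_one (Real.rpow_nonneg hD0 _)) (Real.rpow_nonneg hR0 _)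

private lemma ECrA_union {ε : ℝ} {F G : ℝ → ℝ → Set ℂ} (hF : ECrA_G ε F) (hG : ECrA_G ε G) :
    ECrA_G ε fun D R => F D R ∪ G D R := by
  obtain ⟨A, C, hA, hC, hh⟩ := hF
  obtain ⟨A', C', hA', hC', hh'⟩ := hG
  refine ⟨A + A', C + C', by linarith, by linarith, fun D R hD hR => ?_⟩
  obtain ⟨h1, h2⟩ := hh D R hD hR
  obtain ⟨h1', h2'⟩ := hh' D R hD hR
  refine ⟨h1.union h1', ?_⟩
  have h3 : ((F D R ∪ G D R).ncard : ℝ) ≤ (F D R).ncard + (G D R).ncard := by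
    exact_mod_cast Set.ncard_union_le _ _
  have hR0 : 0 ≤ R := by linarith
  have hRε : 0 ≤ R ^ ε := Real.rpow_nonneg hR0 _
  have h4 : D ^ A ≤ D ^ (A + A') := Real.rpow_le_rpow_of_exponent_le hD (by linarith)
  have h5 : D ^ A' ≤ D ^ (A + A') := Real.rpow_le_rpow_of_exponent_le hD (by linarith)
  have h6 : C * D ^ A * R ^ ε ≤ C * D ^ (A + A') * R ^ ε :=
    mul_le_mul_of_nonneg_right (mul_le_mul_of_nonneg_left h4 (by linarith)) hRε
  have h7 : C' * D ^ A' * R ^ ε ≤ C' * D ^ (A + A') * R ^ ε :=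
    mul_le_mul_of_nonneg_right (mul_le_mul_of_nonneg_left h5 (by linarith)) hRε
  calc ((F D R ∪ G D R).ncard : ℝ) ≤ (F D R).ncard + (G D R).ncard := h3
    _ ≤ C * D ^ (A + A') * R ^ ε + C' * D ^ (A + A') * R ^ ε := by linarith
    _ = (C + C') * D ^ (A + A') * R ^ ε := by ring

private lemma ECrA_bUnion {ι : Type} {ε : ℝ} (F : ι → ℝ → ℝ → Set ℂ) (s : Finset ι)
    (h : ∀ i ∈ s, ECrA_G ε (F i)) : ECrA_G ε fun D R => ⋃ i ∈ s, F i D R := by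
  classical
  induction s using Finset.induction_on with
  | empty =>
    refine ECrA_mono (fun D R => ?_) (ECrA_empty ε)
    simp
  | insert a s ha ih =>
    refine ECrA_mono (fun D R => ?_) (ECrA_union (h a (Finset.mem_insert_self a s))
      (ih fun i hi => h i (Finset.mem_insert_of_mem hi)))
    rw [Finset.set_biUnion_insert]

theorem uset_count {N : ℕ} (hN : N ≠ 0) (M : ℕ) {ε : ℝ} (hε : 0 < ε) :
    ∃ A C : ℝ, 0 < A ∧ 1 ≤ C ∧ ∀ D R : ℝ, 1 ≤ D → 1 ≤ R → (USet N M D R).Finite ∧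
      ((USet N M D R).ncard : ℝ) ≤ C * D ^ A * R ^ ε := by
  classical
  obtain ⟨s, hs⟩ : ∃ s : Finset ℕ, ∀ l, l ∈ s ↔ 3 ≤ l ∧ l ∣ N := by
    refine ⟨N.divisors.filter (3 ≤ ·), fun l => ?_⟩
    rw [Finset.mem_filter, Nat.mem_divisors]
    exact ⟨fun h => ⟨h.2, h.1.1⟩, fun h => ⟨⟨h.2, hN⟩, h.1⟩⟩
  obtain ⟨s', hs'⟩ : ∃ s' : Finset ℕ, ∀ q, q ∈ s' ↔ 2 ≤ q ∧ 2 * q ∣ N := by
    refine ⟨N.divisors.filter (fun q => 2 ≤ q ∧ 2 * q ∣ N), fun q => ?_⟩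
    rw [Finset.mem_filter, Nat.mem_divisors]
    exact ⟨fun h => h.2, fun h => ⟨⟨(dvd_mul_left q 2).trans h.2, hN⟩, h⟩⟩
  have h1 : ECrA_G ε fun D R => ⋃ p ∈ s ×ˢ s, TSet N M D R p.2 p.2 p.1 := by
    refine ECrA_bUnion (fun p D R => TSet N M D R p.2 p.2 p.1) (s ×ˢ s) fun p hp => ?_
    obtain ⟨h2, h3⟩ := Finset.mem_product.1 hp
    rw [hs] at h2 h3
    exact count_l hN h3.1 h3.2 h2.1 h2.2 M hε
  have h2 : ECrA_G ε fun D R => ⋃ q ∈ s', TSet N M D R (2 * q) 2 (2 * q) := by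
    refine ECrA_bUnion (fun q D R => TSet N M D R (2 * q) 2 (2 * q)) s' fun q hq => ?_
    rw [hs'] at hq
    rcases Nat.lt_or_ge q 3 with h3 | h3
    · have h4 : q = 2 := by omega
      rw [h4] at hq ⊢
      exact count_f hN hq.2 M hε
    · exact count_q hN h3 hq.2 M hε
  refine ECrA_mono (fun D R => ?_) (ECrA_union h1 h2)
  rintro z (⟨e, l, he, hl, heN, hlN, hz⟩ | ⟨q, hq, hqN, hz⟩)
  · refine Or.inl (Set.mem_biUnion (x := (e, l)) ?_ hz)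
    rw [Finset.mem_coe, Finset.mem_product, hs, hs]
    exact ⟨⟨he, heN⟩, hl, hlN⟩
  · refine Or.inr (Set.mem_biUnion (x := q) ?_ hz)
    rw [Finset.mem_coe, hs']
    exact ⟨hq, hqN⟩

end FreyCyc
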