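import Pool.Agent.Lib.MP_6babc4_nt.Cy3.EPreL
import Pool.Agent.Lib.MP_6babc4_nt.Cyc.Lam

/-!
# Module ECtD: the number of the numbers of type `(q, q, q)`, `q ≥ 3`

`TSet N M D R e₀ e₁ e₂`: the complex numbers `ι A`, `A` in a number field `E` of degree `≤ M` and discriminant `≤ D`
containing the `N`-th roots of unity, of type `(e₀, e₁, e₂)` outside `w ≤ D`, `A` the quotient of two integers
with conjugates `≤ R`.

PROOF of `count_d` (as in CrC.lean). Choose `k` with `2 M / q^k ≤ ε`; `A₁` from `tower h3 k M` (Cyc/Tow), `A₂, C₂`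
from `lam_count h3 k M (M q^(2k))` (Cyc/Lam). For an element with data `E, ι, ζ, A, w` put `ζ' = ζ^(N/q)`, a
primitive `q`-th root of unity (`IsPrimitiveRoot.pow`); `q ∣ N ∣ w`; the hypothesis of `tower`: for `w ∉ P`
`q ∣ ord P A` and `q ∣ ord P (A - 1)`: if `ord P A < 0` then `ord P (A - 1) = ord P A` (`le_ord_add` for
`A = (A - 1) + 1` and `A - 1 = A + (-1)`); if it is not negative, `ord P (A - 1) ≥ 0`, and `0` is divisible by `q`.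
So there are `F ⊇ E`, `b` and the chain; extend `ι` to `F → ℂ` (`CrC_ext`, private in CrC: copy it); `ι A` is in
`LamSet q k M (M q^(2k)) D' R` for `D' = D + (A₁ D D)^A₁`, so the number is at most
`C₂ D'^A₂ R^(2 M / q^k) ≤ C D^(...) R^ε`.
`tset_mono`: larger `M, D, R`.
-/

set_option autoImplicit false

open Polynomial NumberField IsDedekindDomain Module

namespace FreyCyc

open FreySparse

def TSet (N M : ℕ) (D R : ℝ) (e₀ e₁ e₂ : ℕ) : Set ℂ :=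
  {z | ∃ (E : Type) (_ : Field E) (_ : NumberField E) (ι : E →+* ℂ) (ζ A : E) (w : ℕ),
    IsPrimitiveRoot ζ N ∧ finrank ℚ E ≤ M ∧ |(discr E : ℝ)| ≤ D ∧ w ≠ 0 ∧ N ∣ w ∧ (w : ℝ) ≤ D ∧
      Ty w e₀ e₁ e₂ A ∧ ι A = z ∧ ∃ ν δ : 𝓞 E, δ ≠ 0 ∧ A = (ν : E) / δ ∧
        (∀ τ : E →+* ℂ, ‖τ ν‖ ≤ R) ∧ ∀ τ : E →+* ℂ, ‖τ δ‖ ≤ R}

private lemma ECtD_ext {L F : Type} [Field L] [NumberField L] [Field F] [NumberField F]
    (g : L →+* F) (τ : L →+* ℂ) : ∃ ι : F →+* ℂ, ∀ x, ι (g x) = τ x := by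
  let _ : Algebra L F := g.toAlgebra
  let _ : Algebra L ℂ := τ.toAlgebra
  have hA : Algebra.IsAlgebraic L F := Algebra.IsAlgebraic.tower_top (K := ℚ) L
  let ι : F →ₐ[L] ℂ := IsAlgClosed.lift
  exact ⟨ι.toRingHom, fun x => ι.commutes x⟩

private lemma ECtD_dvd {E : Type} [Field E] [NumberField E] {w q : ℕ} {A : E}
    (h : Ty w q q q A) (P : HeightOneSpectrum (𝓞 E)) (hP : (w : 𝓞 E) ∉ P.asIdeal) :
    (q : ℤ) ∣ ord P A ∧ (q : ℤ) ∣ ord P (A - 1) := by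
  obtain ⟨h0, h1, h2⟩ := h
  obtain ⟨ha, hb, hc⟩ := h2 P hP
  have h3 : A - 1 ≠ 0 := sub_ne_zero.2 h1
  have h4 : min (ord P (A - 1)) (ord P (1 : E)) ≤ ord P A := by
    have h5 := le_ord_add P (x := A - 1) (y := (1 : E)) h3 one_ne_zero
      (by rw [sub_add_cancel]; exact h0)
    rwa [sub_add_cancel] at h5
  have h6 : min (ord P A) (ord P (1 : E)) ≤ ord P (A - 1) := by
    have h5 := le_ord_add P (x := A) (y := (-1 : E)) h0 (neg_ne_zero.2 one_ne_zero)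
      (by rw [← sub_eq_add_neg]; exact h3)
    rwa [← sub_eq_add_neg, ord_neg] at h5
  rw [ord_one] at h4 h6
  constructor
  · rcases lt_trichotomy (ord P A) 0 with h | h | h
    · exact hc h
    · rw [h]
      exact dvd_zero _
    · exact ha h
  · rcases lt_trichotomy (ord P (A - 1)) 0 with h | h | h
    · have h7 : ord P A = ord P (A - 1) := by
        rcases min_cases (ord P (A - 1)) 0 with ⟨h8, h9⟩ | ⟨h8, h9⟩ <;>
        rcases min_cases (ord P A) 0 with ⟨h10, h11⟩ | ⟨h10, h11⟩ <;> omega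
      rw [← h7]
      exact hc (by omega)
    · rw [h]
      exact dvd_zero _
    · exact hb h

theorem count_d {N q : ℕ} (hN : N ≠ 0) (h3 : 3 ≤ q) (hq : q ∣ N) (M : ℕ) {ε : ℝ} (hε : 0 < ε) :
    ∃ A C : ℝ, 0 < A ∧ 1 ≤ C ∧ ∀ D R : ℝ, 1 ≤ D → 1 ≤ R → (TSet N M D R q q q).Finite ∧
      ((TSet N M D R q q q).ncard : ℝ) ≤ C * D ^ A * R ^ ε := by
  obtain ⟨k, hk⟩ : ∃ k : ℕ, 2 * (M : ℝ) / (q : ℝ) ^ k ≤ ε := by
    have hq1 : (1 : ℝ) < q := by exact_mod_cast (by omega : 1 < q)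
    obtain ⟨k, hk⟩ := pow_unbounded_of_one_lt (2 * (M : ℝ) / ε) hq1
    refine ⟨k, ?_⟩
    have hqk : (0 : ℝ) < (q : ℝ) ^ k := by positivity
    rw [div_le_iff₀ hqk]
    rw [div_lt_iff₀ hε] at hk
    linarith
  obtain ⟨A₁, hA₁, htow⟩ := tower h3 k M
  obtain ⟨A₂, C₂, hC₂, hlam⟩ := lam_count h3 k M (M * q ^ (2 * k))
  have hA₁' : (1 : ℝ) ≤ A₁ := by exact_mod_cast hA₁
  have hC3 : (1 : ℝ) ≤ ((A₁ : ℝ) ^ A₁) ^ A₂ := one_le_pow₀ (one_le_pow₀ hA₁')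
  refine ⟨((2 * A₁ * A₂ : ℕ) : ℝ) + 1, C₂ * ((A₁ : ℝ) ^ A₁) ^ A₂, by positivity,
    one_le_mul_of_one_le_of_one_le hC₂ hC3, fun D R hD hR => ?_⟩
  have hD0 : 0 < D := by linarith
  have hDD : 1 ≤ (A₁ : ℝ) * D * D :=
    one_le_mul_of_one_le_of_one_le (one_le_mul_of_one_le_of_one_le hA₁' hD) hD
  have hD1 : 1 ≤ ((A₁ : ℝ) * D * D) ^ A₁ := one_le_pow₀ hDD
  have hDle : D ≤ ((A₁ : ℝ) * D * D) ^ A₁ := by
    have h1 : D ≤ (A₁ : ℝ) * D * D := by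
      have h2 : D ≤ (A₁ : ℝ) * D := le_mul_of_one_le_left hD0.le hA₁'
      exact h2.trans (le_mul_of_one_le_right (by positivity) hD)
    exact h1.trans (le_self_pow₀ hDD (by omega))
  obtain ⟨hfin, hcard⟩ := hlam (((A₁ : ℝ) * D * D) ^ A₁) R hD1 hR
  have hsub : TSet N M D R q q q ⊆ LamSet q k M (M * q ^ (2 * k)) (((A₁ : ℝ) * D * D) ^ A₁) R := by
    rintro z ⟨E, _, _, ι, ζ, A, w, hζ, hME, hDE, hw0, hNw, hwD, hTy, hι, ν, δ, hδ0, hA, hν, hδ⟩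
    have hζ' : IsPrimitiveRoot (ζ ^ (N / q)) q :=
      hζ.pow (Nat.pos_of_ne_zero hN) (Nat.div_mul_cancel hq).symm
    obtain ⟨F, _, _, _, b, hch, hMF, hDF⟩ := htow E hME _ hζ' A hTy.1 hTy.2.1 w hw0
      (hq.trans hNw) (fun P hP => ECtD_dvd hTy P hP)
    obtain ⟨ι', hι'⟩ := ECtD_ext (algebraMap E F) ι
    refine ⟨E, F, inferInstance, inferInstance, inferInstance, inferInstance, inferInstance, ι',
      ζ ^ (N / q), A, b, hζ', hME, hMF, hDE.trans hDle, hDF.trans ?_, hch, (hι' _).trans hι,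
      ν, δ, hδ0, hA, hν, hδ⟩
    refine pow_le_pow_left₀ (by positivity) ?_ _
    have h1 : (A₁ : ℝ) * |(discr E : ℝ)| ≤ A₁ * D := mul_le_mul_of_nonneg_left hDE (by positivity)
    exact mul_le_mul h1 hwD (by positivity) (by positivity)
  refine ⟨hfin.subset hsub, ?_⟩
  have hc1 : ((TSet N M D R q q q).ncard : ℝ) ≤
      (LamSet q k M (M * q ^ (2 * k)) (((A₁ : ℝ) * D * D) ^ A₁) R).ncard := by
    exact_mod_cast Set.ncard_le_ncard hsub hfin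
  refine (hc1.trans hcard).trans ?_
  have hD2 : (((A₁ : ℝ) * D * D) ^ A₁) ^ A₂ ≤
      ((A₁ : ℝ) ^ A₁) ^ A₂ * D ^ (((2 * A₁ * A₂ : ℕ) : ℝ) + 1) := by
    have h1 : (((A₁ : ℝ) * D * D) ^ A₁) ^ A₂ = ((A₁ : ℝ) ^ A₁) ^ A₂ * D ^ (2 * A₁ * A₂) := by
      rw [mul_assoc, ← pow_two, mul_pow, mul_pow, ← pow_mul D, ← pow_mul D]
    rw [h1]
    refine mul_le_mul_of_nonneg_left ?_ (by positivity)
    rw [← Real.rpow_natCast]
    exact Real.rpow_le_rpow_of_exponent_le hD (by linarith)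
  have hR2 : R ^ (2 * (M : ℝ) / (q : ℝ) ^ k) ≤ R ^ ε := Real.rpow_le_rpow_of_exponent_le hR hk
  calc C₂ * (((A₁ : ℝ) * D * D) ^ A₁) ^ A₂ * R ^ (2 * (M : ℝ) / (q : ℝ) ^ k)
      ≤ C₂ * (((A₁ : ℝ) ^ A₁) ^ A₂ * D ^ (((2 * A₁ * A₂ : ℕ) : ℝ) + 1)) * R ^ ε := by
        refine mul_le_mul (mul_le_mul_of_nonneg_left hD2 (by linarith)) hR2 (by positivity)
          (by positivity)
    _ = _ := by ring

end FreyCyc
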