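import Pool.Agent.Lib.MP_6babc4_nt.Cy3.ECtD

/-!
# Module ECtL: the number of the numbers of type `(l, l, e)`, `l, e ≥ 3`

PROOF. Let `z = ι A` with data `E, ι, ζ, A, w` for `TSet N M D R l l e`, `ζ_l = ζ^(N/l)`. `pre_l` gives `E' ⊇ E`, `t`;
`a' = stp ζ_l t` has type `(e, e, e)`, is a quotient of integers with conjugates `≤ 8R`, `[E' : ℚ] ≤ l M`,
`|discr E'| ≤ (D (l D)^M)^l =: D'` (`D ≤ D'`); the image of `ζ` in `E'` is a primitive `N`-th root of unity. Extend `ι`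
to `ι' : E' → ℂ` (`CrC_ext`, private in Cyc/CrC: copy it). Then `z' = ι' a' ∈ TSet N (l M) D' (8R) e e e` and with
`u = ι ζ_l`, `t' = ι' t`: `z' = u (t' - 1) / ((1 + u)(t' - u))`, `t'^l = z / (z - 1)`, so `z` is determined by `(u, z')`:
`t' = u (z' (1 + u) - 1) / (z' (1 + u) - u)` and `z = t'^l / (t'^l - 1)`. So `TSet N M D R l l e` is contained in
the union over the `l` roots of unity `u` of the images of `TSet N (l M) D' (8R) e e e` under these maps, and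
`count_d` (with `M' = l M`) gives the bound `l C D'^A (8R)^ε`.
-/

set_option autoImplicit false

open Polynomial NumberField IsDedekindDomain Module

namespace FreyCyc

open FreySparse

private lemma ECtL_ext {L F : Type} [Field L] [NumberField L] [Field F] [NumberField F]
    (g : L →+* F) (τ : L →+* ℂ) : ∃ ι : F →+* ℂ, ∀ x, ι (g x) = τ x := by
  let _ : Algebra L F := g.toAlgebra
  let _ : Algebra L ℂ := τ.toAlgebra
  have hA : Algebra.IsAlgebraic L F := Algebra.IsAlgebraic.tower_top (K := ℚ) L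
  let ι : F →ₐ[L] ℂ := IsAlgClosed.lift
  exact ⟨ι.toRingHom, fun x => ι.commutes x⟩

/-- The number `z` in terms of `u` and `z'`. -/
private noncomputable def ECtL_fun (l : ℕ) (p : ℂ × ℂ) : ℂ :=
  (p.1 * (p.2 * (1 + p.1) - 1) / (p.2 * (1 + p.1) - p.1)) ^ l /
    ((p.1 * (p.2 * (1 + p.1) - 1) / (p.2 * (1 + p.1) - p.1)) ^ l - 1)

private lemma ECtL_alg {l : ℕ} {u t z : ℂ} (hu0 : u ≠ 0) (hu1 : u ≠ 1) (hu : 1 + u ≠ 0)
    (htu : t ≠ u) (hz1 : z ≠ 1) (ht : t ^ l = z / (z - 1)) : ECtL_fun l (u, stp u t) = z := by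
  have h1 : t - u ≠ 0 := sub_ne_zero.mpr htu
  have h2 : z - 1 ≠ 0 := sub_ne_zero.mpr hz1
  have h3 : stp u t * (1 + u) = u * (t - 1) / (t - u) := by
    unfold stp
    field_simp
  have h4 : u - 1 ≠ 0 := sub_ne_zero.mpr hu1
  have h5 : u * (stp u t * (1 + u) - 1) / (stp u t * (1 + u) - u) = t := by
    rw [h3]
    have h6 : u * (t - 1) / (t - u) - 1 = t * (u - 1) / (t - u) := by
      field_simp
      ring
    have h7 : u * (t - 1) / (t - u) - u = u * (u - 1) / (t - u) := by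
      field_simp
      ring
    rw [h6, h7]
    field_simp
  unfold ECtL_fun
  show (u * (stp u t * (1 + u) - 1) / (stp u t * (1 + u) - u)) ^ l /
    ((u * (stp u t * (1 + u) - 1) / (stp u t * (1 + u) - u)) ^ l - 1) = z
  rw [h5, ht]
  have h8 : z / (z - 1) - 1 = 1 / (z - 1) := by
    field_simp
    ring
  rw [h8]
  field_simp

private lemma ECtL_one_le {l M : ℕ} (hl3 : 3 ≤ l) {D : ℝ} (hD : 1 ≤ D) :
    1 ≤ (D * ((l : ℝ) * D) ^ M) ^ l ∧ D ≤ (D * ((l : ℝ) * D) ^ M) ^ l := by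
  have h1 : (1 : ℝ) ≤ l := by exact_mod_cast (by omega : 1 ≤ l)
  have h2 : 1 ≤ ((l : ℝ) * D) ^ M := one_le_pow₀ (one_le_mul_of_one_le_of_one_le h1 hD)
  have h3 : D ≤ D * ((l : ℝ) * D) ^ M := le_mul_of_one_le_right (by linarith) h2
  have h4 : D * ((l : ℝ) * D) ^ M ≤ (D * ((l : ℝ) * D) ^ M) ^ l :=
    le_self_pow₀ (by linarith) (by omega)
  exact ⟨by linarith, by linarith⟩

private lemma ECtL_sub {N l e M : ℕ} (hN : N ≠ 0) (hl3 : 3 ≤ l) (hl : l ∣ N) (he3 : 3 ≤ e)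
    {D R : ℝ} (hD : 1 ≤ D) (hR : 1 ≤ R) :
    TSet N M D R l l e ⊆ ECtL_fun l '' ({u : ℂ | u ^ l = 1} ×ˢ
      TSet N (l * M) ((D * ((l : ℝ) * D) ^ M) ^ l) (8 * R) e e e) := by
  rintro z ⟨E, _, _, ι, ζ, A, w, hζ, hM, hDE, hw0, hNw, hwD, hTy, hz, ν, δ, hδ0, hνδ, hν, hδ⟩
  have hζl : IsPrimitiveRoot (ζ ^ (N / l)) l :=
    hζ.pow (Nat.pos_of_ne_zero hN) (Nat.div_mul_cancel hl).symm
  obtain ⟨E', _, _, _, t, ht, hTy', hM', hD', ν', δ', hδ0', hνδ', hν', hδ'⟩ :=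
    pre_l hl3 (by omega) hw0 (hl.trans hNw) hζl hTy hδ0 hνδ hR hν hδ
  obtain ⟨ι', hι'⟩ := ECtL_ext (algebraMap E E') ι
  have h1l : (1 : ℝ) ≤ l := by exact_mod_cast (by omega : 1 ≤ l)
  obtain ⟨hD1, hD2⟩ := ECtL_one_le (M := M) hl3 hD
  obtain ⟨u, hu⟩ : ∃ u : ℂ, u = ι (ζ ^ (N / l)) := ⟨_, rfl⟩
  have hup : IsPrimitiveRoot u l := by
    rw [hu]
    exact hζl.map_of_injective ι.injective
  have hu0 : u ≠ 0 := hup.ne_zero (by omega)
  have hu1 : u ≠ 1 := hup.ne_one (by omega)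
  have huu : 1 + u ≠ 0 := one_add_ne hl3 hup
  have hζ' : IsPrimitiveRoot (algebraMap E E' (ζ ^ (N / l))) l :=
    hζl.map_of_injective (algebraMap E E').injective
  have hA1 : algebraMap E E' A ≠ 1 := by
    intro h
    rw [← map_one (algebraMap E E')] at h
    exact hTy.2.1 ((algebraMap E E').injective h)
  have htz : t ≠ algebraMap E E' (ζ ^ (N / l)) := by
    have := t_ne hζ' hA1 ht 1
    rwa [pow_one] at this
  have hut : ι' (algebraMap E E' (ζ ^ (N / l))) = u := by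
    rw [hι', hu]
  refine ⟨(u, ι' (stp (algebraMap E E' (ζ ^ (N / l))) t)), ⟨hup.pow_eq_one, ?_⟩, ?_⟩
  · refine ⟨E', inferInstance, inferInstance, ι', algebraMap E E' ζ, _, w,
      hζ.map_of_injective (algebraMap E E').injective, ?_, ?_, hw0, hNw, hwD.trans hD2, hTy', rfl,
      ν', δ', hδ0', hνδ', hν', hδ'⟩
    · exact hM'.trans (Nat.mul_le_mul_left _ hM)
    · refine hD'.trans (pow_le_pow_left₀ (by positivity) ?_ _)
      refine mul_le_mul hDE ?_ (by positivity) (by linarith)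
      refine (pow_le_pow_left₀ (by positivity)
        (mul_le_mul_of_nonneg_left hwD (by linarith)) _).trans ?_
      exact pow_le_pow_right₀ (one_le_mul_of_one_le_of_one_le h1l hD) hM
  · have h1 : ι' (stp (algebraMap E E' (ζ ^ (N / l))) t) = stp u (ι' t) := by
      unfold stp
      rw [map_div₀, map_mul, map_sub, map_mul, map_add, map_sub, map_one, hut]
    rw [h1]
    refine ECtL_alg hu0 hu1 huu ?_ ?_ ?_
    · intro h
      rw [← hut] at h
      exact htz (ι'.injective h)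
    · intro h
      rw [← hz, ← map_one ι] at h
      exact hTy.2.1 (ι.injective h)
    · rw [← map_pow, ht, map_div₀, map_sub, map_one, hι', hz]

theorem count_l {N l e : ℕ} (hN : N ≠ 0) (hl3 : 3 ≤ l) (hl : l ∣ N) (he3 : 3 ≤ e) (he : e ∣ N)
    (M : ℕ) {ε : ℝ} (hε : 0 < ε) :
    ∃ A C : ℝ, 0 < A ∧ 1 ≤ C ∧ ∀ D R : ℝ, 1 ≤ D → 1 ≤ R → (TSet N M D R l l e).Finite ∧
      ((TSet N M D R l l e).ncard : ℝ) ≤ C * D ^ A * R ^ ε := by
  classical
  obtain ⟨A, C, hA, hC, hcnt⟩ := count_d hN he3 he (l * M) hε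
  have h1l : (1 : ℝ) ≤ l := by exact_mod_cast (by omega : 1 ≤ l)
  have h1lM : (1 : ℝ) ≤ ((l : ℝ) ^ M) ^ l := one_le_pow₀ (one_le_pow₀ h1l)
  have h8 : (1 : ℝ) ≤ 8 ^ ε := Real.one_le_rpow (by norm_num) hε.le
  have hBA : (1 : ℝ) ≤ (((l : ℝ) ^ M) ^ l) ^ A := Real.one_le_rpow h1lM hA.le
  refine ⟨((M + 1) * l : ℕ) * A, l * C * (((l : ℝ) ^ M) ^ l) ^ A * 8 ^ ε, ?_, ?_,
    fun D R hD hR => ?_⟩
  · have : 0 < (M + 1) * l := by positivity
    positivity
  · exact one_le_mul_of_one_le_of_one_le (one_le_mul_of_one_le_of_one_le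
      (one_le_mul_of_one_le_of_one_le h1l hC) hBA) h8
  obtain ⟨hD1, hD2⟩ := ECtL_one_le (M := M) hl3 hD
  obtain ⟨hfin, hcard⟩ := hcnt ((D * ((l : ℝ) * D) ^ M) ^ l) (8 * R) hD1 (by linarith)
  have hroots : {u : ℂ | u ^ l = 1} = ((nthRoots l (1 : ℂ)).toFinset : Set ℂ) := by
    ext u
    rw [Finset.mem_coe, Multiset.mem_toFinset, mem_nthRoots (by omega)]
    exact Iff.rfl
  have hrf : {u : ℂ | u ^ l = 1}.Finite := by
    rw [hroots]
    exact Finset.finite_toSet _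
  have hrc : {u : ℂ | u ^ l = 1}.ncard ≤ l := by
    rw [hroots, Set.ncard_coe_finset]
    exact (Multiset.toFinset_card_le _).trans (card_nthRoots _ _)
  have hsub := ECtL_sub (M := M) hN hl3 hl he3 hD hR
  have hfin2 := (hrf.prod hfin).image (ECtL_fun l)
  refine ⟨hfin2.subset hsub, ?_⟩
  have hc1 : (TSet N M D R l l e).ncard ≤
      l * (TSet N (l * M) ((D * ((l : ℝ) * D) ^ M) ^ l) (8 * R) e e e).ncard := by
    refine (Set.ncard_le_ncard hsub hfin2).trans ?_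
    refine (Set.ncard_image_le (hrf.prod hfin)).trans ?_
    rw [Set.ncard_prod]
    exact Nat.mul_le_mul_right _ hrc
  have hc2 : ((TSet N M D R l l e).ncard : ℝ) ≤
      l * ((TSet N (l * M) ((D * ((l : ℝ) * D) ^ M) ^ l) (8 * R) e e e).ncard : ℝ) := by
    exact_mod_cast hc1
  refine hc2.trans ?_
  refine (mul_le_mul_of_nonneg_left hcard (by linarith)).trans (le_of_eq ?_)
  have hD0 : 0 ≤ D := by linarith
  have hR0 : 0 ≤ R := by linarith
  have e1 : (D * ((l : ℝ) * D) ^ M) ^ l = ((l : ℝ) ^ M) ^ l * D ^ ((M + 1) * l) := by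
    rw [mul_pow (l : ℝ), pow_mul D, pow_succ, mul_pow, mul_pow, mul_pow]
    ring
  rw [e1, Real.mul_rpow (by positivity) (by positivity), Real.mul_rpow (by norm_num) hR0,
    Real.rpow_mul hD0, Real.rpow_natCast]
  ring

end FreyCyc
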