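import Pool.Agent.Lib.MP_6babc4_nt.Cy3.EKMain
import Pool.Agent.Lib.MP_6babc4_nt.Cyc.KFld

/-!
# Module EFin: all the number fields of degree `d` at once; all `κ`

PROOF. `allCount`: `countE` (EKMain) for each `K` in `SubF ℚ d Y` (`subF_count`). `allFrey`: for a curve with
`height > κ log (|D_K| condE) + c` and `c ≥ C` (`height_le`) `|D_K| condE ≤ H^(C₁/κ)`.
-/

set_option autoImplicit false

open Polynomial NumberField IsDedekindDomain Module

namespace FreyCyc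

open FreySparse

private lemma EFin_one {N : ℕ} {K : Type} [Field K] [NumberField K] (f : ℕ → (𝓞 K)[X]) :
    1 ≤ |(NumberField.discr K : ℝ)| * condE N f ∧
      |(NumberField.discr K : ℝ)| ≤ |(NumberField.discr K : ℝ)| * condE N f := by
  have hD : 1 ≤ |(NumberField.discr K : ℝ)| := by
    have h := Int.one_le_abs (NumberField.discr_ne_zero K)
    rw [← Int.cast_abs]
    exact_mod_cast h
  have hcd : (1 : ℝ) ≤ condE N f := by exact_mod_cast condE_pos N f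
  exact ⟨one_le_mul_of_one_le_of_one_le hD hcd, le_mul_of_one_le_right (by linarith) hcd⟩

private lemma EFin_vio {N : ℕ} {κ c C C₁ : ℝ} (hκ : 0 < κ) (hc : C ≤ c) {K : Type} [Field K]
    [NumberField K] {H : ℝ} (hH : 1 ≤ H) {f : ℕ → (𝓞 K)[X]}
    (hh : height N f ≤ C₁ * Real.log H + C) (hF : ¬ FreyE N κ c f) :
    |(NumberField.discr K : ℝ)| * condE N f ≤ H ^ (C₁ / κ) := by
  unfold FreyE at hF
  push Not at hF
  have h1 : κ * Real.log (|(NumberField.discr K : ℝ)| * condE N f) < C₁ * Real.log H := by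
    linarith
  have hpos : 0 < |(NumberField.discr K : ℝ)| * condE N f :=
    lt_of_lt_of_le one_pos (EFin_one f).1
  have hH0 : 0 < H := by linarith
  have h2 : Real.log (|(NumberField.discr K : ℝ)| * condE N f) < C₁ / κ * Real.log H := by
    have h3 : C₁ / κ * Real.log H = (C₁ * Real.log H) / κ := by ring
    rw [h3, lt_div_iff₀ hκ]
    linarith
  rw [← Real.log_rpow hH0] at h2
  exact ((Real.log_lt_log_iff hpos (Real.rpow_pos_of_pos hH0 _)).1 h2).le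

private lemma EFin_sub (inst : Algebra ℚ (AlgebraicClosure ℚ)) {d A₂ : ℕ} {C₂ Y : ℝ}
    (hfin : (SubF ℚ d Y).Finite) (hcard : ((SubF ℚ d Y).ncard : ℝ) ≤ C₂ * Y ^ A₂) :
    ∃ 𝒦 : Finset (@IntermediateField ℚ (AlgebraicClosure ℚ) _ _ inst),
      (𝒦.card : ℝ) ≤ C₂ * Y ^ A₂ ∧
      ∀ (K : @IntermediateField ℚ (AlgebraicClosure ℚ) _ _ inst) [NumberField K],
        finrank ℚ K = d → |(discr K : ℝ)| ≤ Y → K ∈ 𝒦 := by
  obtain rfl : inst = AlgebraicClosure.instAlgebra ℚ := Subsingleton.elim _ _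
  refine ⟨hfin.toFinset, ?_, ?_⟩
  · rw [← Set.ncard_eq_toFinset_card _ hfin]
    exact hcard
  · intro K _ hd hD
    rw [Set.Finite.mem_toFinset]
    exact ⟨K, inferInstance, inferInstance, inferInstance, K.val, hd.le, hD,
      (IntermediateField.fieldRange_val K).symm⟩

/-- The number of the curves, over all the number fields of degree `d`, with coefficients in
`Box K H` and `|D_K| condE N f ≤ Y`, up to isomorphism over `K`. -/
theorem allCount (d n N : ℕ) (hN : 3 ≤ N) (hn : 3 ≤ n) {ε : ℝ} (hε : 0 < ε) :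
    ∃ A C : ℝ, 0 < A ∧ 1 ≤ C ∧ ∀ H Y : ℝ, 1 ≤ H → 1 ≤ Y →
      ∃ (𝒦 : Finset (IntermediateField ℚ (AlgebraicClosure ℚ)))
        (T : ∀ K : IntermediateField ℚ (AlgebraicClosure ℚ), Finset (ℕ → (𝓞 K)[X])),
        (∑ K ∈ 𝒦, ((T K).card : ℝ)) ≤ C * Y ^ A * H ^ ε ∧
        ∀ (K : IntermediateField ℚ (AlgebraicClosure ℚ)) [NumberField K], finrank ℚ K = d →
          ∀ f ∈ FamE K N n H, |(discr K : ℝ)| * condE N f ≤ Y →
            K ∈ 𝒦 ∧ ∃ g ∈ T K, IsoK N f g := by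
  classical
  obtain ⟨A, C, hA, hC, h0⟩ := countE d n N hN hn hε
  obtain ⟨A₂, C₂, hC₂, hsub⟩ := subF_count d
  refine ⟨A + A₂, C₂ * C, by positivity, one_le_mul_of_one_le_of_one_le hC₂ hC,
    fun H Y hH hY => ?_⟩
  have hH0 : 0 < H := by linarith
  have hY0 : 0 < Y := by linarith
  obtain ⟨hfin, hcard⟩ := hsub ℚ Y hY
  have hCY : 0 ≤ C * Y ^ A * H ^ ε := by
    have h1 : 0 ≤ Y ^ A := (Real.rpow_pos_of_pos hY0 _).le
    have h2 : 0 ≤ H ^ ε := (Real.rpow_pos_of_pos hH0 _).le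
    exact mul_nonneg (mul_nonneg (by linarith) h1) h2
  have hT : ∀ K : IntermediateField ℚ (AlgebraicClosure ℚ), ∃ T : Finset (ℕ → (𝓞 K)[X]),
      (T.card : ℝ) ≤ C * Y ^ A * H ^ ε ∧ ∀ [NumberField K], finrank ℚ K = d →
        ∀ f ∈ FamE K N n H, |(discr K : ℝ)| * condE N f ≤ Y → ∃ g ∈ T, IsoK N f g := by
    intro K
    by_cases hK : NumberField K
    · by_cases hd : finrank ℚ K = d
      · obtain ⟨T, hT1, hT2⟩ := h0 K hd H Y hH hY
        refine ⟨T, hT1, ?_⟩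
        intro _ _
        exact hT2
      · refine ⟨∅, ?_, ?_⟩
        · rw [Finset.card_empty, Nat.cast_zero]
          exact hCY
        · intro _ hd'
          exact absurd hd' hd
    · refine ⟨∅, ?_, ?_⟩
      · rw [Finset.card_empty, Nat.cast_zero]
        exact hCY
      · intro h _
        exact absurd h hK
  choose T hT1 hT2 using hT
  obtain ⟨𝒦, h𝒦1, h𝒦2⟩ := EFin_sub _ hfin hcard
  refine ⟨𝒦, T, ?_, ?_⟩
  · have h1 : (∑ K ∈ 𝒦, ((T K).card : ℝ)) ≤ (𝒦.card : ℝ) * (C * Y ^ A * H ^ ε) := by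
      rw [← nsmul_eq_mul]
      exact Finset.sum_le_card_nsmul _ _ _ (fun K _ => hT1 K)
    refine h1.trans ((mul_le_mul_of_nonneg_right h𝒦1 hCY).trans (le_of_eq ?_))
    rw [Real.rpow_add hY0, Real.rpow_natCast]
    ring
  · intro K _ hd f hf hF
    exact ⟨h𝒦2 K hd ((EFin_one f).2.trans hF), hT2 K hd f hf hF⟩

/-- Frey's inequality, for all `κ > 0`. -/
theorem allFrey (d n N : ℕ) (hN : 3 ≤ N) (hn : 3 ≤ n) {ε : ℝ} (hε : 0 < ε) :
    ∃ B c : ℝ, 0 < B ∧ ∀ κ : ℝ, 0 < κ → ∀ H : ℝ, 1 ≤ H →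
      ∃ (𝒦 : Finset (IntermediateField ℚ (AlgebraicClosure ℚ)))
        (T : ∀ K : IntermediateField ℚ (AlgebraicClosure ℚ), Finset (ℕ → (𝓞 K)[X])),
        (∑ K ∈ 𝒦, ((T K).card : ℝ)) ≤ c * H ^ (B / κ + ε) ∧
        ∀ (K : IntermediateField ℚ (AlgebraicClosure ℚ)) [NumberField K], finrank ℚ K = d →
          ∀ f ∈ FamE K N n H, ¬ FreyE N κ c f → K ∈ 𝒦 ∧ ∃ g ∈ T K, IsoK N f g := by
  obtain ⟨A, C, hA, hC, h0⟩ := allCount d n N hN hn hε
  obtain ⟨C₁, C', hC₁, hC', hh⟩ := height_le n N 1 hn (by omega)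
  refine ⟨A * C₁, C + C', by positivity, fun κ hκ H hH => ?_⟩
  have hH0 : 0 < H := by linarith
  obtain ⟨𝒦, T, h1, h2⟩ := h0 H (H ^ (C₁ / κ)) hH (Real.one_le_rpow hH (by positivity))
  refine ⟨𝒦, T, h1.trans ?_, fun K _ hd f hf hF => h2 K hd f hf
    (EFin_vio hκ (by linarith) hH (hh K H hH f (mem_famE hf)) hF)⟩
  have h3 : C * (H ^ (C₁ / κ)) ^ A * H ^ ε = C * H ^ (A * C₁ / κ + ε) := by
    rw [← Real.rpow_mul hH0.le, mul_assoc, ← Real.rpow_add hH0]
    congr 2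
    ring
  rw [h3]
  exact mul_le_mul_of_nonneg_right (by linarith) (Real.rpow_pos_of_pos hH0 _).le

end FreyCyc
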