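import Pool.Agent.Lib.MP_6babc4_nt.Cy3.ETyp
import Pool.Agent.Lib.MP_6babc4_nt.Cyc.Tow

/-!
# Module EPreL: the first step for the type `(l, l, e)`

PROOF. `A` has type `(l, l, e)`, `ζ` is a primitive `l`-th root of unity in `E`, `l ∣ w`. `b = A / (A - 1)`: at `P ∌ w`
`ord P b = ord P A - ord P (A - 1)`: if `ord P A > 0` then `ord P (A - 1) = 0` and `l ∣ ord P b`; if
`ord P (A - 1) > 0` then `ord P A = 0`; if `ord P A < 0` then `ord P (A - 1) = ord P A` and `ord P b = 0`; else both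
are `0`. So `kummer_step` (Cyc/Kum, `q = l`) gives `E'` and `t` with `t^l = b`. `a' = stp ζ t`; `a' ≠ 0, 1` by
`stp_ne`, `t_ne`. ORDERS at `P'` of `E'`, `w ∉ P'` (so `l ∉ P'`); `A' = algebraMap A` has type `(l, l, e)` (`ty_map`).
`∏_(j < l) (t - ζ^j) = t^l - 1 = 1 / (A' - 1)` (`stp_prod` with `x = t`, `y = 1`), `ord (1 + ζ) = 0`
(`1 - ζ^2 = (1 - ζ)(1 + ζ)`, `stp_ord_one_sub`), `ord ζ = 0`.
(i) `ord A' < 0`, `= - e κ`: `ord (A' - 1) = - e κ`, `ord t = 0`, all `t - ζ^j` have orders `≥ 0` of sum `e κ`; two of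
them are not both positive as their difference has order `0` (`stp_ord_sub`); so all but one are `0` and
one is `e κ`: the orders of `a' = ζ (t - 1) / ((1 + ζ)(t - ζ))` and `a' - 1 = -(t - ζ^2) / ((1 + ζ)(t - ζ))` are in
`{0, ± e κ}`.
(ii) `ord A' ≥ 0` and `ord (A' - 1) = 0`: then `ord t ≥ 0`, `t^l - 1` has order `0`, all the `t - ζ^j` have order
`≥ 0` and sum `0`, so all are `0`: `ord a' = ord (a' - 1) = 0`.
(iii) `ord (A' - 1) > 0`: `ord t < 0`, all the `t - ζ^j` have order `ord t`: `ord a' = ord (a' - 1) = 0`.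
INTEGERS: `A = ν / δ`; `x₁ = ν - δ ≠ 0`, `t x₁` is integral: `(t x₁)^l = ν x₁^(l-1)` (in `E'`), with conjugates
at most `2 R` (`‖τ(t x₁)‖^l ≤ R (2R)^(l-1) ≤ (2R)^l`). `a' = ζ (t x₁ - x₁) / ((1 + ζ)(t x₁ - ζ x₁))`: numerator and
denominator are integral with conjugates at most `4R` and `8R`.
-/

set_option autoImplicit false

open Polynomial NumberField IsDedekindDomain Module

namespace FreyCyc

open FreySparse

private lemma eprel_tri {E : Type} [Field E] [NumberField E] (P : HeightOneSpectrum (𝓞 E))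
    {x y z : E} (hx : x ≠ 0) (hy : y ≠ 0) (hz : z ≠ 0) (h : x + y = z) :
    min (ord P x) (ord P y) ≤ ord P z ∧ min (ord P x) (ord P z) ≤ ord P y ∧
      min (ord P y) (ord P z) ≤ ord P x := by
  refine ⟨?_, ?_, ?_⟩
  · have h1 := le_ord_add P hx hy (by rw [h]; exact hz)
    rwa [h] at h1
  · have e : -x + z = y := by rw [← h]; ring
    have h1 := le_ord_add P (neg_ne_zero.2 hx) hz (by rw [e]; exact hy)
    rwa [e, ord_neg] at h1
  · have e : -y + z = x := by rw [← h]; ring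
    have h1 := le_ord_add P (neg_ne_zero.2 hy) hz (by rw [e]; exact hx)
    rwa [e, ord_neg] at h1

private lemma eprel_div {E : Type} [Field E] [NumberField E] (P : HeightOneSpectrum (𝓞 E))
    {x y : E} (hx : x ≠ 0) (hy : y ≠ 0) : ord P (x / y) = ord P x - ord P y := by
  have h1 : x = x / y * y := by field_simp
  have h2 := ord_mul P (div_ne_zero hx hy) hy
  rw [← h1] at h2
  omega

private lemma eprel_not_mem {E : Type} [Field E] [NumberField E] (P : HeightOneSpectrum (𝓞 E))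
    {q w : ℕ} (hqw : q ∣ w) (hP : (w : 𝓞 E) ∉ P.asIdeal) : (q : 𝓞 E) ∉ P.asIdeal := by
  intro h
  apply hP
  obtain ⟨t, rfl⟩ := hqw
  rw [Nat.cast_mul]
  exact P.asIdeal.mul_mem_right _ h

private lemma eprel_rel {E : Type} [Field E] [NumberField E] (P : HeightOneSpectrum (𝓞 E))
    {A : E} (h0 : A ≠ 0) (h1 : A ≠ 1) :
    min (ord P A) (ord P (A - 1)) ≤ 0 ∧ min (ord P A) 0 ≤ ord P (A - 1) ∧
      min (ord P (A - 1)) 0 ≤ ord P A := by
  have h2 : A - 1 ≠ 0 := sub_ne_zero.2 h1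
  obtain ⟨a, b, c⟩ := eprel_tri P (x := A - 1) (y := 1) (z := A) h2 one_ne_zero h0 (by ring)
  rw [ord_one] at a b c
  refine ⟨?_, ?_, ?_⟩ <;> omega

private lemma eprel_diff {E : Type} [Field E] [NumberField E] (P : HeightOneSpectrum (𝓞 E)) {m : ℕ}
    (hm : 0 < m) {z : E} (hz : IsPrimitiveRoot z m) (hP : (m : 𝓞 E) ∉ P.asIdeal) {i j : ℕ}
    (hij : i < j) (hj : j < m) : ord P (z ^ i - z ^ j) = 0 ∧ z ^ i - z ^ j ≠ 0 := by
  have h0 : z ≠ 0 := hz.ne_zero hm.ne'
  have h1 : z ^ i - z ^ j = z ^ i * (1 - z ^ (j - i)) := by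
    rw [mul_sub, mul_one, ← pow_add, Nat.add_sub_cancel' hij.le]
  have h2 : 1 - z ^ (j - i) ≠ 0 := by
    intro h
    have h7 : z ^ (j - i) = 1 := by linear_combination -h
    have := Nat.le_of_dvd (by omega) ((hz.pow_eq_one_iff_dvd (j - i)).mp h7)
    omega
  refine ⟨?_, ?_⟩
  · rw [h1, ord_mul P (pow_ne_zero _ h0) h2, stp_ord_zeta P hm hz,
      stp_ord_one_sub P hm hz hP (by omega) (by omega)]
    rfl
  · rw [h1]
    exact mul_ne_zero (pow_ne_zero _ h0) h2

/-- the orders of the factors `t - ζ ^ j` -/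
private lemma eprel_ord {E : Type} [Field E] [NumberField E] {l e w : ℕ} (h3 : 3 ≤ l)
    (hlw : l ∣ w) {ζ A t : E} (hζ : IsPrimitiveRoot ζ l) (hA : Ty w l l e A)
    (ht : t ^ l = A / (A - 1)) (P : HeightOneSpectrum (𝓞 E)) (hP : (w : 𝓞 E) ∉ P.asIdeal) :
    (∀ i < l, ∀ j < l, ord P (t - ζ ^ i) = ord P (t - ζ ^ j)) ∨
      ∀ i < l, (e : ℤ) ∣ ord P (t - ζ ^ i) := by
  have hl : 0 < l := by omega
  obtain ⟨hA0, hA1, hAP⟩ := hA
  obtain ⟨-, -, hAe⟩ := hAP P hP
  have hA1' : A - 1 ≠ 0 := sub_ne_zero.2 hA1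
  have hlP := eprel_not_mem P hlw hP
  have hζ0 : ζ ≠ 0 := hζ.ne_zero hl.ne'
  have hb : A / (A - 1) ≠ 0 := div_ne_zero hA0 hA1'
  have ht0 : t ≠ 0 := by
    rintro rfl
    rw [zero_pow hl.ne'] at ht
    exact hb ht.symm
  have hne : ∀ j, t - ζ ^ j ≠ 0 := fun j => sub_ne_zero.2 (t_ne hζ hA1 ht j)
  have hot : (l : ℤ) * ord P t = ord P A - ord P (A - 1) := by
    rw [← ord_pow P ht0, ht, eprel_div P hA0 hA1']
  have hsum : ∑ i ∈ Finset.range l, ord P (t - ζ ^ i) = -ord P (A - 1) := by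
    rw [← ord_prod P _ _ (fun i _ => hne i)]
    have h1 := stp_prod hl hζ t 1
    simp only [mul_one, one_pow] at h1
    have h2 : A / (A - 1) - 1 = 1 / (A - 1) := by
      field_simp
      ring
    rw [h1, ht, h2, eprel_div P one_ne_zero hA1', ord_one, zero_sub]
  obtain ⟨r1, r2, r3⟩ := eprel_rel P hA0 hA1
  have hlz : (0 : ℤ) < l := by exact_mod_cast hl
  have htri : ∀ j, min (ord P (t - ζ ^ j)) 0 ≤ ord P t ∧ min (ord P (t - ζ ^ j)) (ord P t) ≤ 0 ∧
      min 0 (ord P t) ≤ ord P (t - ζ ^ j) := by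
    intro j
    have h1 := eprel_tri P (hne j) (pow_ne_zero j hζ0) ht0 (by ring)
    rwa [stp_ord_zeta P hl hζ] at h1
  rcases lt_or_ge 0 (ord P (A - 1)) with hc | hc
  · -- (iii)
    left
    have h1 : ord P A = 0 := by omega
    have h2 : ord P t < 0 := by
      by_contra h
      have h4 : 0 ≤ (l : ℤ) * ord P t := mul_nonneg hlz.le (not_lt.1 h)
      omega
    have h4 : ∀ j, ord P (t - ζ ^ j) = ord P t := by
      intro j
      obtain ⟨a, b, c⟩ := htri j
      omega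
    intro i _ j _
    rw [h4 i, h4 j]
  · rcases lt_or_ge (ord P A) 0 with hd | hd
    · -- (i)
      right
      have h1 : ord P (A - 1) = ord P A := by omega
      have h2 : ord P t = 0 := by
        rw [h1, sub_self] at hot
        rcases mul_eq_zero.1 hot with h | h
        · omega
        · exact h
      have h4 : ∀ j, 0 ≤ ord P (t - ζ ^ j) := by
        intro j
        obtain ⟨a, b, c⟩ := htri j
        omega
      intro j hj
      by_cases hpos : 1 ≤ ord P (t - ζ ^ j)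
      · have hoth : ∀ i ∈ Finset.range l, i ≠ j → ord P (t - ζ ^ i) = 0 := by
          intro i hi hij
          have hi' := Finset.mem_range.1 hi
          have h5 : min (ord P (t - ζ ^ i)) (ord P (t - ζ ^ j)) ≤ 0 := by
            rcases Nat.lt_or_gt_of_ne hij with h | h
            · obtain ⟨g1, g2⟩ := eprel_diff P hl hζ hlP h hj
              have g3 := (eprel_tri P (hne j) (neg_ne_zero.2 (hne i)) g2 (by ring)).1
              rw [g1, ord_neg] at g3
              omega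
            · obtain ⟨g1, g2⟩ := eprel_diff P hl hζ hlP h hi'
              have g3 := (eprel_tri P (hne i) (neg_ne_zero.2 (hne j)) g2 (by ring)).1
              rw [g1, ord_neg] at g3
              omega
          have h6 := h4 i
          omega
        rw [Finset.sum_eq_single_of_mem j (Finset.mem_range.2 hj) hoth] at hsum
        rw [hsum, h1]
        exact (hAe hd).neg_right
      · have h5 : ord P (t - ζ ^ j) = 0 := by
          have := h4 j
          omega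
        rw [h5]
        exact dvd_zero _
    · -- (ii)
      left
      have h1 : ord P (A - 1) = 0 := by omega
      have h2 : 0 ≤ ord P t := by
        by_contra h
        have h4 : (l : ℤ) * ord P t < 0 := mul_neg_of_pos_of_neg hlz (not_le.1 h)
        omega
      have h4 : ∀ j ∈ Finset.range l, 0 ≤ ord P (t - ζ ^ j) := by
        intro j _
        obtain ⟨a, b, c⟩ := htri j
        omega
      rw [h1, neg_zero] at hsum
      have h5 := (Finset.sum_eq_zero_iff_of_nonneg h4).mp hsum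
      intro i hi j hj
      rw [h5 i (Finset.mem_range.2 hi), h5 j (Finset.mem_range.2 hj)]

private lemma eprel_ty {E : Type} [Field E] [NumberField E] {l e w : ℕ} (h3 : 3 ≤ l)
    (hlw : l ∣ w) {ζ A t : E} (hζ : IsPrimitiveRoot ζ l) (hA : Ty w l l e A)
    (ht : t ^ l = A / (A - 1)) : Ty w e e e (stp ζ t) := by
  have hl : 0 < l := by omega
  have hA1 := hA.2.1
  have hζ0 : ζ ≠ 0 := hζ.ne_zero hl.ne'
  have hne : ∀ j, t - ζ ^ j ≠ 0 := fun j => sub_ne_zero.2 (t_ne hζ hA1 ht j)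
  have h1ζ := one_add_ne h3 hζ
  have hn0 := hne 0
  have hn1 := hne 1
  have hn2 := hne 2
  rw [pow_zero] at hn0
  rw [pow_one] at hn1
  obtain ⟨hs0, hs1⟩ := stp_ne h3 hζ (t_ne hζ hA1 ht)
  refine ⟨hs0, hs1, fun P hP => ?_⟩
  have hlP := eprel_not_mem P hlw hP
  have ho1 : ord P (1 + ζ) = 0 := by
    have g1 := stp_ord_one_sub P hl hζ hlP (k := 1) (by omega) (by omega)
    have g2 := stp_ord_one_sub P hl hζ hlP (k := 2) (by omega) (by omega)
    have g3 : 1 - ζ ^ 1 ≠ 0 := by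
      intro h
      have h7 : ζ ^ 1 = 1 := by linear_combination -h
      have := Nat.le_of_dvd one_pos ((hζ.pow_eq_one_iff_dvd 1).mp h7)
      omega
    have g4 : 1 - ζ ^ 2 = (1 - ζ ^ 1) * (1 + ζ) := by ring
    rw [g4, ord_mul P g3 h1ζ, g1, zero_add] at g2
    exact g2
  have hoζ : ord P ζ = 0 := by
    have g1 := stp_ord_zeta P hl hζ 1
    rwa [pow_one] at g1
  have hoa : ord P (stp ζ t) = ord P (t - ζ ^ 0) - ord P (t - ζ ^ 1) := by
    unfold stp
    rw [pow_zero, pow_one, eprel_div P (mul_ne_zero hζ0 hn0) (mul_ne_zero h1ζ hn1),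
      ord_mul P hζ0 hn0, ord_mul P h1ζ hn1, ho1, hoζ]
    ring
  have hob : ord P (stp ζ t - 1) = ord P (t - ζ ^ 2) - ord P (t - ζ ^ 1) := by
    have g1 : stp ζ t - 1 = -((t - ζ ^ 2) / ((1 + ζ) * (t - ζ))) := by
      unfold stp
      rw [← neg_div, div_sub_one (mul_ne_zero h1ζ hn1)]
      congr 1
      ring
    rw [g1, ord_neg, pow_one, eprel_div P hn2 (mul_ne_zero h1ζ hn1), ord_mul P h1ζ hn1, ho1]
    ring
  have hdvd : (e : ℤ) ∣ ord P (stp ζ t) ∧ (e : ℤ) ∣ ord P (stp ζ t - 1) := by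
    rw [hoa, hob]
    rcases eprel_ord h3 hlw hζ hA ht P hP with h | h
    · rw [h 0 (by omega) 1 (by omega), h 2 (by omega) 1 (by omega), sub_self]
      exact ⟨dvd_zero _, dvd_zero _⟩
    · exact ⟨dvd_sub (h 0 (by omega)) (h 1 (by omega)), dvd_sub (h 2 (by omega)) (h 1 (by omega))⟩
  exact ⟨fun _ => hdvd.1, fun _ => hdvd.2, fun _ => hdvd.1⟩

theorem pre_l {l e w : ℕ} (h3 : 3 ≤ l) (he : 0 < e) (hw : w ≠ 0) (hlw : l ∣ w) {E : Type} [Field E]
    [NumberField E] {ζ A : E} (hζ : IsPrimitiveRoot ζ l) (hA : Ty w l l e A) {ν δ : 𝓞 E}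
    (hδ0 : δ ≠ 0) (hνδ : A = (ν : E) / δ) {R : ℝ} (hR : 1 ≤ R) (hν : ∀ τ : E →+* ℂ, ‖τ ν‖ ≤ R)
    (hδ : ∀ τ : E →+* ℂ, ‖τ δ‖ ≤ R) :
    ∃ (E' : Type) (_ : Field E') (_ : NumberField E') (_ : Algebra E E') (t : E'),
      t ^ l = algebraMap E E' A / (algebraMap E E' A - 1) ∧
      Ty w e e e (stp (algebraMap E E' ζ) t) ∧ finrank ℚ E' ≤ l * finrank ℚ E ∧
      |(discr E' : ℝ)| ≤ (|(discr E : ℝ)| * ((l : ℝ) * w) ^ finrank ℚ E) ^ l ∧
      ∃ ν' δ' : 𝓞 E', δ' ≠ 0 ∧ stp (algebraMap E E' ζ) t = (ν' : E') / δ' ∧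
        (∀ τ : E' →+* ℂ, ‖τ ν'‖ ≤ 8 * R) ∧ ∀ τ : E' →+* ℂ, ‖τ δ'‖ ≤ 8 * R := by
  have hl : 0 < l := by omega
  have hA0 := hA.1
  have hA1 := hA.2.1
  have hA1' : A - 1 ≠ 0 := sub_ne_zero.2 hA1
  have hb : A / (A - 1) ≠ 0 := div_ne_zero hA0 hA1'
  obtain ⟨E', iF, iN, iA, t, ht, hdeg, hdisc⟩ := kummer_step hl hζ hb hw hlw (fun P hP => by
    rw [eprel_div P hA0 hA1']
    obtain ⟨r1, r2, r3⟩ := eprel_rel P hA0 hA1
    obtain ⟨s1, s2, s3⟩ := hA.2.2 P hP
    rcases lt_or_ge 0 (ord P (A - 1)) with hc | hc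
    · have h1 : ord P A = 0 := by omega
      rw [h1, zero_sub]
      exact (s2 hc).neg_right
    · rcases lt_or_ge 0 (ord P A) with hd | hd
      · have h1 : ord P (A - 1) = 0 := by omega
        rw [h1, sub_zero]
        exact s1 hd
      · have h1 : ord P (A - 1) = ord P A := by omega
        rw [h1, sub_self]
        exact dvd_zero _)
  have ht' : t ^ l = algebraMap E E' A / (algebraMap E E' A - 1) := by
    rw [ht, map_div₀, map_sub, map_one]
  set ζ' : E' := algebraMap E E' ζ with hζ'd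
  have hζ' : IsPrimitiveRoot ζ' l := hζ.map_of_injective (algebraMap E E').injective
  have hA' : Ty w l l e (algebraMap E E' A) := ty_map hA
  have hA1'' : algebraMap E E' A ≠ 1 := hA'.2.1
  refine ⟨E', iF, iN, iA, t, ht', eprel_ty h3 hlw hζ' hA' ht', hdeg, hdisc, ?_⟩
  -- integers
  have hδ0' : (δ : E) ≠ 0 := by
    intro h
    exact hδ0 (FaithfulSMul.algebraMap_injective (𝓞 E) E (by rw [map_zero]; exact h))
  have hx0 : (ν : E) - δ ≠ 0 := by
    intro h
    apply hA1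
    rw [hνδ, sub_eq_zero.1 h, div_self hδ0']
  set x : E' := algebraMap E E' ((ν : E) - δ) with hx
  have hx0' : x ≠ 0 := by
    rw [hx, ne_eq, map_eq_zero]
    exact hx0
  have htx : (t * x) ^ l = algebraMap E E' ν * x ^ (l - 1) := by
    have h1 : A / (A - 1) = (ν : E) / ((ν : E) - δ) := by
      rw [hνδ]
      field_simp
    rw [mul_pow, ht, h1, map_div₀, ← hx]
    obtain ⟨k, hk⟩ : ∃ k, l = k + 1 := ⟨l - 1, by omega⟩
    rw [hk, Nat.add_sub_cancel, pow_succ]
    field_simp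
  have i1 : IsIntegral ℤ (algebraMap E E' (ν : E)) :=
    (RingOfIntegers.isIntegral_coe ν).map (IsScalarTower.toAlgHom ℤ E E')
  have i2 : IsIntegral ℤ x := by
    have h1 : IsIntegral ℤ ((ν : E) - δ) :=
      (RingOfIntegers.isIntegral_coe ν).sub (RingOfIntegers.isIntegral_coe δ)
    exact h1.map (IsScalarTower.toAlgHom ℤ E E')
  have i3 : IsIntegral ℤ (t * x) := IsIntegral.of_pow hl (by rw [htx]; exact i1.mul (i2.pow _))
  have i4 : IsIntegral ℤ ζ' := hζ'.isIntegral hl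
  have i5 : IsIntegral ℤ (ζ' * (t * x - x)) := i4.mul (i3.sub i2)
  have i6 : IsIntegral ℤ ((1 + ζ') * (t * x - ζ' * x)) :=
    (isIntegral_one.add i4).mul (i3.sub (i4.mul i2))
  have hne1 : t - ζ' ≠ 0 := by
    have h1 := t_ne hζ' hA1'' ht' 1
    rw [pow_one] at h1
    exact sub_ne_zero.2 h1
  have h1ζ := one_add_ne h3 hζ'
  have hden : (1 + ζ') * (t * x - ζ' * x) ≠ 0 := by
    rw [← sub_mul]
    exact mul_ne_zero h1ζ (mul_ne_zero hne1 hx0')
  -- conjugates
  have c1 : ∀ τ : E' →+* ℂ, ‖τ x‖ ≤ 2 * R := by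
    intro τ
    have g1 := hν (τ.comp (algebraMap E E'))
    have g2 := hδ (τ.comp (algebraMap E E'))
    have g3 : τ x = (τ.comp (algebraMap E E')) ν - (τ.comp (algebraMap E E')) δ := by
      rw [← map_sub]
      rfl
    rw [g3]
    refine (norm_sub_le _ _).trans ?_
    linarith
  have c2 : ∀ τ : E' →+* ℂ, ‖τ (t * x)‖ ≤ 2 * R := by
    intro τ
    have g1 := hν (τ.comp (algebraMap E E'))
    have g2 : ‖τ (t * x)‖ ^ l ≤ (2 * R) ^ l := by
      rw [← norm_pow, ← map_pow, htx, map_mul, norm_mul, map_pow, norm_pow]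
      have g3 : ‖τ (algebraMap E E' ν)‖ ≤ 2 * R := le_trans g1 (by linarith)
      calc ‖τ (algebraMap E E' ν)‖ * ‖τ x‖ ^ (l - 1) ≤ (2 * R) * (2 * R) ^ (l - 1) :=
            mul_le_mul g3 (pow_le_pow_left₀ (norm_nonneg _) (c1 τ) _) (by positivity) (by linarith)
        _ = (2 * R) ^ l := by
            rw [← pow_succ', Nat.sub_add_cancel hl]
    exact le_of_pow_le_pow_left₀ hl.ne' (by linarith) g2
  have c3 : ∀ τ : E' →+* ℂ, ‖τ ζ'‖ = 1 := by
    intro τ
    have g1 : (τ ζ') ^ l = 1 := by rw [← map_pow, hζ'.pow_eq_one, map_one]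
    exact Complex.norm_eq_one_of_pow_eq_one g1 hl.ne'
  refine ⟨⟨_, i5⟩, ⟨_, i6⟩, ?_, ?_, ?_, ?_⟩
  · intro h
    apply hden
    have h1 := congrArg (algebraMap (𝓞 E') E') h
    rw [map_zero] at h1
    exact h1
  · show stp ζ' t = (ζ' * (t * x - x)) / ((1 + ζ') * (t * x - ζ' * x))
    unfold stp
    rw [div_eq_div_iff (mul_ne_zero h1ζ hne1) hden]
    ring
  · intro τ
    show ‖τ (ζ' * (t * x - x))‖ ≤ 8 * R
    rw [map_mul, norm_mul, c3, one_mul, map_sub]
    refine (norm_sub_le _ _).trans ?_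
    linarith [c1 τ, c2 τ]
  · intro τ
    show ‖τ ((1 + ζ') * (t * x - ζ' * x))‖ ≤ 8 * R
    have g1 : ‖τ (1 + ζ')‖ ≤ 2 := by
      rw [map_add, map_one]
      refine (norm_add_le _ _).trans ?_
      rw [c3, norm_one]
      norm_num
    have g2 : ‖τ (t * x - ζ' * x)‖ ≤ 4 * R := by
      rw [map_sub]
      refine (norm_sub_le _ _).trans ?_
      rw [map_mul τ ζ' x, norm_mul, c3, one_mul]
      linarith [c1 τ, c2 τ]
    rw [map_mul, norm_mul]
    calc ‖τ (1 + ζ')‖ * ‖τ (t * x - ζ' * x)‖ ≤ 2 * (4 * R) :=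
          mul_le_mul g1 g2 (norm_nonneg _) (by norm_num)
      _ = 8 * R := by ring

end FreyCyc
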