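import Pool.Agent.Lib.MP_6babc4_nt.Cy3.EDef
import Pool.Agent.Lib.MP_6babc4_nt.Cyc.Base

/-!
# Module ETel: the order of a cross ratio is a sum of thicknesses of splits

PROOF. Put `o x y = ord P (dt x y)` for `x ≠ y` and, for `x, y ≠ d`, `u x y = o x y - o x d - o y d`.
(1) `u` is symmetric and ultrametric: `u x z ≥ min (u x y) (u y z)` for different `x, y, z ≠ d`, because of
the relation `dt x z * dt y d = dt x y * dt z d + dt y z * dt x d` (up to signs; `unfold dt; ring`) and
`le_ord_add`. (2) `ord P (cr x y c' d) = u x y - u x c'` for different `x, y, c', d`, and in general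
`ord P (cr x y c' d') = u x y + u c' d' - u x c' - u y d'` (`c', d' ≠ d`);
`ord P (cr x y d d') = u x y - u y d'`. (`ord_mul` and a division rule, `dt_ne`.)
(3) CLAIM: for every `x ∈ B`, `x ≠ a, d`, with `u a c < u a x ≤ u a b`: `q ∣ u a x - u a c`. Strong induction on
`(u a x - u a c).toNat`. Let `S = {z ∈ B | z ≠ d ∧ (z = a ∨ u a x ≤ u a z)}`: `a, x, b ∈ S`, `c, d ∉ S`. For
`y, y' ∈ S`, `z ∈ B \ S`, `z ≠ d`: `u y y' ≥ u a x` and `u y z = u a z < u a x` (ultrametric). Let `r'` be the largest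
`u a z` for `z ∈ B \ S`, `z ≠ d` (finite set, it contains `c`), attained at `z*`; `u a c ≤ r' < u a x`. Then
`Split P B S (u a x - r')`: for `y ≠ y'` in `S` and `c' ≠ d'` in `B \ S` the order of `cr y y' c' d'` is
`u y y' - u y c'` or `u y y' - u y' d'` if `d' = d` or `c' = d`, and otherwise
`u y y' + u c' d' - u y c' - u y' d' ≥ u y y' - max (u a c') (u a d')` as `u c' d' ≥ min (u a c') (u a d')`; in all
cases `≥ u a x - r'`, with equality for `cr a x z* d`. So `q ∣ u a x - r'` by `h` (`b ∈ S` as `u a b ≥ u a x`).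
If `r' = u a c` we are done; otherwise apply the induction hypothesis to `z*`.
(4) `x = b`: `ord P (cr a b c d) = u a b - u a c > 0`.
-/

set_option autoImplicit false

open Polynomial NumberField IsDedekindDomain Module

namespace FreyCyc

open FreySparse

private lemma ETel_div {F : Type} [Field F] [NumberField F] (P : HeightOneSpectrum (𝓞 F))
    {x y : F} (hx : x ≠ 0) (hy : y ≠ 0) : ord P (x / y) = ord P x - ord P y := by
  have h1 : x = x / y * y := by field_simp
  have h2 := ord_mul P (div_ne_zero hx hy) hy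
  rw [← h1] at h2
  omega

private lemma ETel_symm {F : Type} [Field F] [NumberField F] (P : HeightOneSpectrum (𝓞 F))
    (x y : OnePoint F) : ord P (dt x y) = ord P (dt y x) := by
  have h : dt x y = - dt y x := by unfold dt; ring
  rw [h, ord_neg]

private lemma ETel_cr {F : Type} [Field F] [NumberField F] (P : HeightOneSpectrum (𝓞 F))
    {x y z w : OnePoint F} (hxy : x ≠ y) (hzw : z ≠ w) (hxz : x ≠ z) (hyw : y ≠ w) :
    ord P (cr x y z w) =
      ord P (dt x y) + ord P (dt z w) - ord P (dt x z) - ord P (dt y w) := by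
  unfold cr
  rw [ETel_div P (mul_ne_zero (dt_ne hxy) (dt_ne hzw)) (mul_ne_zero (dt_ne hxz) (dt_ne hyw)),
    ord_mul P (dt_ne hxy) (dt_ne hzw), ord_mul P (dt_ne hxz) (dt_ne hyw)]
  ring

private lemma ETel_ultra {F : Type} [Field F] [NumberField F] (P : HeightOneSpectrum (𝓞 F))
    {x y z d : OnePoint F} (hxy : x ≠ y) (hyz : y ≠ z) (hxz : x ≠ z) (hx : x ≠ d) (hy : y ≠ d)
    (hz : z ≠ d) :
    min (ord P (dt x y) + ord P (dt z d)) (ord P (dt y z) + ord P (dt x d)) ≤
      ord P (dt x z) + ord P (dt y d) := by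
  have h : dt x y * dt z d + dt y z * dt x d = dt x z * dt y d := by unfold dt; ring
  have h0 : dt x y * dt z d + dt y z * dt x d ≠ 0 := by
    rw [h]
    exact mul_ne_zero (dt_ne hxz) (dt_ne hy)
  have h1 := le_ord_add P (mul_ne_zero (dt_ne hxy) (dt_ne hz)) (mul_ne_zero (dt_ne hyz) (dt_ne hx))
    h0
  rw [h, ord_mul P (dt_ne hxy) (dt_ne hz), ord_mul P (dt_ne hyz) (dt_ne hx),
    ord_mul P (dt_ne hxz) (dt_ne hy)] at h1
  exact h1

theorem tel {F : Type} [Field F] [NumberField F] (P : HeightOneSpectrum (𝓞 F))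
    {B : Set (OnePoint F)} (hB : B.Finite) {a b c d : OnePoint F} (ha : a ∈ B) (hb : b ∈ B)
    (hc : c ∈ B) (hd : d ∈ B) (hab : a ≠ b) (hac : a ≠ c) (had : a ≠ d) (hbc : b ≠ c) (hbd : b ≠ d)
    (hcd : c ≠ d) (q : ℤ)
    (h : ∀ (S : Set (OnePoint F)) (t : ℤ), Split P B S t → a ∈ S → b ∈ S → c ∉ S → d ∉ S → q ∣ t)
    (hpos : 0 < ord P (cr a b c d)) : q ∣ ord P (cr a b c d) := by
  obtain ⟨u, hu⟩ : ∃ u : OnePoint F → OnePoint F → ℤ, ∀ x y, u x y =
      ord P (dt x y) - ord P (dt x d) - ord P (dt y d) := ⟨_, fun _ _ => rfl⟩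
  have hsym : ∀ x y, u x y = u y x := by
    intro x y
    rw [hu, hu, ETel_symm P x y]
    ring
  have hult : ∀ x y z, x ≠ y → y ≠ z → x ≠ z → x ≠ d → y ≠ d → z ≠ d →
      min (u x y) (u y z) ≤ u x z := by
    intro x y z hxy hyz hxz hx hy hz
    have h1 := ETel_ultra P hxy hyz hxz hx hy hz
    rw [hu, hu, hu]
    omega
  have hcrd : ∀ x y z, x ≠ y → z ≠ d → x ≠ z → y ≠ d → ord P (cr x y z d) = u x y - u x z := by
    intro x y z hxy hz hxz hy
    rw [ETel_cr P hxy hz hxz hy, hu, hu]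
    ring
  have hcrd' : ∀ x y w, x ≠ y → w ≠ d → x ≠ d → y ≠ w → ord P (cr x y d w) = u x y - u y w := by
    intro x y w hxy hw hx hyw
    rw [ETel_cr P hxy hw.symm hx hyw, hu, hu, ETel_symm P d w]
    ring
  have hcr : ∀ x y z w, x ≠ y → z ≠ w → x ≠ z → y ≠ w →
      ord P (cr x y z w) = u x y + u z w - u x z - u y w := by
    intro x y z w hxy hzw hxz hyw
    rw [ETel_cr P hxy hzw hxz hyw, hu, hu, hu, hu]
    ring
  have key : ∀ n : ℕ, ∀ x ∈ B, x ≠ a → x ≠ d → u a c < u a x → u a x ≤ u a b →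
      u a x - u a c < n → q ∣ u a x - u a c := by
    intro n
    induction n with
    | zero =>
      intro x _ _ _ h1 _ h2
      push_cast at h2
      omega
    | succ n ih =>
      intro x hx hxa hxd h1 h2 h3
      obtain ⟨S, hS⟩ : ∃ S : Set (OnePoint F), S = {z | z ∈ B ∧ z ≠ d ∧ (z = a ∨ u a x ≤ u a z)} :=
        ⟨_, rfl⟩
      have hSm : ∀ z, z ∈ S ↔ z ∈ B ∧ z ≠ d ∧ (z = a ∨ u a x ≤ u a z) := by
        intro z
        rw [hS]
        exact Iff.rfl
      have haS : a ∈ S := (hSm a).2 ⟨ha, had, Or.inl rfl⟩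
      have hbS : b ∈ S := (hSm b).2 ⟨hb, hbd, Or.inr h2⟩
      have hxS : x ∈ S := (hSm x).2 ⟨hx, hxd, Or.inr le_rfl⟩
      have hcS : c ∉ S := by
        intro hh
        rcases ((hSm c).1 hh).2.2 with h4 | h4
        · exact hac h4.symm
        · omega
      have hdS : d ∉ S := fun hh => ((hSm d).1 hh).2.1 rfl
      have hF2 : ∀ y ∈ S, y ≠ a → u a x ≤ u a y := by
        intro y hy hya
        rcases ((hSm y).1 hy).2.2 with h4 | h4
        · exact absurd h4 hya
        · exact h4
      have hF3 : ∀ z ∈ B \ S, z ≠ d → z ≠ a ∧ u a z < u a x := by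
        intro z hz hzd
        have h4 : ¬ (z = a ∨ u a x ≤ u a z) := fun hh => hz.2 ((hSm z).2 ⟨hz.1, hzd, hh⟩)
        push Not at h4
        exact h4
      have hSd : ∀ y ∈ S, y ≠ d := fun y hy => ((hSm y).1 hy).2.1
      have hF4 : ∀ y ∈ S, ∀ y' ∈ S, y ≠ y' → u a x ≤ u y y' := by
        intro y hy y' hy' hyy
        by_cases h4 : y = a
        · rw [h4]
          exact hF2 y' hy' (fun h5 => hyy (h4.trans h5.symm))
        by_cases h5 : y' = a
        · rw [h5, hsym y a]
          exact hF2 y hy h4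
        have h6 := hult y a y' h4 (Ne.symm h5) hyy (hSd y hy) had (hSd y' hy')
        have h7 := hF2 y hy h4
        have h8 := hF2 y' hy' h5
        rw [hsym y a] at h6
        omega
      have hF5 : ∀ y ∈ S, ∀ z ∈ B \ S, z ≠ d → u y z = u a z := by
        intro y hy z hz hzd
        obtain ⟨hza, hzx⟩ := hF3 z hz hzd
        by_cases h4 : y = a
        · rw [h4]
        have hyz : y ≠ z := fun h5 => hz.2 (h5 ▸ hy)
        have h6 := hult y a z h4 (Ne.symm hza) hyz (hSd y hy) had hzd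
        have h7 := hult a y z (Ne.symm h4) hyz (Ne.symm hza) had (hSd y hy) hzd
        have h8 := hF2 y hy h4
        rw [hsym y a] at h6
        omega
      obtain ⟨zs, hzs, hmax⟩ := Set.exists_max_image ((B \ S) \ {d}) (u a)
        ((hB.subset Set.sdiff_subset).subset Set.sdiff_subset) ⟨c, ⟨hc, hcS⟩, hcd⟩
      have hzsd : zs ≠ d := hzs.2
      obtain ⟨hzsa, hzsx⟩ := hF3 zs hzs.1 hzsd
      have hczs : u a c ≤ u a zs := hmax c ⟨⟨hc, hcS⟩, hcd⟩
      have hmax' : ∀ z ∈ B \ S, z ≠ d → u a z ≤ u a zs := fun z hz hzd => hmax z ⟨hz, hzd⟩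
      have hsplit : Split P B S (u a x - u a zs) := by
        refine ⟨fun z hz => ((hSm z).1 hz).1, by omega, ?_, a, haS, x, hxS, zs, hzs.1, d,
          ⟨hd, hdS⟩, Ne.symm hxa, hzsd, ?_⟩
        · intro y hy y' hy' c' hc' d' hd' hyy hcd'
          have h4 := hF4 y hy y' hy' hyy
          have hyc : y ≠ c' := fun h5 => hc'.2 (h5 ▸ hy)
          have hyd : y' ≠ d' := fun h5 => hd'.2 (h5 ▸ hy')
          by_cases h5 : d' = d
          · have h6 : c' ≠ d := fun h7 => hcd' (h7.trans h5.symm)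
            rw [h5, hcrd y y' c' hyy h6 hyc (hSd y' hy'), hF5 y hy c' hc' h6]
            have := hmax' c' hc' h6
            omega
          by_cases h6 : c' = d
          · rw [h6, hcrd' y y' d' hyy h5 (hSd y hy) hyd, hF5 y' hy' d' hd' h5]
            have := hmax' d' hd' h5
            omega
          rw [hcr y y' c' d' hyy hcd' hyc hyd, hF5 y hy c' hc' h6, hF5 y' hy' d' hd' h5]
          obtain ⟨hca, -⟩ := hF3 c' hc' h6
          obtain ⟨hda, -⟩ := hF3 d' hd' h5
          have h7 := hult c' a d' hca (Ne.symm hda) hcd' h6 had h5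
          rw [hsym c' a] at h7
          have h8 := hmax' c' hc' h6
          have h9 := hmax' d' hd' h5
          omega
        · exact hcrd a x zs (Ne.symm hxa) hzsd (Ne.symm hzsa) hxd
      have hq := h S _ hsplit haS hbS hcS hdS
      by_cases h4 : u a zs = u a c
      · rw [← h4]
        exact hq
      have h5 := ih zs hzs.1.1 hzsa hzsd (by omega) (by omega) (by push_cast at h3; omega)
      have h6 : u a x - u a c = (u a x - u a zs) + (u a zs - u a c) := by ring
      rw [h6]
      exact dvd_add hq h5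
  have hfin := hcrd a b c hab hcd hac hbd
  rw [hfin] at hpos ⊢
  refine key (u a b - u a c + 1).toNat b hb (Ne.symm hab) hbd (by omega) le_rfl ?_
  rw [Int.toNat_of_nonneg (by omega)]
  omega

end FreyCyc
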