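import Pool.Agent.Lib.MP_6babc4_nt.Cy3.EWgtA
import Pool.Agent.Lib.MP_6babc4_nt.Cy3.EDef

/-!
# Module EWgtB: the divisibility of the thicknesses by the indices

NOTATION: `S ⊆ B`, `g = gcd(N, ∑_S w)`, `Fits N w B S t`: `N / g ∣ t` and `g` divides all the `w z`, `z ∈ S`, or all the
`w z`, `z ∈ B \ S`. If `g ∣ w z` then `g ∣ gcd(N, w z)`, so `idx N (w z) ∣ N / g ∣ t`.

PROOFS.
* `fits_both`: `z ∈ S`, `z' ∈ B \ S`, `q` divides both indices: so `q ∣ t`.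
* `fits_in`: `l` prime, `r = v_l(N) ≥ 1`; for `z ≠ a, b` `l ∤ idx N (w z)`, that is `l^r ∣ w z`. If `a, b ∈ S` then
  `l^r` divides `∑_(B \ S) w`, and it divides `N ∣ ∑_B w`, so it divides `∑_S w`, and `l^r ∣ g`. As `l ∤ w a`, `g ∤ w a`, so
  `g` divides the `w z` for `z ∈ B \ S`, and `idx N (w z) ∣ t`.
* `fits_out`: if `a ∈ S`, `b ∉ S` then `∑_S w = w a + (multiple of l^r)` is not divisible by `l`, so `l ∤ g`, and
  `l^r ∣ N / g` (`N = g * (N / g)`), `l ∣ t`. 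
* `fits_in_two`: `N = 2^r`, `r ≥ 2`: for `z ≠ a, b` `w z = 2^(r-1)`, so `2^(r-1) ∣ ∑_(B \ S) w`, `2^(r-1) ∣ g`, `g ∤ w a` (odd),
  so `g ∣ w z = 2^(r-1)` for `z ∈ B \ S`, and `idx N (w z) = 2 ∣ t`.
* `fits_out_two`: `∑_S w = w a + (multiple of 2^(r-1))` is odd, `g = 1`, `N ∣ t`.
-/

set_option autoImplicit false

namespace FreyCyc

private theorem EWgtB_idx {N g w : ℕ} (hN : 0 < N) (h1 : g ∣ N) (h2 : g ∣ w) :
    idx N w ∣ N / g := by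
  unfold idx
  obtain ⟨m, hm⟩ := Nat.dvd_gcd h1 h2
  have h3 : N = N.gcd w * (N / N.gcd w) := (Nat.mul_div_cancel' (Nat.gcd_dvd_left N w)).symm
  have hg : 0 < g := Nat.pos_of_dvd_of_pos h1 hN
  have h4 : N = g * (m * (N / N.gcd w)) := by
    conv_lhs => rw [h3]
    rw [hm]
    ring
  have h5 : N / g = m * (N / N.gcd w) := by
    conv_lhs => rw [h4]
    exact Nat.mul_div_cancel_left _ hg
  rw [h5]
  exact Dvd.intro_left m rfl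

private theorem EWgtB_sum {α : Type*} {N : ℕ} {B S : Set α} {w : α → ℕ} (h : WSys N B w)
    (hS : S ⊆ B) : ∑ᶠ z ∈ B, w z = ∑ᶠ z ∈ S, w z + ∑ᶠ z ∈ B \ S, w z := by
  rw [← finsum_mem_union Set.disjoint_sdiff_right (h.fin.subset hS)
    (h.fin.subset Set.sdiff_subset), Set.union_sdiff_cancel hS]

private theorem EWgtB_dvd {α : Type*} {S : Set α} {w : α → ℕ} (hfin : S.Finite) {l : ℕ}
    (h : ∀ z ∈ S, l ∣ w z) : l ∣ ∑ᶠ z ∈ S, w z := by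
  rw [finsum_mem_eq_finite_toFinset_sum _ hfin]
  exact Finset.dvd_sum (fun z hz => h z (by simpa using hz))

private theorem EWgtB_split {α : Type*} {S : Set α} {w : α → ℕ} (hfin : S.Finite) {a : α}
    (ha : a ∈ S) : ∑ᶠ z ∈ S, w z = w a + ∑ᶠ z ∈ S \ {a}, w z := by
  classical
  have h4 : insert a (S \ {a}) = S := by
    ext z
    by_cases hz : z = a <;> simp [hz, ha]
  rw [← finsum_mem_insert w (by simp) (hfin.subset Set.sdiff_subset), h4]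

private theorem EWgtB_w {l N w : ℕ} (hl : l.Prime) (hlN : l ∣ N) (h : ¬ l ∣ idx N w) : l ∣ w := by
  unfold idx at h
  have h2 : N = N.gcd w * (N / N.gcd w) := (Nat.mul_div_cancel' (Nat.gcd_dvd_left N w)).symm
  have h3 : l ∣ N.gcd w * (N / N.gcd w) := by
    rw [← h2]
    exact hlN
  rcases hl.dvd_mul.mp h3 with h4 | h4
  · exact h4.trans (Nat.gcd_dvd_right N w)
  · exact absurd h4 h

private theorem EWgtB_pos {α : Type*} {N : ℕ} {B : Set α} {w : α → ℕ} (h : WSys N B w) {z : α}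
    (hz : z ∈ B) : 0 < N := lt_of_le_of_lt (Nat.zero_le _) (h.lt z hz).2

theorem fits_both {α : Type*} {N : ℕ} {B S : Set α} {w : α → ℕ} {t : ℤ} (h : WSys N B w)
    (hf : Fits N w B S t) {z z' : α} (hz : z ∈ S) (hz' : z' ∈ B \ S) {q : ℕ}
    (h1 : q ∣ idx N (w z)) (h2 : q ∣ idx N (w z')) : (q : ℤ) ∣ t := by
  have hN : 0 < N := EWgtB_pos h hz'.1
  obtain ⟨hd, h3⟩ := hf
  have hg : N.gcd (∑ᶠ z ∈ S, w z) ∣ N := Nat.gcd_dvd_left _ _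
  rcases h3 with h3 | h3
  · exact (Int.natCast_dvd_natCast.mpr (h1.trans (EWgtB_idx hN hg (h3 z hz)))).trans hd
  · exact (Int.natCast_dvd_natCast.mpr (h2.trans (EWgtB_idx hN hg (h3 z' hz')))).trans hd

theorem fits_in {α : Type*} {N : ℕ} {B S : Set α} {w : α → ℕ} {t : ℤ} (h : WSys N B w)
    (hS : S ⊆ B) (hf : Fits N w B S t) {l : ℕ} (hl : l.Prime) (hlN : l ∣ N) {a b : α}
    (ha : ¬ l ∣ w a) (hab : ∀ z ∈ B, z ≠ a → z ≠ b → ¬ l ∣ idx N (w z)) (haS : a ∈ S) (hbS : b ∈ S)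
    {z : α} (hz : z ∈ B \ S) : ((idx N (w z) : ℕ) : ℤ) ∣ t := by
  have hN : 0 < N := EWgtB_pos h hz.1
  obtain ⟨hd, h3⟩ := hf
  have hg : N.gcd (∑ᶠ z ∈ S, w z) ∣ N := Nat.gcd_dvd_left _ _
  have h4 : l ∣ ∑ᶠ z ∈ B \ S, w z := by
    refine EWgtB_dvd (h.fin.subset Set.sdiff_subset) (fun y hy => ?_)
    exact EWgtB_w hl hlN (hab y hy.1 (fun e => hy.2 (e ▸ haS)) (fun e => hy.2 (e ▸ hbS)))
  have h5 : l ∣ ∑ᶠ z ∈ S, w z := by
    have h6 : l ∣ ∑ᶠ z ∈ B, w z := hlN.trans h.sum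
    rw [EWgtB_sum h hS] at h6
    exact (Nat.dvd_add_left h4).mp h6
  rcases h3 with h3 | h3
  · exact absurd ((Nat.dvd_gcd hlN h5).trans (h3 a haS)) ha
  · exact (Int.natCast_dvd_natCast.mpr (EWgtB_idx hN hg (h3 z hz))).trans hd

theorem fits_out {α : Type*} {N : ℕ} {B S : Set α} {w : α → ℕ} {t : ℤ} (h : WSys N B w)
    (hS : S ⊆ B) (hf : Fits N w B S t) {l : ℕ} (hl : l.Prime) (hlN : l ∣ N) {a b : α}
    (ha : ¬ l ∣ w a) (hab : ∀ z ∈ B, z ≠ a → z ≠ b → ¬ l ∣ idx N (w z)) (haS : a ∈ S)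
    (hbS : b ∉ S) : (l : ℤ) ∣ t := by
  obtain ⟨hd, -⟩ := hf
  have hfin : S.Finite := h.fin.subset hS
  have h4 : l ∣ ∑ᶠ z ∈ S \ {a}, w z := by
    refine EWgtB_dvd (hfin.subset Set.sdiff_subset) (fun y hy => ?_)
    exact EWgtB_w hl hlN (hab y (hS hy.1) hy.2 (fun e => hbS (e ▸ hy.1)))
  have h5 : ¬ l ∣ ∑ᶠ z ∈ S, w z := by
    intro h6
    rw [EWgtB_split hfin haS] at h6
    exact ha ((Nat.dvd_add_left h4).mp h6)
  have h7 : l ∣ N.gcd (∑ᶠ z ∈ S, w z) * (N / N.gcd (∑ᶠ z ∈ S, w z)) := by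
    rw [Nat.mul_div_cancel' (Nat.gcd_dvd_left N _)]
    exact hlN
  rcases hl.dvd_mul.mp h7 with h8 | h8
  · exact absurd (h8.trans (Nat.gcd_dvd_right _ _)) h5
  · exact (Int.natCast_dvd_natCast.mpr h8).trans hd

theorem fits_in_two {α : Type*} {B S : Set α} {w : α → ℕ} {t : ℤ} {r : ℕ} (hr : 2 ≤ r)
    (h : WSys (2 ^ r) B w) (hS : S ⊆ B) (hf : Fits (2 ^ r) w B S t) {a b : α}
    (ha : ¬ 2 ∣ w a) (hab : ∀ z ∈ B, z ≠ a → z ≠ b → w z = 2 ^ (r - 1)) (haS : a ∈ S)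
    (hbS : b ∈ S) {z : α} (hz : z ∈ B \ S) : (2 : ℤ) ∣ t := by
  obtain ⟨hd, h3⟩ := hf
  have h4 : ∀ y ∈ B \ S, w y = 2 ^ (r - 1) := fun y hy =>
    hab y hy.1 (fun e => hy.2 (e ▸ haS)) (fun e => hy.2 (e ▸ hbS))
  have h5 : 2 ^ (r - 1) ∣ ∑ᶠ z ∈ B \ S, w z :=
    EWgtB_dvd (h.fin.subset Set.sdiff_subset) (fun y hy => by rw [h4 y hy])
  have h6 : 2 ^ (r - 1) ∣ 2 ^ r := pow_dvd_pow 2 (by omega)
  have h7 : 2 ^ (r - 1) ∣ ∑ᶠ z ∈ S, w z := by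
    have h8 : 2 ^ (r - 1) ∣ ∑ᶠ z ∈ B, w z := h6.trans h.sum
    rw [EWgtB_sum h hS] at h8
    exact (Nat.dvd_add_left h5).mp h8
  have h9 : 2 ^ (r - 1) ∣ (2 ^ r).gcd (∑ᶠ z ∈ S, w z) := Nat.dvd_gcd h6 h7
  have h10 : 2 ∣ 2 ^ (r - 1) := dvd_pow_self 2 (by omega)
  rcases h3 with h3 | h3
  · exact absurd ((h10.trans h9).trans (h3 a haS)) ha
  · have h11 := h3 z hz
    rw [h4 z hz] at h11
    have h12 : (2 ^ r).gcd (∑ᶠ z ∈ S, w z) = 2 ^ (r - 1) := Nat.dvd_antisymm h11 h9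
    have h13 : 2 ^ r / 2 ^ (r - 1) = 2 := by
      rw [Nat.pow_div (by omega) (by norm_num)]
      have h14 : r - (r - 1) = 1 := by omega
      rw [h14, pow_one]
    rw [h12, h13] at hd
    exact_mod_cast hd

theorem fits_out_two {α : Type*} {B S : Set α} {w : α → ℕ} {t : ℤ} {r : ℕ} (hr : 2 ≤ r)
    (h : WSys (2 ^ r) B w) (hS : S ⊆ B) (hf : Fits (2 ^ r) w B S t) {a b : α}
    (ha : ¬ 2 ∣ w a) (hab : ∀ z ∈ B, z ≠ a → z ≠ b → w z = 2 ^ (r - 1)) (haS : a ∈ S)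
    (hbS : b ∉ S) : ((2 ^ r : ℕ) : ℤ) ∣ t := by
  obtain ⟨hd, -⟩ := hf
  have hfin : S.Finite := h.fin.subset hS
  have h10 : 2 ∣ 2 ^ (r - 1) := dvd_pow_self 2 (by omega)
  have h4 : 2 ∣ ∑ᶠ z ∈ S \ {a}, w z := by
    refine EWgtB_dvd (hfin.subset Set.sdiff_subset) (fun y hy => ?_)
    rw [hab y (hS hy.1) hy.2 (fun e => hbS (e ▸ hy.1))]
    exact h10
  have h5 : ¬ 2 ∣ ∑ᶠ z ∈ S, w z := by
    intro h6
    rw [EWgtB_split hfin haS] at h6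
    exact ha ((Nat.dvd_add_left h4).mp h6)
  have h6 : (2 ^ r).gcd (∑ᶠ z ∈ S, w z) = 1 := by
    apply Nat.Coprime.pow_left
    exact (Nat.Prime.coprime_iff_not_dvd Nat.prime_two).mpr h5
  rw [h6, Nat.div_one] at hd
  exact hd

end FreyCyc
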