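import Pool.Agent.Lib.MP_6babc4_nt.Cy3.ETel
import Pool.Agent.Lib.MP_6babc4_nt.Cy3.EWgtB
import Pool.Agent.Lib.MP_6babc4_nt.Cy3.ECnd

/-!
# Module ETyp: the types of the cross ratios

`Ty w e₀ e₁ e₂ A`: at the primes not dividing `w` the order of a zero of `A`, of a zero of `A - 1`, of a pole
of `A` is divisible by `e₀`, `e₁`, `e₂`.

PROOFS.
* `ty_map`: `ord_algebraMap` (Cyc/Tow), and `w ∈ P` iff `w ∈ P'` (`mem_iff_of_above`); `e > 0` there, so the signs
  of the orders are the same.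
* `types`. First for `E = Spl (tot N f) = L` itself, then `ty_map`. Let `P` be a prime of `L` with
  `N condE ∉ P`, and `v` below (`exists_below`): `N ∉ v` and `¬ BadE N f v` (`condE_mem`; as in the last part
  of `base` in Cyc/Base). So every split at `P` fits. With `tel`: if `x, y, z, u` are different branch points
  and `q ∣ t` for all the splits `(S, t)` at `P` with `x, y ∈ S`, `z, u ∉ S`, then `q` divides the order of
  `cr x y z u` if it is positive. The poles of `cr x y z u` are the zeros of `cr x z y u` (its inverse, up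
  to nothing: `cr x z y u = (cr x y z u)⁻¹`), and `cr x y z u - 1 = - cr x u z y` (`cr_sub_one`).
  `wcases` for `wsys`:
  (1) `q` divides the indices of `a, b, c`: for every `d` all three partitions of `{a, b, c, d}` into pairs
  separate two of `a, b, c`, and `fits_both` gives `q ∣ t`: the first alternative with `e = l = q`.
  (2) `l, a, b`. Let `c ≠ a, b` be a branch point with `idx ≥ 3`, if there is one, `e = idx N (wt c)`. Splits
  with `a, b ∈ S`, `c, d ∉ S`: `e ∣ t` by `fits_in`. Splits that separate `a` and `b` (say `a ∈ S`,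
  `b ∉ S`, or `b ∈ S`, `a ∉ S`: symmetric): `l ∣ t` by `fits_out`. The zeros of `A = cr a c b d` come from
  `a, c ∈ S`, `b, d ∉ S`; the zeros of `A - 1 = - cr a d b c` from `a, d ∈ S`, `b, c ∉ S`; the poles are the zeros of
  `cr a b c d`, from `a, b ∈ S`, `c, d ∉ S`: first alternative (`e ∣ N`: an index divides `N`). If all the
  indices of the other points are `< 3` they are `2` (`idx ≥ 2` because `0 < wt < N`; so `2 ∣ N`, and `l`
  odd, `2 l ∣ N`): let `c` be any of them. `A = cr a c d b`: zeros from `a, c ∈ S`, `d, b ∉ S`: `l ∣ t`, and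
  `2 ∣ t` by `fits_both` for `c, d`, so `2 l ∣ t`; poles: zeros of `cr a d c b`, the same; `A - 1 = - cr a b d c`:
  `a, b ∈ S`, `2 ∣ t` by `fits_in`: second alternative with `q = l`.
  (3) `N = 2^r`: any `c`; second alternative with `q = 2^(r-1)`: `fits_out_two`, `fits_in_two`.
-/

set_option autoImplicit false

open Polynomial NumberField IsDedekindDomain Module

namespace FreyCyc

open FreySparse

/-- The number `A` has the orders `e₀, e₁, e₂` over `0, 1, ∞` at the primes not dividing `w`. -/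
def Ty {E : Type*} [Field E] [NumberField E] (w e₀ e₁ e₂ : ℕ) (A : E) : Prop :=
  A ≠ 0 ∧ A ≠ 1 ∧ ∀ P : HeightOneSpectrum (𝓞 E), (w : 𝓞 E) ∉ P.asIdeal →
    (0 < ord P A → (e₀ : ℤ) ∣ ord P A) ∧ (0 < ord P (A - 1) → (e₁ : ℤ) ∣ ord P (A - 1)) ∧
    (ord P A < 0 → (e₂ : ℤ) ∣ ord P A)

theorem ty_map {E E' : Type} [Field E] [NumberField E] [Field E'] [NumberField E'] [Algebra E E']
    {w e₀ e₁ e₂ : ℕ} {A : E} (h : Ty w e₀ e₁ e₂ A) : Ty w e₀ e₁ e₂ (algebraMap E E' A) := by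
  obtain ⟨h0, h1, h2⟩ := h
  refine ⟨(_root_.map_ne_zero _).mpr h0, fun h => h1 ((algebraMap E E').injective
    (h.trans (map_one _).symm)), fun P' hP' => ?_⟩
  obtain ⟨P, e, hab, he, ho⟩ := ord_algebraMap (E := E) P'
  have hP : (w : 𝓞 E) ∉ P.asIdeal := by
    intro hw
    apply hP'
    have h5 := (mem_iff_of_above hab (w : 𝓞 E)).mpr hw
    rwa [map_natCast] at h5
  have he' : (0 : ℤ) < (e : ℤ) := by exact_mod_cast he
  obtain ⟨g0, g1, g2⟩ := h2 P hP
  have h3 : algebraMap E E' A - 1 = algebraMap E E' (A - 1) := by rw [map_sub, map_one]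
  rw [h3, ho, ho]
  refine ⟨fun h => Dvd.dvd.mul_left (g0 ?_) _, fun h => Dvd.dvd.mul_left (g1 ?_) _,
    fun h => Dvd.dvd.mul_left (g2 ?_) _⟩
  · exact (mul_pos_iff_of_pos_left he').mp h
  · exact (mul_pos_iff_of_pos_left he').mp h
  · by_contra h'
    exact absurd h (not_lt.mpr (mul_nonneg he'.le (not_lt.mp h')))

private theorem etyp_cr_ne {F : Type} [Field F] {a b c d : OnePoint F} (hab : a ≠ b) (hac : a ≠ c)
    (hbd : b ≠ d) (hcd : c ≠ d) : cr a b c d ≠ 0 :=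
  div_ne_zero (mul_ne_zero (dt_ne hab) (dt_ne hcd)) (mul_ne_zero (dt_ne hac) (dt_ne hbd))

private theorem etyp_inv {F : Type} [Field F] {a b c d : OnePoint F} (hab : a ≠ b) (hac : a ≠ c)
    (hbd : b ≠ d) (hcd : c ≠ d) : cr a b c d * cr a c b d = 1 := by
  have h1 := dt_ne hab
  have h2 := dt_ne hac
  have h3 := dt_ne hbd
  have h4 := dt_ne hcd
  unfold cr
  field_simp

private theorem etyp_ty {F : Type} [Field F] [NumberField F] {w e₀ e₁ e₂ : ℕ}
    {x y z u : OnePoint F} (hxy : x ≠ y) (hxz : x ≠ z) (hxu : x ≠ u) (hyz : y ≠ z) (hyu : y ≠ u)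
    (hzu : z ≠ u) (h : ∀ P : HeightOneSpectrum (𝓞 F), (w : 𝓞 F) ∉ P.asIdeal →
      (0 < ord P (cr x y z u) → (e₀ : ℤ) ∣ ord P (cr x y z u)) ∧
      (0 < ord P (cr x u z y) → (e₁ : ℤ) ∣ ord P (cr x u z y)) ∧
      (0 < ord P (cr x z y u) → (e₂ : ℤ) ∣ ord P (cr x z y u))) :
    Ty w e₀ e₁ e₂ (cr x y z u) := by
  have h0 : cr x y z u ≠ 0 := etyp_cr_ne hxy hxz hyu hzu
  have h0' : cr x z y u ≠ 0 := etyp_cr_ne hxz hxy hzu hyu
  have hsub : cr x y z u - 1 = - cr x u z y := cr_sub_one hxz hyu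
  refine ⟨h0, ?_, fun P hP => ?_⟩
  · intro h1
    rw [h1, sub_self] at hsub
    exact etyp_cr_ne hxu hxz hyu.symm hyz.symm (neg_eq_zero.mp hsub.symm)
  obtain ⟨g0, g1, g2⟩ := h P hP
  have h3 : ord P (cr x y z u) + ord P (cr x z y u) = 0 := by
    rw [← ord_mul P h0 h0', etyp_inv hxy hxz hyu hzu, ord_one]
  refine ⟨g0, ?_, fun h4 => ?_⟩
  · rw [hsub, ord_neg]
    exact g1
  · have h5 := g2 (by omega)
    have h6 : ord P (cr x y z u) = -ord P (cr x z y u) := by omega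
    rw [h6]
    exact (dvd_neg).mpr h5

private theorem etyp_idx_dvd (N w : ℕ) : idx N w ∣ N :=
  Nat.div_dvd_of_dvd (Nat.gcd_dvd_left N w)

private theorem etyp_idx_two {N w : ℕ} (h1 : 1 ≤ w) (h2 : w < N) : 2 ≤ idx N w := by
  have h3 : idx N w * N.gcd w = N := Nat.div_mul_cancel (Nat.gcd_dvd_left N w)
  have h4 : N.gcd w ≤ w := Nat.gcd_le_right N h1
  by_contra h
  have h5 : idx N w ≤ 1 := by omega
  have h6 : idx N w * N.gcd w ≤ 1 * N.gcd w := Nat.mul_le_mul_right _ h5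
  omega

private theorem etyp_third {α : Type*} {B : Set α} (h : 3 ≤ B.ncard) (a b : α) :
    ∃ c ∈ B, a ≠ c ∧ b ≠ c := by
  by_contra hc
  push Not at hc
  have h1 : B ⊆ {a, b} := by
    intro c hcB
    by_cases h2 : a = c
    · exact Or.inl h2.symm
    · exact Or.inr (hc c hcB h2).symm
  have h2 : B.ncard ≤ ({a, b} : Set α).ncard := Set.ncard_le_ncard h1 (Set.toFinite _)
  have h3 := Set.ncard_insert_le a {b}
  rw [Set.ncard_singleton] at h3
  omega

theorem types {N n : ℕ} (h3 : 3 ≤ N) (hn : 3 ≤ n) {K : Type} [Field K] [NumberField K] {H : ℝ}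
    {f : ℕ → (𝓞 K)[X]} (hf : f ∈ FamE K N n H) (E : Type) [Field E] [NumberField E]
    [Algebra (Spl (tot N f)) E] : ∃ a ∈ bp N f, ∃ b ∈ bp N f, ∃ c ∈ bp N f,
      a ≠ b ∧ a ≠ c ∧ b ≠ c ∧ ∀ d ∈ bp N f, a ≠ d → b ≠ d → c ≠ d →
        (∃ e l : ℕ, 3 ≤ e ∧ 3 ≤ l ∧ e ∣ N ∧ l ∣ N ∧
          Ty (N * condE N f) l l e (algebraMap (Spl (tot N f)) E (cr a c b d))) ∨
        (∃ q : ℕ, 2 ≤ q ∧ 2 * q ∣ N ∧
          Ty (N * condE N f) (2 * q) 2 (2 * q) (algebraMap (Spl (tot N f)) E (cr a c d b))) := by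
  have hw : WSys N (bp N f) (wt N f) := wsys hn hf
  have hsep := hf.2.2.1
  -- the splits fit at the good primes
  have hfit : ∀ P : HeightOneSpectrum (𝓞 (Spl (tot N f))),
      ((N * condE N f : ℕ) : 𝓞 (Spl (tot N f))) ∉ P.asIdeal → ∀ S t, Split P (bp N f) S t →
        Fits N (wt N f) (bp N f) S t := by
    intro P hP S t hS
    by_contra hno
    obtain ⟨v, hv⟩ := exists_below (K := K) P
    have hmem : ∀ m : ℕ, m ∣ N * condE N f → (m : 𝓞 K) ∉ v.asIdeal := by
      intro m hm hmv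
      apply hP
      have h5 := (mem_iff_of_above hv (m : 𝓞 K)).mpr hmv
      rw [map_natCast] at h5
      obtain ⟨t, ht⟩ := hm
      rw [ht, Nat.cast_mul]
      exact P.asIdeal.mul_mem_right _ h5
    have hNv : (N : 𝓞 K) ∉ v.asIdeal := hmem N (Dvd.intro _ rfl)
    exact hmem (condE N f) (Dvd.intro_left _ rfl)
      (condE_mem N hsep ⟨hNv, Or.inr ⟨P, hv, Or.inl ⟨S, t, hS, hno⟩⟩⟩)
  -- the zeros
  have hz : ∀ P : HeightOneSpectrum (𝓞 (Spl (tot N f))),
      ((N * condE N f : ℕ) : 𝓞 (Spl (tot N f))) ∉ P.asIdeal →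
      ∀ x ∈ bp N f, ∀ y ∈ bp N f, ∀ z ∈ bp N f, ∀ u ∈ bp N f, x ≠ y → x ≠ z → x ≠ u → y ≠ z →
        y ≠ u → z ≠ u → ∀ q : ℤ, (∀ S t, S ⊆ bp N f → Fits N (wt N f) (bp N f) S t →
          x ∈ S → y ∈ S → z ∈ bp N f \ S → u ∈ bp N f \ S → q ∣ t) →
        0 < ord P (cr x y z u) → q ∣ ord P (cr x y z u) := by
    intro P hP x hx y hy z hz u hu hxy hxz hxu hyz hyu hzu q hq hpos
    exact tel P hw.fin hx hy hz hu hxy hxz hxu hyz hyu hzu q
      (fun S t hS h1 h2 h3 h4 => hq S t hS.1 (hfit P hP S t hS) h1 h2 ⟨hz, h3⟩ ⟨hu, h4⟩) hpos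
  rcases wcases hw h3 with ⟨q, hq3, hqN, a, ha, b, hb, c, hc, hab, hac, hbc, hqa, hqb, hqc⟩ |
    ⟨l, hl, hl3, hlN, a, ha, b, hb, hab, hla, hlb, hlz⟩ | ⟨r, hr, hN, a, ha, b, hb, hab, h2a, h2b, h2z⟩
  · refine ⟨a, ha, b, hb, c, hc, hab, hac, hbc, fun d hd had hbd hcd => Or.inl
      ⟨q, q, hq3, hq3, hqN, hqN, ty_map (etyp_ty hac hab had hbc.symm hcd hbd fun P hP =>
        ⟨?_, ?_, ?_⟩)⟩⟩
    · refine hz P hP a ha c hc b hb d hd hac hab had hbc.symm hcd hbd q ?_
      exact fun S t _ hF h1 h2 h3 h4 => fits_both hw hF h1 h3 hqa hqb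
    · refine hz P hP a ha d hd b hb c hc had hab hac hbd.symm hcd.symm hbc q ?_
      exact fun S t _ hF h1 h2 h3 h4 => fits_both hw hF h1 h3 hqa hqb
    · refine hz P hP a ha b hb c hc d hd hab hac had hbc hbd hcd q ?_
      exact fun S t _ hF h1 h2 h3 h4 => fits_both hw hF h1 h3 hqa hqc
  · by_cases hex : ∃ c ∈ bp N f, a ≠ c ∧ b ≠ c ∧ 3 ≤ idx N (wt N f c)
    · obtain ⟨c, hc, hac, hbc, he⟩ := hex
      refine ⟨a, ha, b, hb, c, hc, hab, hac, hbc, fun d hd had hbd hcd => Or.inl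
        ⟨idx N (wt N f c), l, he, hl3, etyp_idx_dvd _ _, hlN,
          ty_map (etyp_ty hac hab had hbc.symm hcd hbd fun P hP => ⟨?_, ?_, ?_⟩)⟩⟩
      · refine hz P hP a ha c hc b hb d hd hac hab had hbc.symm hcd hbd l ?_
        exact fun S t hS hF h1 h2 h3 h4 => fits_out hw hS hF hl hlN hla hlz h1 h3.2
      · refine hz P hP a ha d hd b hb c hc had hab hac hbd.symm hcd.symm hbc l ?_
        exact fun S t hS hF h1 h2 h3 h4 => fits_out hw hS hF hl hlN hla hlz h1 h3.2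
      · refine hz P hP a ha b hb c hc d hd hab hac had hbc hbd hcd _ ?_
        exact fun S t hS hF h1 h2 h3 h4 => fits_in hw hS hF hl hlN hla hlz h1 h2 h3
    · have hidx : ∀ z ∈ bp N f, a ≠ z → b ≠ z → idx N (wt N f z) = 2 := by
        intro z hz haz hbz
        have h1 := etyp_idx_two (hw.lt z hz).1 (hw.lt z hz).2
        by_contra h2
        exact hex ⟨z, hz, haz, hbz, by omega⟩
      obtain ⟨c, hc, hac, hbc⟩ := etyp_third (three_le hn hf) a b
      have hic := hidx c hc hac hbc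
      have h2N : 2 ∣ N := by
        have h1 := etyp_idx_dvd N (wt N f c)
        rwa [hic] at h1
      have hcop : Nat.Coprime 2 l := by
        rw [Nat.coprime_primes Nat.prime_two hl]
        omega
      have hdvd : ∀ t : ℤ, (2 : ℤ) ∣ t → (l : ℤ) ∣ t → ((2 * l : ℕ) : ℤ) ∣ t := by
        intro t h1 h2
        have h4 : IsCoprime (2 : ℤ) (l : ℤ) := by
          exact_mod_cast Nat.isCoprime_iff_coprime.mpr hcop
        have h5 := h4.mul_dvd h1 h2
        exact_mod_cast h5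
      refine ⟨a, ha, b, hb, c, hc, hab, hac, hbc, fun d hd had hbd hcd => Or.inr
        ⟨l, by omega, Nat.Coprime.mul_dvd_of_dvd_of_dvd hcop h2N hlN,
          ty_map (etyp_ty hac had hab hcd hbc.symm hbd.symm fun P hP => ⟨?_, ?_, ?_⟩)⟩⟩
      · refine hz P hP a ha c hc d hd b hb hac had hab hcd hbc.symm hbd.symm _ ?_
        intro S t hS hF h1 h2 h3 h4
        refine hdvd t ?_ (fits_out hw hS hF hl hlN hla hlz h1 h4.2)
        exact_mod_cast fits_both hw hF (q := 2) h2 h3 (by rw [hic]) (by rw [hidx d hd had hbd])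
      · refine hz P hP a ha b hb d hd c hc hab had hac hbd hbc hcd.symm _ ?_
        intro S t hS hF h1 h2 h3 h4
        have h5 := fits_in hw hS hF hl hlN hla hlz h1 h2 h3
        rwa [hidx d hd had hbd] at h5
      · refine hz P hP a ha d hd c hc b hb had hac hab hcd.symm hbd.symm hbc.symm _ ?_
        intro S t hS hF h1 h2 h3 h4
        refine hdvd t ?_ (fits_out hw hS hF hl hlN hla hlz h1 h4.2)
        exact_mod_cast fits_both hw hF (q := 2) h2 h3 (by rw [hidx d hd had hbd]) (by rw [hic])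
  · have h2r : 2 * 2 ^ (r - 1) = 2 ^ r := by
      rw [← pow_succ']
      congr 1
      omega
    obtain ⟨c, hc, hac, hbc⟩ := etyp_third (three_le hn hf) a b
    subst hN
    refine ⟨a, ha, b, hb, c, hc, hab, hac, hbc, fun d hd had hbd hcd => Or.inr
      ⟨2 ^ (r - 1), ?_, by rw [h2r],
        ty_map (etyp_ty hac had hab hcd hbc.symm hbd.symm fun P hP => ⟨?_, ?_, ?_⟩)⟩⟩
    · calc 2 = 2 ^ 1 := rfl
        _ ≤ 2 ^ (r - 1) := Nat.pow_le_pow_right (by norm_num) (by omega)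
    · rw [h2r]
      refine hz P hP a ha c hc d hd b hb hac had hab hcd hbc.symm hbd.symm _ ?_
      exact fun S t hS hF h1 h2 h3 h4 => fits_out_two hr hw hS hF h2a h2z h1 h4.2
    · refine hz P hP a ha b hb d hd c hc hab had hac hbd hbc hcd.symm _ ?_
      exact fun S t hS hF h1 h2 h3 h4 => fits_in_two hr hw hS hF h2a h2z h1 h2 h3
    · rw [h2r]
      refine hz P hP a ha d hd c hc b hb had hac hab hcd.symm hbd.symm hbc.symm _ ?_
      exact fun S t hS hF h1 h2 h3 h4 => fits_out_two hr hw hS hF h2a h2z h1 h4.2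

end FreyCyc
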