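import Mathlib

/-!
# Module EWgtA: the weights

`w z`, `z ∈ B`, are the weights: nonzero modulo `N`, of sum `0`, generating the integers modulo `N`. The
index of `z` is `idx N (w z) = N / gcd(N, w z)`, the order of the weight modulo `N`.

PROOF of `wcases`. (a) For a prime `l` and `e ≥ 1` with `l^e ∣ N`: `l^e ∣ idx N (w z)` iff
`v_l(w z) + e ≤ v_l(N)` (`padicValNat` or `factorization`; `idx * gcd = N`). In particular, with
`r = v_l(N)`, `l ∣ idx N (w z)` iff `l^r ∤ w z`.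
(b) For every prime `l ∣ N` there are at least two `z` with `v_l(w z) = 0`: there is one because otherwise
`l` divides all the weights, against `irr`; if there were only one, the sum of the weights would not be
divisible by `l`, but `l ∣ N ∣ sum`.
(c) If there is a prime `l ≥ 3` with `l ∣ N`: let `a ≠ b` with `v_l(w) = 0`: `l ∣ idx N (w a)`, `l ∣ idx N (w b)`. If
there is a third `z` with `l ∣ idx N (w z)`, the first case with `q = l`; otherwise the second case.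
(d) Otherwise `N = 2^r` and `r ≥ 2` because `N ≥ 3`. Let `a ≠ b` have odd weights; their index is `N`,
divisible by `4`. If there is a third `z` with `4 ∣ idx N (w z)`, the first case with `q = 4`. Otherwise for
`z ≠ a, b` the index is a divisor of `2^r`, not divisible by `4`, and it is not `1` because `0 < w z < N`: it is
`2`, so `gcd(N, w z) = 2^(r-1)`, and `w z = 2^(r-1)` because it is a multiple of `2^(r-1)` between `0` and `2^r`.
-/

set_option autoImplicit false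

namespace FreyCyc

/-- The index: the order of `w` in the integers modulo `N`. -/
def idx (N w : ℕ) : ℕ := N / N.gcd w

/-- The system of weights of an irreducible cyclic cover of degree `N` of the projective line. -/
structure WSys {α : Type*} (N : ℕ) (B : Set α) (w : α → ℕ) : Prop where
  fin : B.Finite
  lt : ∀ z ∈ B, 1 ≤ w z ∧ w z < N
  sum : N ∣ ∑ᶠ z ∈ B, w z
  irr : ∀ m : ℕ, m ∣ N → (∀ z ∈ B, m ∣ w z) → m = 1

private theorem EWgtA_dvd_idx {l N w : ℕ} (hl : l.Prime) (hlN : l ∣ N) (hw : ¬ l ∣ w) :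
    l ∣ idx N w := by
  unfold idx
  have h1 : N.gcd w ∣ N := Nat.gcd_dvd_left N w
  have h2 : N = N.gcd w * (N / N.gcd w) := (Nat.mul_div_cancel' h1).symm
  have h3 : l ∣ N.gcd w * (N / N.gcd w) := by
    rw [← h2]
    exact hlN
  rcases hl.dvd_mul.mp h3 with h | h
  · exact absurd (h.trans (Nat.gcd_dvd_right N w)) hw
  · exact h

private theorem EWgtA_two {α : Type*} {N : ℕ} {B : Set α} {w : α → ℕ} (h : WSys N B w) {l : ℕ}
    (hl : l.Prime) (hlN : l ∣ N) : ∃ a ∈ B, ∃ b ∈ B, a ≠ b ∧ ¬ l ∣ w a ∧ ¬ l ∣ w b := by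
  classical
  have h1 : ∃ a ∈ B, ¬ l ∣ w a := by
    by_contra hc
    push Not at hc
    exact hl.one_lt.ne' (h.irr l hlN hc)
  obtain ⟨a, ha, hla⟩ := h1
  by_contra hc
  have h2 : ∀ z ∈ B \ {a}, l ∣ w z := by
    intro z hz
    by_contra hz2
    exact hc ⟨a, ha, z, hz.1, fun e => hz.2 e.symm, hla, hz2⟩
  have hfin : (B \ {a}).Finite := h.fin.subset Set.sdiff_subset
  have h3 : ∑ᶠ z ∈ B, w z = w a + ∑ᶠ z ∈ B \ {a}, w z := by
    have h4 : insert a (B \ {a}) = B := by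
      ext z
      by_cases hz : z = a <;> simp [hz, ha]
    rw [← finsum_mem_insert w (by simp) hfin, h4]
  have h5 : l ∣ ∑ᶠ z ∈ B \ {a}, w z := by
    rw [finsum_mem_eq_finite_toFinset_sum _ hfin]
    exact Finset.dvd_sum (fun z hz => h2 z (by simpa using hz))
  have h6 : l ∣ ∑ᶠ z ∈ B, w z := hlN.trans h.sum
  rw [h3] at h6
  exact hla ((Nat.dvd_add_left h5).mp h6)

private theorem EWgtA_pow {r w : ℕ} (h1 : 1 ≤ w) (h2 : w < 2 ^ r) (h4 : ¬ 4 ∣ idx (2 ^ r) w) :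
    w = 2 ^ (r - 1) := by
  unfold idx at h4
  obtain ⟨j, hj, hg⟩ := (Nat.dvd_prime_pow Nat.prime_two).mp (Nat.gcd_dvd_left (2 ^ r) w)
  have h5 : 2 ^ j ∣ w := by
    rw [← hg]
    exact Nat.gcd_dvd_right _ _
  rw [hg, Nat.pow_div hj (by norm_num)] at h4
  have h6 : j < r := by
    by_contra hc
    have h7 : j = r := by omega
    rw [h7] at h5
    exact absurd (Nat.le_of_dvd (by omega) h5) (by omega)
  have h8 : r - j < 2 := by
    by_contra hc
    apply h4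
    have h9 : 2 ^ 2 ∣ 2 ^ (r - j) := pow_dvd_pow 2 (by omega)
    simpa using h9
  have h10 : j = r - 1 := by omega
  rw [← h10]
  obtain ⟨m, hm⟩ := h5
  have h11 : 2 ^ r = 2 ^ j * 2 := by
    rw [← pow_succ]
    congr 1
    omega
  rw [h11, hm] at h2
  have h12 : m < 2 := Nat.lt_of_mul_lt_mul_left h2
  have h13 : m ≠ 0 := by
    rintro rfl
    rw [hm] at h1
    simp at h1
  have h14 : m = 1 := by omega
  rw [hm, h14, mul_one]

theorem wcases {α : Type*} {N : ℕ} {B : Set α} {w : α → ℕ} (h : WSys N B w) (h3 : 3 ≤ N) :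
    (∃ q : ℕ, 3 ≤ q ∧ q ∣ N ∧ ∃ a ∈ B, ∃ b ∈ B, ∃ c ∈ B, a ≠ b ∧ a ≠ c ∧ b ≠ c ∧
      q ∣ idx N (w a) ∧ q ∣ idx N (w b) ∧ q ∣ idx N (w c)) ∨
    (∃ l : ℕ, l.Prime ∧ 3 ≤ l ∧ l ∣ N ∧ ∃ a ∈ B, ∃ b ∈ B, a ≠ b ∧ ¬ l ∣ w a ∧ ¬ l ∣ w b ∧
      ∀ z ∈ B, z ≠ a → z ≠ b → ¬ l ∣ idx N (w z)) ∨
    (∃ r : ℕ, 2 ≤ r ∧ N = 2 ^ r ∧ ∃ a ∈ B, ∃ b ∈ B, a ≠ b ∧ ¬ 2 ∣ w a ∧ ¬ 2 ∣ w b ∧
      ∀ z ∈ B, z ≠ a → z ≠ b → w z = 2 ^ (r - 1)) := by
  rcases Nat.eq_two_pow_or_exists_odd_prime_and_dvd N with ⟨r, hr⟩ | ⟨l, hl, hlN, hodd⟩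
  · subst hr
    have hr2 : 2 ≤ r := by
      by_contra hc
      have h4 : r = 0 ∨ r = 1 := by omega
      rcases h4 with h4 | h4 <;> rw [h4] at h3 <;> norm_num at h3
    have h2N : 2 ∣ 2 ^ r := dvd_pow_self 2 (by omega)
    obtain ⟨a, ha, b, hb, hab, hwa, hwb⟩ := EWgtA_two h Nat.prime_two h2N
    have hidx : ∀ z, ¬ 2 ∣ w z → 4 ∣ idx (2 ^ r) (w z) := by
      intro z hz
      have h5 : (2 ^ r).gcd (w z) = 1 := by
        apply Nat.Coprime.pow_left
        exact (Nat.Prime.coprime_iff_not_dvd Nat.prime_two).mpr hz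
      unfold idx
      rw [h5, Nat.div_one]
      have h9 : 2 ^ 2 ∣ 2 ^ r := pow_dvd_pow 2 hr2
      simpa using h9
    by_cases hc : ∃ z ∈ B, z ≠ a ∧ z ≠ b ∧ 4 ∣ idx (2 ^ r) (w z)
    · obtain ⟨z, hz, hza, hzb, h4z⟩ := hc
      refine Or.inl ⟨4, by norm_num, ?_, a, ha, b, hb, z, hz, hab, hza.symm, hzb.symm,
        hidx a hwa, hidx b hwb, h4z⟩
      have h9 : 2 ^ 2 ∣ 2 ^ r := pow_dvd_pow 2 hr2
      simpa using h9
    · refine Or.inr (Or.inr ⟨r, hr2, rfl, a, ha, b, hb, hab, hwa, hwb, ?_⟩)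
      intro z hz hza hzb
      exact EWgtA_pow (h.lt z hz).1 (h.lt z hz).2 (fun h4 => hc ⟨z, hz, hza, hzb, h4⟩)
  · have hl3 : 3 ≤ l := by
      have h4 := hl.two_le
      rcases Nat.lt_or_ge l 3 with h5 | h5
      · have h6 : l = 2 := by omega
        rw [h6] at hodd
        exact absurd hodd (by decide)
      · exact h5
    obtain ⟨a, ha, b, hb, hab, hwa, hwb⟩ := EWgtA_two h hl hlN
    by_cases hc : ∃ z ∈ B, z ≠ a ∧ z ≠ b ∧ l ∣ idx N (w z)
    · obtain ⟨z, hz, hza, hzb, h4z⟩ := hc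
      exact Or.inl ⟨l, hl3, hlN, a, ha, b, hb, z, hz, hab, hza.symm, hzb.symm,
        EWgtA_dvd_idx hl hlN hwa, EWgtA_dvd_idx hl hlN hwb, h4z⟩
    · refine Or.inr (Or.inl ⟨l, hl, hl3, hlN, a, ha, b, hb, hab, hwa, hwb, ?_⟩)
      intro z hz hza hzb h4
      exact hc ⟨z, hz, hza, hzb, h4⟩

end FreyCyc
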