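import Pool.Agent.Lib.MP_6babc4_nt.Cy3.FStp
import Pool.Agent.Lib.MP_6babc4_nt.Cyc.Clo

/-!
# Module FClo: closeness along the quadratic chain

PROOFS. Copies of `clo_stp` and `chain_colour` in Cyc/Clo.
* `clo_qst`: `qst s - qst t = 2 (t - s) / ((1 + s)(1 + t))`, `2` is a unit at `P`; and
  `max (v (1 - t)) (v (1 + t)) = max (v t) 1` (`2 = (1 - t) + (1 + t)`, `2 t = (1 + t) - (1 - t)`), so
  `max (v (qst t)) 1 = max (v t) 1 / v (1 + t)`.
* `qchain_colour`: induction on `k`, `clo_B`, `clo_pow` with `q = 2`, `ζ = -1` (`IsPrimitiveRoot (-1) 2`: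
  `IsPrimitiveRoot.neg_one`), `clo_qst`. (`t ≠ -1` by `qt_ne`.)
-/

set_option autoImplicit false

open Polynomial NumberField IsDedekindDomain Module

namespace FreyCyc

open FreySparse

variable {E : Type*} [Field E] [NumberField E]

/-- Closeness of two quotients. -/
private lemma FClo_mob {P : HeightOneSpectrum (𝓞 E)} {a b p q p' q' : E} (hq : q ≠ 0) (hq' : q' ≠ 0)
    (h1 : max (P.valuation E p) (P.valuation E q) = max (P.valuation E a) 1)
    (h2 : max (P.valuation E p') (P.valuation E q') = max (P.valuation E b) 1)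
    (h3 : P.valuation E (p * q' - p' * q) = P.valuation E (a - b)) (h : Clo P a b) :
    Clo P (p / q) (p' / q') := by
  unfold Clo at h ⊢
  set v := P.valuation E with hv
  have hvq : 0 < v q := zero_lt_iff.mpr ((Valuation.ne_zero_iff _).mpr hq)
  have hvq' : 0 < v q' := zero_lt_iff.mpr ((Valuation.ne_zero_iff _).mpr hq')
  have key : ∀ {x y : E}, y ≠ 0 → max (v (x / y)) 1 * v y = max (v x) (v y) := by
    intro x y hy
    have hvy : v y ≠ 0 := (Valuation.ne_zero_iff _).mpr hy
    rw [max_mul, one_mul, ← map_mul, div_mul_cancel₀ _ hy]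
  have e1 : v (p / q - p' / q') * (v q * v q') = v (a - b) := by
    rw [← map_mul, ← map_mul, ← h3]
    congr 1
    field_simp
  have e2 : max (v (p / q)) 1 * max (v (p' / q')) 1 * (v q * v q') =
      max (v a) 1 * max (v b) 1 := by
    rw [← h1, ← h2, ← key hq, ← key hq']
    ac_rfl
  refine lt_of_mul_lt_mul_right ?_ (mul_pos hvq hvq').le
  rw [e1, e2]
  exact h

private lemma FClo_val_one {P : HeightOneSpectrum (𝓞 E)} {x : E} (hx : x ≠ 0) (h : ord P x = 0) :
    P.valuation E x = 1 := by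
  have h0 : P.valuation E x ≠ 0 := (Valuation.ne_zero_iff _).mpr hx
  unfold ord at h
  have h1 : WithZero.log (P.valuation E x) = WithZero.log 1 := by
    rw [WithZero.log_one]
    omega
  have h2 := WithZero.exp_log h0
  rw [h1, WithZero.log_one, WithZero.exp_zero] at h2
  exact h2.symm

private lemma FClo_two {P : HeightOneSpectrum (𝓞 E)} (hP : (2 : 𝓞 E) ∉ P.asIdeal) :
    P.valuation E (2 : E) = 1 := by
  refine FClo_val_one two_ne_zero ?_
  have h0 : (2 : 𝓞 E) ≠ 0 := two_ne_zero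
  have h1 := ord_nonneg P (2 : 𝓞 E)
  have h2 := (ord_pos_iff P h0).not.mpr hP
  rw [map_ofNat] at h1 h2
  omega

theorem clo_qst {P : HeightOneSpectrum (𝓞 E)} (hP : (2 : 𝓞 E) ∉ P.asIdeal) {s t : E} (hs : s ≠ -1)
    (ht : t ≠ -1) (h : Clo P s t) : Clo P (qst s) (qst t) := by
  have v2 := FClo_two hP
  have hs' : 1 + s ≠ 0 := fun h0 => hs (by linear_combination h0)
  have ht' : 1 + t ≠ 0 := fun h0 => ht (by linear_combination h0)
  have key : ∀ x : E, max (P.valuation E (1 - x)) (P.valuation E (1 + x)) =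
      max (P.valuation E x) 1 := by
    intro x
    apply le_antisymm
    · refine max_le ?_ ?_
      · have := (P.valuation E).map_sub 1 x
        rw [map_one, max_comm] at this
        exact this
      · have := (P.valuation E).map_add 1 x
        rw [map_one, max_comm] at this
        exact this
    · refine max_le ?_ ?_
      · have h5 := (P.valuation E).map_sub (1 + x) (1 - x)
        have h6 : 1 + x - (1 - x) = 2 * x := by ring
        rw [h6, map_mul, v2, one_mul, max_comm] at h5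
        exact h5
      · have h5 := (P.valuation E).map_add (1 - x) (1 + x)
        have h6 : 1 - x + (1 + x) = 2 := by ring
        rw [h6, v2] at h5
        exact h5
  refine FClo_mob hs' ht' (key s) (key t) ?_ h
  have h4 : (1 - s) * (1 + t) - (1 - t) * (1 + s) = -(2 * (s - t)) := by ring
  rw [h4, Valuation.map_neg, map_mul, v2, one_mul]

theorem qchain_colour {P : HeightOneSpectrum (𝓞 E)} (hP : (2 : 𝓞 E) ∉ P.asIdeal) (k : ℕ)
    (S : Set (E × E)) (hS : ∀ x ∈ S, QChain k x.1 x.2)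
    (hC : ∀ x ∈ S, ∀ y ∈ S, Clo P x.1 y.1) :
    ∃ c : E × E → Fin (2 ^ k), ∀ x ∈ S, ∀ y ∈ S, c x = c y → Clo P x.2 y.2 := by
  have hζ : IsPrimitiveRoot (-1 : E) 2 := IsPrimitiveRoot.neg_one 0 two_ne_zero.symm
  induction k generalizing S with
  | zero =>
    refine ⟨fun _ => ⟨0, by simp⟩, fun x hx y hy _ => ?_⟩
    have h1 : x.1 = x.2 := hS x hx
    have h2 : y.1 = y.2 := hS y hy
    rw [← h1, ← h2]
    exact hC x hx y hy
  | succ k ih =>
    rcases S.eq_empty_or_nonempty with hSe | ⟨z, hz⟩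
    · refine ⟨fun _ => ⟨0, pow_pos two_pos _⟩, fun x hx => ?_⟩
      rw [hSe] at hx
      exact absurd hx (Set.notMem_empty _)
    have hS' : ∀ x ∈ S, ∃ t : E, x.1 ≠ 0 ∧ x.1 ≠ 1 ∧ t ^ 2 = x.1 / (x.1 - 1) ∧
        QChain k (qst t) x.2 := fun x hx => hS x hx
    choose! t ht0 ht1 ht2 ht3 using hS'
    have hm : ∀ x ∈ S, ∃ m : ℕ, m < 2 ∧ Clo P (t x) ((-1) ^ m * t z) := by
      intro x hx
      have h1 : Clo P (t x ^ 2) (t z ^ 2) := by
        rw [ht2 x hx, ht2 z hz]
        exact clo_B (ht1 x hx) (ht1 z hz) (hC x hx z hz)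
      obtain ⟨m, hm, h2⟩ := clo_pow two_pos hζ h1
      exact ⟨m, hm, h2⟩
    choose! m hmq hmC using hm
    have hne : ∀ x ∈ S, t x ≠ -1 := fun x hx => (qt_ne (ht0 x hx) (ht1 x hx) (ht2 x hx)).2.2
    have hcol : ∀ j : ℕ, ∃ c : E × E → Fin (2 ^ k),
        ∀ x ∈ {p : E × E | ∃ x ∈ S, m x = j ∧ p = (qst (t x), x.2)},
        ∀ y ∈ {p : E × E | ∃ x ∈ S, m x = j ∧ p = (qst (t x), x.2)},
          c x = c y → Clo P x.2 y.2 := by
      intro j
      refine ih _ ?_ ?_
      · rintro p ⟨x, hx, -, rfl⟩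
        exact ht3 x hx
      · rintro p ⟨x, hx, hxj, rfl⟩ q ⟨y, hy, hyj, rfl⟩
        refine clo_qst hP (hne x hx) (hne y hy) ?_
        have h1 := hmC x hx
        have h2 := hmC y hy
        rw [hxj] at h1
        rw [hyj] at h2
        exact clo_trans h1 (clo_symm h2)
    choose c hc using hcol
    have hcard : 2 * 2 ^ k = 2 ^ (k + 1) := (pow_succ' 2 k).symm
    refine ⟨fun x => Fin.cast hcard (finProdFinEquiv
      ((⟨m x % 2, Nat.mod_lt _ two_pos⟩ : Fin 2), c (m x) (qst (t x), x.2))), ?_⟩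
    intro x hx y hy hxy
    have h1 := finProdFinEquiv.injective (Fin.cast_injective hcard hxy)
    rw [Prod.mk.injEq] at h1
    obtain ⟨h4, h5⟩ := h1
    have h6 : m x = m y := by
      have h7 := congrArg Fin.val h4
      simp only [Nat.mod_eq_of_lt (hmq x hx), Nat.mod_eq_of_lt (hmq y hy)] at h7
      exact h7
    rw [← h6] at h5
    exact hc (m x) (qst (t x), x.2) ⟨x, hx, rfl, rfl⟩ (qst (t y), y.2)
      ⟨y, hy, h6.symm, rfl⟩ h5

end FreyCyc
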