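import Pool.Agent.Lib.MP_6babc4_nt.Cy3.ETyp
import Pool.Agent.Lib.MP_6babc4_nt.Cyc.Tow

/-!
# Module FStp: the quadratic step

The step: `t ^ 2 = a / (a - 1)`, the new number is `qst t = (1 - t) / (1 + t)`; `qst t - 1 = - 2 t / (1 + t)`.

PROOFS.
* `qt_ne`: `t^2 = a / (a - 1) ≠ 1` and `≠ 0`. `qst_ne`: so `qst t ≠ 0, 1` (`t ≠ 1`, `t ≠ 0`).
* `qchain_unique`: as `chain_unique` in Cyc/Stp (`qst` is injective on `t ≠ -1`, `a / (a - 1)` determines `a`);
  `qchain_map` as `chain_map`.
* `ty_qst`: `2 ∣ w`, `A` of type `(2 q, 2, 2 q)`, `t^2 = A / (A - 1)`, `P ∌ w`: `ord 2 = 0`, and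
  `(t - 1)(t + 1) = t^2 - 1 = 1 / (A - 1)`.
  (i) `ord A < 0`, `= - 2 q κ`: `ord (A - 1) = ord A`, `ord t = 0`, the orders of `t - 1`, `t + 1` are `≥ 0` of sum
  `2 q κ` and one of them is `0` (difference `2`): `ord (qst t) = ± 2 q κ`; and if `ord (qst t - 1)`
  `= ord t - ord (1 + t)` is positive it is impossible (it is `0` or `- 2 q κ`).
  (ii) `ord A > 0`, `= 2 q κ`: `ord t = q κ > 0`, `ord (1 ± t) = 0`: `ord (qst t) = 0`, `ord (qst t - 1) = q κ`.
  (iii) `ord (A - 1) > 0`: `ord t < 0`, `ord (1 ± t) = ord t`: both orders are `0`.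
  (iv) `ord A = ord (A - 1) = 0`: `ord t = 0`, `ord (t - 1) + ord (t + 1) = 0`, both `≥ 0`: all are `0`.
  So zeros and poles of `qst t` have orders divisible by `2 q`, zeros of `qst t - 1` by `q`.
  (The types `(2q, q, 2q)`; for `q = 2` it is again the type `(4, 2, 4)`; for `q ≥ 3` it gives `(q, q, q)`.)
-/

set_option autoImplicit false

open Polynomial NumberField IsDedekindDomain Module

namespace FreyCyc

open FreySparse

/-- The Möbius map of the quadratic step. -/
def qst {E : Type*} [Field E] (t : E) : E := (1 - t) / (1 + t)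

/-- The chain of `k` quadratic steps from `a` to `b`. -/
def QChain {E : Type*} [Field E] : ℕ → E → E → Prop
  | 0, a, b => a = b
  | k + 1, a, b => ∃ t : E, a ≠ 0 ∧ a ≠ 1 ∧ t ^ 2 = a / (a - 1) ∧ QChain k (qst t) b

section algebra

variable {E : Type*} [Field E] [CharZero E]

theorem qt_ne {a t : E} (h0 : a ≠ 0) (h1 : a ≠ 1) (h : t ^ 2 = a / (a - 1)) :
    t ≠ 0 ∧ t ≠ 1 ∧ t ≠ -1 := by
  have h2 : a - 1 ≠ 0 := sub_ne_zero.mpr h1
  rw [eq_div_iff h2] at h
  refine ⟨?_, ?_, ?_⟩
  · rintro rfl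
    apply h0
    linear_combination -h
  · rintro rfl
    have h3 : (1 : E) = 0 := by linear_combination -h
    exact one_ne_zero h3
  · rintro rfl
    have h3 : (1 : E) = 0 := by linear_combination -h
    exact one_ne_zero h3

theorem qst_ne {a t : E} (h0 : a ≠ 0) (h1 : a ≠ 1) (h : t ^ 2 = a / (a - 1)) :
    qst t ≠ 0 ∧ qst t ≠ 1 := by
  obtain ⟨ht0, ht1, ht2⟩ := qt_ne h0 h1 h
  have h2 : 1 + t ≠ 0 := by
    intro h3
    apply ht2
    linear_combination h3
  have h3 : 1 - t ≠ 0 := sub_ne_zero.mpr (Ne.symm ht1)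
  unfold qst
  refine ⟨div_ne_zero h3 h2, ?_⟩
  rw [Ne, div_eq_one_iff_eq h2]
  intro h4
  have h5 : (2 : E) * t = 0 := by linear_combination -h4
  rcases mul_eq_zero.mp h5 with h6 | h6
  · exact two_ne_zero h6
  · exact ht0 h6

theorem qchain_unique (k : ℕ) {a a' b : E} (h : QChain k a b) (h' : QChain k a' b) : a = a' := by
  induction k generalizing a a' with
  | zero => exact (show a = b from h).trans (show a' = b from h').symm
  | succ k ih =>
    obtain ⟨t, h0, h1, ht, hc⟩ := h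
    obtain ⟨t', h0', h1', ht', hc'⟩ := h'
    have e1 := ih hc hc'
    obtain ⟨-, -, ht2⟩ := qt_ne h0 h1 ht
    obtain ⟨-, -, ht2'⟩ := qt_ne h0' h1' ht'
    have h2 : 1 + t ≠ 0 := by
      intro h3
      apply ht2
      linear_combination h3
    have h2' : 1 + t' ≠ 0 := by
      intro h3
      apply ht2'
      linear_combination h3
    have e2 : t = t' := by
      unfold qst at e1
      rw [div_eq_div_iff h2 h2'] at e1
      have e3 : (2 : E) * (t - t') = 0 := by linear_combination -e1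
      rcases mul_eq_zero.mp e3 with e5 | e5
      · exact absurd e5 two_ne_zero
      · exact sub_eq_zero.mp e5
    rw [e2] at ht
    rw [ht, div_eq_div_iff (sub_ne_zero.mpr h1) (sub_ne_zero.mpr h1')] at ht'
    linear_combination -ht'

theorem qchain_map {F : Type*} [Field F] (φ : E →+* F) (k : ℕ) {a b : E} (h : QChain k a b) :
    QChain k (φ a) (φ b) := by
  induction k generalizing a with
  | zero => exact congrArg φ (show a = b from h)
  | succ k ih =>
    obtain ⟨t, h0, h1, ht, hc⟩ := h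
    refine ⟨φ t, (map_ne_zero φ).mpr h0, ?_, ?_, ?_⟩
    · intro h
      apply h1
      apply φ.injective
      rw [h, map_one]
    · rw [← map_pow, ht, map_div₀, map_sub, map_one]
    · have h2 : φ (qst t) = qst (φ t) := by
        unfold qst
        simp only [map_div₀, map_sub, map_add, map_one]
      rw [← h2]
      exact ih hc

end algebra

/-- the orders in the quadratic step -/
private lemma fstp_orders {E : Type} [Field E] [NumberField E] (P : HeightOneSpectrum (𝓞 E))
    (h2P : (2 : 𝓞 E) ∉ P.asIdeal) {A t : E} (hA0 : A ≠ 0) (hA1 : A ≠ 1)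
    (ht : t ^ 2 = A / (A - 1)) :
    2 * ord P t + ord P (A - 1) = ord P A ∧
    ord P (1 - t) + ord P (1 + t) = -ord P (A - 1) ∧
    ord P (qst t) = ord P (1 - t) - ord P (1 + t) ∧
    ord P (qst t - 1) = ord P t - ord P (1 + t) ∧
    min (ord P (A - 1)) 0 ≤ ord P A ∧ min (ord P A) 0 ≤ ord P (A - 1) ∧
    min (ord P A) (ord P (A - 1)) ≤ 0 ∧ min 0 (ord P t) ≤ ord P (1 - t) ∧
    min 0 (ord P t) ≤ ord P (1 + t) ∧ min (ord P (1 - t)) (ord P (1 + t)) ≤ 0 := by
  obtain ⟨ht0, ht1, ht2⟩ := qt_ne hA0 hA1 ht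
  have hB : A - 1 ≠ 0 := sub_ne_zero.mpr hA1
  have hu : 1 - t ≠ 0 := sub_ne_zero.mpr (Ne.symm ht1)
  have hv : 1 + t ≠ 0 := by
    intro h3
    apply ht2
    linear_combination h3
  have h2 : ord P (2 : E) = 0 := by
    have h20 : (2 : 𝓞 E) ≠ 0 := two_ne_zero
    have h1 := ord_nonneg P (2 : 𝓞 E)
    have h3 := (ord_pos_iff P h20).not.mpr h2P
    have h4 : algebraMap (𝓞 E) E 2 = 2 := map_ofNat _ 2
    rw [h4] at h1 h3
    omega
  have h2E : (2 : E) ≠ 0 := two_ne_zero
  rw [eq_div_iff hB] at ht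
  have hdiv : ∀ x y : E, x ≠ 0 → y ≠ 0 → ord P (x / y) = ord P x - ord P y := by
    intro x y hx hy
    have h1 : x = x / y * y := by field_simp
    have h3 := ord_mul P (div_ne_zero hx hy) hy
    rw [← h1] at h3
    omega
  refine ⟨?_, ?_, ?_, ?_, ?_, ?_, ?_, ?_, ?_, ?_⟩
  · have h3 := ord_mul P (pow_ne_zero 2 ht0) hB
    rw [ht, ord_pow P ht0] at h3
    push_cast at h3
    exact h3.symm
  · have h3 : (1 - t) * (1 + t) * (A - 1) = -1 := by linear_combination -ht
    have h4 := ord_mul P (mul_ne_zero hu hv) hB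
    rw [h3, ord_mul P hu hv, ord_neg, ord_one] at h4
    omega
  · unfold qst
    exact hdiv _ _ hu hv
  · have h3 : qst t - 1 = (-(2 * t)) / (1 + t) := by
      unfold qst
      rw [eq_div_iff hv, sub_mul, div_mul_cancel₀ _ hv]
      ring
    rw [h3, hdiv _ _ (neg_ne_zero.mpr (mul_ne_zero h2E ht0)) hv, ord_neg, ord_mul P h2E ht0, h2]
    ring
  · have h3 := le_ord_add P hB (one_ne_zero (α := E)) (by rw [sub_add_cancel]; exact hA0)
    rw [sub_add_cancel, ord_one] at h3
    exact h3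
  · have h3 := le_ord_add P hA0 (neg_ne_zero.mpr (one_ne_zero (α := E)))
      (by rw [← sub_eq_add_neg]; exact hB)
    rw [← sub_eq_add_neg, ord_neg, ord_one] at h3
    exact h3
  · have h5 : A + -(A - 1) = 1 := by ring
    have h3 := le_ord_add P hA0 (neg_ne_zero.mpr hB) (by rw [h5]; exact one_ne_zero)
    rw [h5, ord_neg, ord_one] at h3
    exact h3
  · have h3 := le_ord_add P (one_ne_zero (α := E)) (neg_ne_zero.mpr ht0)
      (by rw [← sub_eq_add_neg]; exact hu)
    rw [← sub_eq_add_neg, ord_neg, ord_one] at h3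
    exact h3
  · have h3 := le_ord_add P (one_ne_zero (α := E)) ht0 hv
    rw [ord_one] at h3
    exact h3
  · have h5 : (1 - t) + (1 + t) = 2 := by ring
    have h3 := le_ord_add P hu hv (by rw [h5]; exact h2E)
    rw [h5, h2] at h3
    exact h3

private lemma fstp_two {E : Type} [Field E] [NumberField E] {w : ℕ} (hw : 2 ∣ w)
    (P : HeightOneSpectrum (𝓞 E)) (hP : (w : 𝓞 E) ∉ P.asIdeal) : (2 : 𝓞 E) ∉ P.asIdeal := by
  intro h
  obtain ⟨m, rfl⟩ := hw
  apply hP
  rw [Nat.cast_mul, Nat.cast_ofNat]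
  exact P.asIdeal.mul_mem_right _ h

theorem ty_qst {E : Type} [Field E] [NumberField E] {w q : ℕ} (hq : 0 < q) (hw : 2 ∣ w) {A t : E}
    (hA : Ty w (2 * q) 2 (2 * q) A) (ht : t ^ 2 = A / (A - 1)) :
    Ty w (2 * q) q (2 * q) (qst t) := by
  obtain ⟨hA0, hA1, hAP⟩ := hA
  obtain ⟨hs0, hs1⟩ := qst_ne hA0 hA1 ht
  refine ⟨hs0, hs1, fun P hP => ?_⟩
  obtain ⟨hz, -, hp⟩ := hAP P hP
  obtain ⟨e1, e2, e3, e4, e5, e6, e7, e8, e9, e10⟩ :=
    fstp_orders P (fstp_two hw P hP) hA0 hA1 ht
  have hqZ : (0 : ℤ) < q := by exact_mod_cast hq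
  set α := ord P A
  set β := ord P (A - 1)
  set τ := ord P t
  set u := ord P (1 - t)
  set v := ord P (1 + t)
  rw [e3, e4]
  rcases lt_trichotomy α 0 with hα | hα | hα
  · have hd := hp hα
    have hβ : β = α := by omega
    have hτ : τ = 0 := by omega
    have huv : (u = 0 ∧ v = -α) ∨ (v = 0 ∧ u = -α) := by omega
    rcases huv with ⟨h1, h2⟩ | ⟨h1, h2⟩
    · have h3 : u - v = α := by omega
      rw [h3]
      exact ⟨fun _ => hd, fun h => by omega, fun _ => hd⟩
    · have h3 : u - v = -α := by omega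
      rw [h3]
      exact ⟨fun _ => (dvd_neg).mpr hd, fun h => by omega, fun _ => (dvd_neg).mpr hd⟩
  · have h1 : u - v = 0 := by omega
    have h2 : τ - v = 0 := by omega
    rw [h1, h2]
    exact ⟨fun _ => dvd_zero _, fun _ => dvd_zero _, fun _ => dvd_zero _⟩
  · have hd := hz hα
    have hβ : β = 0 := by omega
    have h1 : u - v = 0 := by omega
    have h2 : v = 0 := by omega
    have h3 : 2 * τ = α := by omega
    rw [h1, h2, sub_zero]
    refine ⟨fun _ => dvd_zero _, fun _ => ?_, fun _ => dvd_zero _⟩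
    rw [← h3] at hd
    push_cast at hd
    exact (mul_dvd_mul_iff_left (by norm_num : (2 : ℤ) ≠ 0)).mp hd

/-- Adjoining `t`. -/
theorem adj_qst {E : Type} [Field E] [NumberField E] {w q : ℕ} (hw0 : w ≠ 0) (hw : 2 ∣ w) {A : E}
    (hA : Ty w (2 * q) 2 (2 * q) A) :
    ∃ (E' : Type) (_ : Field E') (_ : NumberField E') (_ : Algebra E E') (t : E'),
      t ^ 2 = algebraMap E E' A / (algebraMap E E' A - 1) ∧ finrank ℚ E' ≤ 2 * finrank ℚ E ∧
      |(discr E' : ℝ)| ≤ (|(discr E : ℝ)| * ((2 : ℝ) * w) ^ finrank ℚ E) ^ 2 := by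
  obtain ⟨hA0, hA1, hAP⟩ := hA
  have hB : A - 1 ≠ 0 := sub_ne_zero.mpr hA1
  obtain ⟨E', iF, iN, iA, x, hx, hfin, hdisc⟩ := kummer_step (q := 2) (by norm_num)
    (ζ := (-1 : E)) (IsPrimitiveRoot.neg_one 0 (by norm_num)) (div_ne_zero hA0 hB) hw0 hw (by
      intro P hP
      obtain ⟨h1, h2, h3⟩ := hAP P hP
      have hdiv : ord P (A / (A - 1)) = ord P A - ord P (A - 1) := by
        have h4 : A = A / (A - 1) * (A - 1) := by field_simp
        have h5 := ord_mul P (div_ne_zero hA0 hB) hB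
        rw [← h4] at h5
        omega
      have e5 : min (ord P (A - 1)) 0 ≤ ord P A := by
        have h3 := le_ord_add P hB (one_ne_zero (α := E)) (by rw [sub_add_cancel]; exact hA0)
        rw [sub_add_cancel, ord_one] at h3
        exact h3
      have e6 : min (ord P A) 0 ≤ ord P (A - 1) := by
        have h3 := le_ord_add P hA0 (neg_ne_zero.mpr (one_ne_zero (α := E)))
          (by rw [← sub_eq_add_neg]; exact hB)
        rw [← sub_eq_add_neg, ord_neg, ord_one] at h3
        exact h3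
      have e7 : min (ord P A) (ord P (A - 1)) ≤ 0 := by
        have h5 : A + -(A - 1) = 1 := by ring
        have h3 := le_ord_add P hA0 (neg_ne_zero.mpr hB) (by rw [h5]; exact one_ne_zero)
        rw [h5, ord_neg, ord_one] at h3
        exact h3
      rw [hdiv]
      set α := ord P A
      set β := ord P (A - 1)
      rcases lt_trichotomy α 0 with hα | hα | hα
      · have h6 : α - β = 0 := by omega
        rw [h6]
        exact dvd_zero _
      · rcases lt_trichotomy β 0 with hβ | hβ | hβ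
        · omega
        · rw [hα, hβ, sub_zero]
          exact dvd_zero _
        · have h7 := h2 hβ
          rw [hα, zero_sub]
          exact (dvd_neg).mpr h7
      · have h6 : β = 0 := by omega
        rw [h6, sub_zero]
        have h7 := h1 hα
        push_cast at h7
        exact (dvd_mul_right _ _).trans h7)
  refine ⟨E', iF, iN, iA, x, ?_, hfin, ?_⟩
  · rw [hx, map_div₀, map_sub, map_one]
  · exact_mod_cast hdisc

end FreyCyc
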